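import Pool.Agent.CRD.Crv.Stmts

/-!
# ACF: projections of the algebras of functions on the charts
-/

open Polynomial TensorProduct

namespace Pool.CRD

noncomputable section

theorem gC_fst {F F' : Type} [Field F] [Field F'] (l z y : F) (l' z' y' : F') (k : Fin 6) :
    (gC ((l, l') : F × F') (z, z') (y, y') k).1 = gC l z y k := by
  fin_cases k <;> simp [gC, zi, yi, qq, qa, qb]

theorem gC_snd {F F' : Type} [Field F] [Field F'] (l z y : F) (l' z' y' : F') (k : Fin 6) :
    (gC ((l, l') : F × F') (z, z') (y, y') k).2 = gC l' z' y' k := by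
  fin_cases k <;> simp [gC, zi, yi, qq, qa, qb]

theorem pf_ACF : Stmt_ACF := by
  intro B F F' _ _ _ _ _ l z y z' y' s
  have hl : algebraMap B (F × F') l = (algebraMap B F l, algebraMap B F' l) := rfl
  constructor
  · unfold AC
    rw [AlgHom.map_adjoin, ← Set.image_comp, hl]
    congr 1
    apply Set.image_congr
    intro k _
    exact gC_fst _ _ _ _ _ _ k
  · unfold AC
    rw [AlgHom.map_adjoin, ← Set.image_comp, hl]
    congr 1
    apply Set.image_congr
    intro k _
    exact gC_snd _ _ _ _ _ _ k

end

end Pool.CRD
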