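import Pool.Agent.CRD.Crv.Stmts

/-!
# CRD / Crv, module CAB: the chart `cab` is a localisation of `ca` and of `cb`
-/

open Polynomial TensorProduct

namespace Pool.CRD

noncomputable section

namespace CAB_

variable {K : Type} [Field K] {l : K} (H : HypF K l)

theorem gen_mem {s : Cov Bool} {k : Fin 6} (hk : k ∈ ixC s) :
    gC (algebraMap K H.F l) H.z H.y k ∈ H.A s :=
  Algebra.subset_adjoin ⟨k, hk, rfl⟩

theorem ca_mem {k : Fin 6} (hk : k < 3) : gC (algebraMap K H.F l) H.z H.y k ∈ H.A ca :=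
  gen_mem H (Or.inl ⟨by simp [ca, Cov.one], hk⟩)

theorem cb_mem {k : Fin 6} (hk : 3 ≤ k) : gC (algebraMap K H.F l) H.z H.y k ∈ H.A cb :=
  gen_mem H (Or.inr ⟨by simp [cb, Cov.one], hk⟩)

theorem cab_le {T : Subalgebra K H.F} (h : ∀ k, gC (algebraMap K H.F l) H.z H.y k ∈ T) :
    H.A cab ≤ T := by
  unfold DblF.A AC
  rw [Algebra.adjoin_le_iff]
  rintro _ ⟨k, -, rfl⟩
  exact h k

end CAB_

theorem cab_proof (hCBA : Stmt_CBA) : Stmt_CAB := by
  intro K _ l H _
  have hB := hCBA K l H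
  set L := algebraMap K H.F l with hL
  set i := zi H.z with hidef
  have hz0 := hB.z0
  have hi0 : i ≠ 0 := hB.i0
  have hi1 : i + 1 ≠ 0 := hB.i1
  have hq0 : qq L i ≠ 0 := hB.q0
  have h31 := hB.z31
  have h3l := hB.z3l
  have hz1 := hB.z1
  have hzi : i * (H.z - 1) = 1 := by
    rw [hidef]
    exact inv_mul_cancel₀ hz1
  have hzq : H.z * i = i + 1 := by linear_combination hzi
  have hqq : qq L i = (H.z ^ 3 - 1) * (H.z ^ 3 - L) * i ^ 6 := by
    have e1 := hB.qa_eq
    have e2 := hB.qb_eq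
    rw [eq_div_iff (pow_ne_zero 3 hi0)] at e1 e2
    unfold qq
    rw [← e1, ← e2]
    ring
  -- generators
  have g0 : i ∈ H.A ca := CAB_.ca_mem H (k := 0) (by decide)
  have g1 : (qq L i)⁻¹ ∈ H.A ca := CAB_.ca_mem H (k := 1) (by decide)
  have g2 : yi H.z H.y ∈ H.A ca := CAB_.ca_mem H (k := 2) (by decide)
  have g3 : H.z ∈ H.A cb := CAB_.cb_mem H (k := 3) (by decide)
  have g4 : H.z⁻¹ ∈ H.A cb := CAB_.cb_mem H (k := 4) (by decide)
  have g5 : H.y ∈ H.A cb := CAB_.cb_mem H (k := 5) (by decide)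
  have la : H.A ca ≤ H.A cab := H.A_mono (Finset.subset_univ _)
  have lb : H.A cb ≤ H.A cab := H.A_mono (Finset.subset_univ _)
  have hL3 : L ∈ H.A cb := Subalgebra.algebraMap_mem _ l
  have w1 : wC L H.z = (i * (i + 1)) ^ 3 * (qq L i)⁻¹ := by
    rw [hB.w_eq, div_eq_mul_inv]
  have w2 : (wC L H.z)⁻¹ = (H.z ^ 3 - 1) * (H.z ^ 3 - L) * H.z⁻¹ ^ 3 := by
    unfold wC
    rw [inv_div, div_eq_mul_inv, inv_pow]
  have m1 : wC L H.z ∈ H.A ca := by
    rw [w1]
    exact mul_mem (pow_mem (mul_mem g0 (add_mem g0 (one_mem _))) 3) g1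
  have m2 : (wC L H.z)⁻¹ ∈ H.A cb := by
    rw [w2]
    exact mul_mem (mul_mem (sub_mem (pow_mem g3 3) (one_mem _)) (sub_mem (pow_mem g3 3) hL3))
      (pow_mem g4 3)
  refine ⟨m1, m2, ?_, ?_⟩
  · apply le_antisymm
    · set T := H.A ca ⊔ Algebra.adjoin K {(wC L H.z)⁻¹} with hT
      have lT : H.A ca ≤ T := le_sup_left
      have hw : (wC L H.z)⁻¹ ∈ T :=
        (le_sup_right : Algebra.adjoin K {(wC L H.z)⁻¹} ≤ T)
          (Algebra.subset_adjoin (Set.mem_singleton _))
      have hii : (i * (i + 1))⁻¹ ∈ T := by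
        have e : (i * (i + 1))⁻¹ = (i * (i + 1)) ^ 2 * (wC L H.z)⁻¹ * (qq L i)⁻¹ := by
          rw [w1]
          field_simp
        rw [e]
        exact mul_mem (mul_mem (pow_mem (lT (mul_mem g0 (add_mem g0 (one_mem _)))) 2) hw) (lT g1)
      have hinv : i⁻¹ ∈ T := by
        have e : i⁻¹ = (i + 1) * (i * (i + 1))⁻¹ := by
          field_simp
        rw [e]
        exact mul_mem (lT (add_mem g0 (one_mem _))) hii
      have hinv1 : (i + 1)⁻¹ ∈ T := by
        have e : (i + 1)⁻¹ = i * (i * (i + 1))⁻¹ := by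
          field_simp
        rw [e]
        exact mul_mem (lT g0) hii
      have hzz : H.z = (i + 1) * i⁻¹ := by
        rw [← div_eq_mul_inv, eq_div_iff hi0, hzq]
      apply CAB_.cab_le
      intro k
      fin_cases k
      · exact lT g0
      · exact lT g1
      · exact lT g2
      · change H.z ∈ T
        have hh : (i + 1) * i⁻¹ ∈ T := mul_mem (lT (add_mem g0 (one_mem _))) hinv
        rw [← hzz] at hh
        exact hh
      · change H.z⁻¹ ∈ T
        have hh : i * (i + 1)⁻¹ ∈ T := mul_mem (lT g0) hinv1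
        have e : i * (i + 1)⁻¹ = H.z⁻¹ := by
          apply eq_inv_of_mul_eq_one_left
          rw [mul_right_comm, mul_comm i, hzq, mul_inv_cancel₀ hi1]
        rw [e] at hh
        exact hh
      · change H.y ∈ T
        have hh : yi H.z H.y * i⁻¹ ^ 4 ∈ T := mul_mem (lT g2) (pow_mem hinv 4)
        have e : yi H.z H.y * i⁻¹ ^ 4 = H.y := by
          change H.y * i ^ 4 * i⁻¹ ^ 4 = H.y
          rw [mul_assoc, ← mul_pow, mul_inv_cancel₀ hi0, one_pow, mul_one]
        rw [e] at hh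
        exact hh
    · refine sup_le la ?_
      rw [Algebra.adjoin_le_iff]
      intro x hx
      rw [Set.mem_singleton_iff] at hx
      rw [hx]
      exact lb m2
  · apply le_antisymm
    · set T := H.A cb ⊔ Algebra.adjoin K {wC L H.z} with hT
      have lT : H.A cb ≤ T := le_sup_left
      have hw : wC L H.z ∈ T :=
        (le_sup_right : Algebra.adjoin K {wC L H.z} ≤ T)
          (Algebra.subset_adjoin (Set.mem_singleton _))
      have hu : ((H.z ^ 3 - 1) * (H.z ^ 3 - L))⁻¹ ∈ T := by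
        have e : ((H.z ^ 3 - 1) * (H.z ^ 3 - L))⁻¹ = wC L H.z * H.z⁻¹ ^ 3 := by
          unfold wC
          field_simp
        rw [e]
        exact mul_mem hw (lT (pow_mem g4 3))
      have hi : i ∈ T := by
        have e : i = (H.z ^ 2 + H.z + 1) * (H.z ^ 3 - L) *
            ((H.z ^ 3 - 1) * (H.z ^ 3 - L))⁻¹ := by
          rw [eq_mul_inv_iff_mul_eq₀ (mul_ne_zero h31 h3l)]
          linear_combination (H.z ^ 2 + H.z + 1) * (H.z ^ 3 - L) * hzi
        rw [e]
        exact mul_mem (lT (mul_mem (add_mem (add_mem (pow_mem g3 2) g3) (one_mem _))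
          (sub_mem (pow_mem g3 3) hL3))) hu
      apply CAB_.cab_le
      intro k
      fin_cases k
      · exact hi
      · change (qq L i)⁻¹ ∈ T
        have e : (qq L i)⁻¹ = (H.z - 1) ^ 6 * ((H.z ^ 3 - 1) * (H.z ^ 3 - L))⁻¹ := by
          rw [hqq, mul_inv, mul_comm]
          congr 1
          rw [inv_eq_iff_eq_inv, ← inv_pow]
          congr 1
        rw [e]
        exact mul_mem (lT (pow_mem (sub_mem g3 (one_mem _)) 6)) hu
      · exact mul_mem (lT g5) (pow_mem hi 4)
      · exact lT g3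
      · exact lT g4
      · exact lT g5
    · refine sup_le lb ?_
      rw [Algebra.adjoin_le_iff]
      intro x hx
      rw [Set.mem_singleton_iff] at hx
      rw [hx]
      exact la m1

end

end Pool.CRD
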