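import Pool.Agent.CRD.Crv.Stmts

/-!
# CRD / Crv, module CBA: the basic relations between the explicit functions
-/

open Polynomial TensorProduct

namespace Pool.CRD

noncomputable section

namespace CBA_

variable {K : Type} [Field K] {l : K} (H : HypF K l)

theorem aeval_ne (p : K[X]) (hp : p ≠ 0) : aeval H.z p ≠ 0 := by
  intro h
  exact hp ((transcendental_iff.1 H.dbl.tr) p h)

end CBA_

theorem cba_proof : Stmt_CBA := by
  intro K _ l H
  have hz : H.z ≠ 0 := by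
    have h := CBA_.aeval_ne H X X_ne_zero
    rwa [aeval_X] at h
  have hz1 : H.z - 1 ≠ 0 := by
    have h := CBA_.aeval_ne H (X - C 1) (X_sub_C_ne_zero 1)
    simpa using h
  have h31 : H.z ^ 3 - 1 ≠ 0 := by
    have h := CBA_.aeval_ne H (X ^ 3 - C 1) (X_pow_sub_C_ne_zero (by norm_num) 1)
    simpa using h
  have h3l : H.z ^ 3 - algebraMap K H.F l ≠ 0 := by
    have h := CBA_.aeval_ne H (X ^ 3 - C l) (X_pow_sub_C_ne_zero (by norm_num) l)
    simpa using h
  set L := algebraMap K H.F l with hL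
  have heq : H.y ^ 2 = H.z * ((H.z ^ 3 - 1) * (H.z ^ 3 - L)) := by
    have h := H.dbl.eqn
    unfold fC at h
    simpa using h
  have hi : zi H.z = (H.z - 1)⁻¹ := rfl
  have hi0 : zi H.z ≠ 0 := inv_ne_zero hz1
  have hzi : zi H.z * (H.z - 1) = 1 := by
    rw [hi, inv_mul_cancel₀ hz1]
  set i := zi H.z with hidef
  have hzq : H.z * i = i + 1 := by linear_combination hzi
  have hi1 : i + 1 ≠ 0 := by
    rw [← hzq]
    exact mul_ne_zero hz hi0
  have hzeq : H.z = (i + 1) / i := by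
    rw [eq_div_iff hi0, hzq]
  have hqa : (H.z ^ 3 - 1) * i ^ 3 = qa i := by
    unfold qa
    linear_combination (H.z ^ 2 * i ^ 2 + H.z * i * (i + 1) + (i + 1) ^ 2) * hzq
  have hqb : (H.z ^ 3 - L) * i ^ 3 = qb L i := by
    unfold qb
    linear_combination (H.z ^ 2 * i ^ 2 + H.z * i * (i + 1) + (i + 1) ^ 2) * hzq
  have hqq : qq L i = (H.z ^ 3 - 1) * (H.z ^ 3 - L) * i ^ 6 := by
    unfold qq
    rw [← hqa, ← hqb]
    ring
  have hq0 : qq L i ≠ 0 := by
    rw [hqq]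
    exact mul_ne_zero (mul_ne_zero h31 h3l) (pow_ne_zero 6 hi0)
  refine ⟨hz, hz1, h31, h3l, ?_, hq0, hi0, hi1, heq, ?_, hzeq, ?_, ?_, ?_⟩
  · intro hy
    rw [hy] at heq
    exact mul_ne_zero hz (mul_ne_zero h31 h3l) (by rw [← heq]; ring)
  · have h1 : yi H.z H.y = H.y * i ^ 4 := rfl
    rw [h1, hqq]
    linear_combination i ^ 8 * heq + i ^ 7 * (H.z ^ 3 - 1) * (H.z ^ 3 - L) * hzq
  · rw [eq_div_iff (pow_ne_zero 3 hi0), hqa]
  · rw [eq_div_iff (pow_ne_zero 3 hi0), hqb]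
  · unfold wC
    rw [div_eq_div_iff (mul_ne_zero h31 h3l) hq0, hqq]
    have h2 : H.z ^ 3 * i ^ 3 = (i + 1) ^ 3 := by
      rw [← mul_pow, hzq]
    linear_combination i ^ 3 * (H.z ^ 3 - 1) * (H.z ^ 3 - L) * h2

end

end Pool.CRD
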