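import Pool.Agent.CRD.Crv.Stmts

/-!
# CRD, area CRV, module CDE: the charts are Dedekind domains
-/

set_option autoImplicit false

open Polynomial TensorProduct

namespace Pool.CRD

namespace CDE_

theorem cases_cov (s : Cov Bool) : s = ca ∨ s = cb ∨ s = cab := by
  by_cases h1 : true ∈ s.s
  · by_cases h2 : false ∈ s.s
    · right; right
      apply Cov.ext'
      ext b
      cases b <;> simp [cab, h1, h2]
    · right; left
      apply Cov.ext'
      ext b
      cases b <;> simp [cb, Cov.one, h1, h2]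
  · left
    obtain ⟨b, hb⟩ := s.ne
    have h2 : false ∈ s.s := by
      cases b
      · exact hb
      · exact absurd hb h1
    apply Cov.ext'
    ext b
    cases b <;> simp [ca, Cov.one, h1, h2]

theorem AC_cb (K F : Type) [Field K] [Field F] [Algebra K F] (l z y : F) :
    AC K l z y cb = Algebra.adjoin K {z, y} ⊔ Algebra.adjoin K {z⁻¹} := by
  unfold AC
  rw [← Algebra.adjoin_union]
  apply congrArg
  ext x
  constructor
  · rintro ⟨k, hk, rfl⟩
    have hk3 : 3 ≤ k := by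
      rcases hk with ⟨hk, -⟩ | ⟨-, hk⟩
      · simp [cb, Cov.one] at hk
      · exact hk
    fin_cases k
    rotate_left 3
    · exact Or.inl (Or.inl rfl)
    · exact Or.inr rfl
    · exact Or.inl (Or.inr rfl)
    all_goals exact absurd hk3 (by decide)
  · have hm : ∀ k : Fin 6, 3 ≤ k → gC l z y k ∈ gC l z y '' ixC cb :=
      fun k hk => ⟨k, Or.inr ⟨by simp [cb, Cov.one], hk⟩, rfl⟩
    rintro ((rfl | rfl) | rfl)
    · exact hm 3 (by decide)
    · exact hm 5 (by decide)
    · exact hm 4 (by decide)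

theorem AC_ca (K F : Type) [Field K] [Field F] [Algebra K F] (l z y : F) :
    AC K l z y ca = Algebra.adjoin K {zi z, yi z y} ⊔ Algebra.adjoin K {(qq l (zi z))⁻¹} := by
  unfold AC
  rw [← Algebra.adjoin_union]
  apply congrArg
  ext x
  constructor
  · rintro ⟨k, hk, rfl⟩
    have hk3 : k < 3 := by
      rcases hk with ⟨-, hk⟩ | ⟨hk, -⟩
      · exact hk
      · simp [ca, Cov.one] at hk
    fin_cases k
    · exact Or.inl (Or.inl rfl)
    · exact Or.inr rfl
    · exact Or.inl (Or.inr rfl)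
    all_goals exact absurd hk3 (by decide)
  · have hm : ∀ k : Fin 6, k < 3 → gC l z y k ∈ gC l z y '' ixC ca :=
      fun k hk => ⟨k, Or.inl ⟨by simp [ca, Cov.one], hk⟩, rfl⟩
    rintro ((rfl | rfl) | rfl)
    · exact hm 0 (by decide)
    · exact hm 2 (by decide)
    · exact hm 1 (by decide)

theorem qq_mem {K F : Type} [Field K] [Field F] [Algebra K F] (S : Subalgebra K F) (l : K)
    {t : F} (ht : t ∈ S) : qq (algebraMap K F l) t ∈ S := by
  have hn : ∀ n : ℕ, ((n : ℕ) : F) ∈ S := fun n => S.natCast_mem n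
  have h1 : qq (algebraMap K F l) t = (((3 : ℕ) : F) * t ^ 2 + ((3 : ℕ) : F) * t + 1) *
      ((1 - algebraMap K F l) * t ^ 3 + ((3 : ℕ) : F) * t ^ 2 + ((3 : ℕ) : F) * t + 1) := by
    unfold qq qa qb
    push_cast
    ring
  rw [h1]
  have hp : ∀ n : ℕ, t ^ n ∈ S := fun n => S.pow_mem ht n
  exact S.mul_mem
    (S.add_mem (S.add_mem (S.mul_mem (hn _) (hp _)) (S.mul_mem (hn _) ht)) S.one_mem)
    (S.add_mem (S.add_mem (S.add_mem (S.mul_mem (S.sub_mem S.one_mem (S.algebraMap_mem l)) (hp _))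
      (S.mul_mem (hn _) (hp _))) (S.mul_mem (hn _) ht)) S.one_mem)

end CDE_

open CDE_ in
theorem cde_proof (hCBA : Stmt_CBA) (hDMO : Stmt_DMO) (hCAB : Stmt_CAB) (hSQF : Stmt_SQF)
    (hDDK : Stmt_DDK) (hDLO : Stmt_DLO) : Stmt_CDE := by
  intro K _ l H hl s
  have h2 : (2 : K) ≠ 0 := hl.two.ne_zero
  have hb := hCBA K l H
  obtain ⟨s1, s2⟩ := hSQF K l hl
  have hcb : IsDedekindDomain (H.A cb) := by
    have h1 := hDDK K (fC l) H.F H.z H.y H.dbl s1 h2
    have h3 := hDLO K H.F (Algebra.adjoin K {H.z, H.y}) H.z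
      (Algebra.subset_adjoin (Or.inl rfl)) hb.z0 h1
    have h4 : H.A cb = Algebra.adjoin K {H.z, H.y} ⊔ Algebra.adjoin K {H.z⁻¹} := AC_cb _ _ _ _ _
    rw [h4]
    exact h3
  rcases cases_cov s with rfl | rfl | rfl
  · have h1 := hDDK K (fA l) H.F (zi H.z) (yi H.z H.y) (hDMO K l H) s2 h2
    have h3 := hDLO K H.F (Algebra.adjoin K {zi H.z, yi H.z H.y}) (qq (algebraMap K H.F l) (zi H.z))
      (qq_mem _ l (Algebra.subset_adjoin (Or.inl rfl))) hb.q0 h1
    have h4 : H.A ca = Algebra.adjoin K {zi H.z, yi H.z H.y} ⊔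
        Algebra.adjoin K {(qq (algebraMap K H.F l) (zi H.z))⁻¹} := AC_ca _ _ _ _ _
    rw [h4]
    exact h3
  · exact hcb
  · obtain ⟨-, a2, -, a4⟩ := hCAB K l H hl
    have hw : wC (algebraMap K H.F l) H.z ≠ 0 := by
      unfold wC
      exact div_ne_zero (pow_ne_zero _ hb.z0) (mul_ne_zero hb.z31 hb.z3l)
    have h3 := hDLO K H.F (H.A cb) (wC (algebraMap K H.F l) H.z)⁻¹ a2 (inv_ne_zero hw) hcb
    rw [inv_inv] at h3
    rw [a4]
    exact h3

end Pool.CRD
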