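import Pool.Agent.CRD.Crv.Stmts

/-!
# CRD, area CRV, module CET: the generators `T` of the charts of the curve
-/

set_option autoImplicit false

open Polynomial TensorProduct

namespace Pool.CRD

namespace CET_

section fld
variable {F : Type} [Field F] {l z y : F}

theorem i_z (h : BasC F l z y) : zi z + 1 = z * zi z := by
  have := h.z_eq
  have h0 := h.i0
  field_simp at this
  rw [this]

theorem winv (h : BasC F l z y) : (wC l z)⁻¹ = qq l (zi z) * (z⁻¹) ^ 3 * (z - 1) ^ 6 := by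
  rw [h.w_eq, i_z h]
  have h4 := h.z0
  have h1 := h.z1
  have h5 := h.q0
  have h6 : zi z = (z - 1)⁻¹ := rfl
  generalize qq l (zi z) = q at *
  rw [h6]
  field_simp

theorem iz1 (h : BasC F l z y) : zi z * (z - 1) = 1 := by
  have h1 := h.z1
  have h6 : zi z = (z - 1)⁻¹ := rfl
  rw [h6]
  field_simp

theorem ew (h : BasC F l z y) (k m : ℕ) (hkm : k + m = 6) :
    zi z ^ k * (qq l (zi z))⁻¹ * (wC l z)⁻¹ = (z - 1) ^ m * (z⁻¹) ^ 3 := by
  rw [winv h]
  have h5 := h.q0
  have h6 : zi z ^ k * (z - 1) ^ 6 = (z - 1) ^ m := by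
    rw [← hkm, pow_add, ← mul_assoc, ← mul_pow, iz1 h, one_pow, one_mul]
  calc zi z ^ k * (qq l (zi z))⁻¹ * (qq l (zi z) * (z⁻¹) ^ 3 * (z - 1) ^ 6)
      = (zi z ^ k * (z - 1) ^ 6) * (z⁻¹) ^ 3 * ((qq l (zi z))⁻¹ * qq l (zi z)) := by ring
    _ = _ := by rw [h6, inv_mul_cancel₀ h5, mul_one]

theorem fw (h : BasC F l z y) (k m : ℕ) (hkm : k + m = 2) :
    yi z y * zi z ^ k * (qq l (zi z))⁻¹ * (wC l z)⁻¹ = y * (z - 1) ^ m * (z⁻¹) ^ 3 := by
  have h1 := ew h (k + 4) m (by omega)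
  calc yi z y * zi z ^ k * (qq l (zi z))⁻¹ * (wC l z)⁻¹
      = y * (zi z ^ (k + 4) * (qq l (zi z))⁻¹ * (wC l z)⁻¹) := by
        unfold yi
        ring
    _ = _ := by rw [h1]; ring

end fld

end CET_

open CET_ in
theorem cet_proof : Stmt_CET := by
  classical
  intro B F _ _ _ l z y _ h
  have hL : ∀ S : Subalgebra B F, algebraMap B F l ∈ S := fun S => S.algebraMap_mem l
  generalize algebraMap B F l = L at h hL
  have h5 := h.q0
  let T : Finset F := {1, wC L z} ∪ (Finset.range 7).image (fun k => zi z ^ k * (qq L (zi z))⁻¹) ∪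
    (Finset.range 3).image (fun k => yi z y * zi z ^ k * (qq L (zi z))⁻¹)
  have hT : ∀ t, t ∈ T ↔ (t = 1 ∨ t = wC L z) ∨ (∃ k < 7, zi z ^ k * (qq L (zi z))⁻¹ = t) ∨
      ∃ k < 3, yi z y * zi z ^ k * (qq L (zi z))⁻¹ = t := by
    intro t
    simp only [T, Finset.mem_union, Finset.mem_insert, Finset.mem_singleton, Finset.mem_image,
      Finset.mem_range, or_assoc]
  refine ⟨T, (hT 1).2 (Or.inl (Or.inl rfl)), (hT _).2 (Or.inl (Or.inr rfl)), ?_, ?_⟩
  · apply le_antisymm
    · -- generators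
      have e1 : ∀ k < 7, zi z ^ k * (qq L (zi z))⁻¹ ∈ Algebra.adjoin B (T : Set F) :=
        fun k hk => Algebra.subset_adjoin ((hT _).2 (Or.inr (Or.inl ⟨k, hk, rfl⟩)))
      have e2 : ∀ k < 3, yi z y * zi z ^ k * (qq L (zi z))⁻¹ ∈ Algebra.adjoin B (T : Set F) :=
        fun k hk => Algebra.subset_adjoin ((hT _).2 (Or.inr (Or.inr ⟨k, hk, rfl⟩)))
      have hn : ∀ n : ℕ, ((n : ℕ) : F) ∈ Algebra.adjoin B (T : Set F) :=
        fun n => Subalgebra.natCast_mem _ n
      have hl1 : (1 - L) ∈ Algebra.adjoin B (T : Set F) :=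
        Subalgebra.sub_mem _ (Subalgebra.one_mem _) (hL _)
      have hI : zi z ∈ Algebra.adjoin B (T : Set F) := by
        have h1 : zi z = ((3 : ℕ) : F) * (1 - L) * (zi z ^ 6 * (qq L (zi z))⁻¹) +
            (((9 : ℕ) : F) + ((3 : ℕ) : F) * (1 - L)) * (zi z ^ 5 * (qq L (zi z))⁻¹) +
            (((18 : ℕ) : F) + (1 - L)) * (zi z ^ 4 * (qq L (zi z))⁻¹) +
            ((15 : ℕ) : F) * (zi z ^ 3 * (qq L (zi z))⁻¹) +
            ((6 : ℕ) : F) * (zi z ^ 2 * (qq L (zi z))⁻¹) +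
            (zi z ^ 1 * (qq L (zi z))⁻¹) := by
          have h2 : zi z = zi z * qq L (zi z) * (qq L (zi z))⁻¹ := by
            rw [mul_assoc, mul_inv_cancel₀ h5, mul_one]
          conv_lhs => rw [h2]
          generalize (qq L (zi z))⁻¹ = q
          unfold qq qa qb
          push_cast
          ring
        rw [h1]
        refine Subalgebra.add_mem _ (Subalgebra.add_mem _ (Subalgebra.add_mem _
          (Subalgebra.add_mem _ (Subalgebra.add_mem _ ?_ ?_) ?_) ?_) ?_) (e1 1 (by norm_num))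
        · exact Subalgebra.mul_mem _ (Subalgebra.mul_mem _ (hn _) hl1) (e1 6 (by norm_num))
        · exact Subalgebra.mul_mem _ (Subalgebra.add_mem _ (hn _)
            (Subalgebra.mul_mem _ (hn _) hl1)) (e1 5 (by norm_num))
        · exact Subalgebra.mul_mem _ (Subalgebra.add_mem _ (hn _) hl1) (e1 4 (by norm_num))
        · exact Subalgebra.mul_mem _ (hn _) (e1 3 (by norm_num))
        · exact Subalgebra.mul_mem _ (hn _) (e1 2 (by norm_num))
      have hq : (qq L (zi z))⁻¹ ∈ Algebra.adjoin B (T : Set F) := by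
        have := e1 0 (by norm_num)
        rwa [pow_zero, one_mul] at this
      have hqq : qq L (zi z) ∈ Algebra.adjoin B (T : Set F) := by
        have h1 : qq L (zi z) = (((3 : ℕ) : F) * zi z ^ 2 + ((3 : ℕ) : F) * zi z + 1) *
            ((1 - L) * zi z ^ 3 + ((3 : ℕ) : F) * zi z ^ 2 + ((3 : ℕ) : F) * zi z + 1) := by
          unfold qq qa qb
          push_cast
          ring
        rw [h1]
        have hp : ∀ n : ℕ, zi z ^ n ∈ Algebra.adjoin B (T : Set F) :=
          fun n => Subalgebra.pow_mem _ hI n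
        exact Subalgebra.mul_mem _
          (Subalgebra.add_mem _ (Subalgebra.add_mem _ (Subalgebra.mul_mem _ (hn _) (hp _))
            (Subalgebra.mul_mem _ (hn _) hI)) (Subalgebra.one_mem _))
          (Subalgebra.add_mem _ (Subalgebra.add_mem _ (Subalgebra.add_mem _
            (Subalgebra.mul_mem _ hl1 (hp _)) (Subalgebra.mul_mem _ (hn _) (hp _)))
            (Subalgebra.mul_mem _ (hn _) hI)) (Subalgebra.one_mem _))
      have hY : yi z y ∈ Algebra.adjoin B (T : Set F) := by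
        have h1 : yi z y = yi z y * zi z ^ 0 * (qq L (zi z))⁻¹ * qq L (zi z) := by
          rw [mul_assoc, inv_mul_cancel₀ h5, mul_one, pow_zero, mul_one]
        rw [h1]
        exact Subalgebra.mul_mem _ (e2 0 (by norm_num)) hqq
      unfold AC
      apply Algebra.adjoin_le
      rintro _ ⟨k, hk, rfl⟩
      have hk3 : k < 3 := by
        rcases hk with ⟨-, hk⟩ | ⟨hk, -⟩
        · exact hk
        · simp [ca, Cov.one] at hk
      fin_cases k
      · exact hI
      · exact hq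
      · exact hY
      all_goals exact absurd hk3 (by decide)
    · have gen : ∀ k : Fin 6, k < 3 → gC L z y k ∈ AC B L z y ca :=
        fun k hk => Algebra.subset_adjoin ⟨k, Or.inl ⟨by simp [ca, Cov.one], hk⟩, rfl⟩
      have hI : zi z ∈ AC B L z y ca := gen 0 (by decide)
      have hq : (qq L (zi z))⁻¹ ∈ AC B L z y ca := gen 1 (by decide)
      have hY : yi z y ∈ AC B L z y ca := gen 2 (by decide)
      apply Algebra.adjoin_le
      intro t ht
      rcases (hT t).1 ht with (rfl | rfl) | ⟨k, -, rfl⟩ | ⟨k, -, rfl⟩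
      · exact Subalgebra.one_mem _
      · show wC L z ∈ AC B L z y ca
        rw [h.w_eq, div_eq_mul_inv]
        exact Subalgebra.mul_mem _ (Subalgebra.pow_mem _ (Subalgebra.mul_mem _ hI
          (Subalgebra.add_mem _ hI (Subalgebra.one_mem _))) 3) hq
      · exact Subalgebra.mul_mem _ (Subalgebra.pow_mem _ hI k) hq
      · exact Subalgebra.mul_mem _ (Subalgebra.mul_mem _ hY (Subalgebra.pow_mem _ hI k)) hq
  · apply le_antisymm
    · have e1 : ∀ m ≤ 6, (z - 1) ^ m * (z⁻¹) ^ 3 ∈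
          Algebra.adjoin B ((fun t => t * (wC L z)⁻¹) '' (T : Set F)) := by
        intro m hm
        refine Algebra.subset_adjoin ⟨zi z ^ (6 - m) * (qq L (zi z))⁻¹,
          (hT _).2 (Or.inr (Or.inl ⟨6 - m, by omega, rfl⟩)), ?_⟩
        exact ew h (6 - m) m (by omega)
      have e2 : ∀ m ≤ 2, y * (z - 1) ^ m * (z⁻¹) ^ 3 ∈
          Algebra.adjoin B ((fun t => t * (wC L z)⁻¹) '' (T : Set F)) := by
        intro m hm
        refine Algebra.subset_adjoin ⟨yi z y * zi z ^ (2 - m) * (qq L (zi z))⁻¹,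
          (hT _).2 (Or.inr (Or.inr ⟨2 - m, by omega, rfl⟩)), ?_⟩
        exact fw h (2 - m) m (by omega)
      have hn : ∀ n : ℕ, ((n : ℕ) : F) ∈
          Algebra.adjoin B ((fun t => t * (wC L z)⁻¹) '' (T : Set F)) :=
        fun n => Subalgebra.natCast_mem _ n
      have hz := h.z0
      have hZ : z ∈ Algebra.adjoin B ((fun t => t * (wC L z)⁻¹) '' (T : Set F)) := by
        have h1 : z = ((z - 1) ^ 4 * (z⁻¹) ^ 3) + ((4 : ℕ) : F) * ((z - 1) ^ 3 * (z⁻¹) ^ 3) +
            ((6 : ℕ) : F) * ((z - 1) ^ 2 * (z⁻¹) ^ 3) +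
            ((4 : ℕ) : F) * ((z - 1) ^ 1 * (z⁻¹) ^ 3) + ((z - 1) ^ 0 * (z⁻¹) ^ 3) := by
          field_simp
          push_cast
          ring
        have h2 : ((z - 1) ^ 4 * (z⁻¹) ^ 3) + ((4 : ℕ) : F) * ((z - 1) ^ 3 * (z⁻¹) ^ 3) +
            ((6 : ℕ) : F) * ((z - 1) ^ 2 * (z⁻¹) ^ 3) +
            ((4 : ℕ) : F) * ((z - 1) ^ 1 * (z⁻¹) ^ 3) + ((z - 1) ^ 0 * (z⁻¹) ^ 3) ∈
            Algebra.adjoin B ((fun t => t * (wC L z)⁻¹) '' (T : Set F)) :=
          Subalgebra.add_mem _ (Subalgebra.add_mem _ (Subalgebra.add_mem _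
            (Subalgebra.add_mem _ (e1 4 (by norm_num))
              (Subalgebra.mul_mem _ (hn _) (e1 3 (by norm_num))))
              (Subalgebra.mul_mem _ (hn _) (e1 2 (by norm_num))))
              (Subalgebra.mul_mem _ (hn _) (e1 1 (by norm_num)))) (e1 0 (by norm_num))
        rwa [← h1] at h2
      have hZi : z⁻¹ ∈ Algebra.adjoin B ((fun t => t * (wC L z)⁻¹) '' (T : Set F)) := by
        have h1 : z⁻¹ = ((z - 1) ^ 2 * (z⁻¹) ^ 3) +
            ((2 : ℕ) : F) * ((z - 1) ^ 1 * (z⁻¹) ^ 3) + ((z - 1) ^ 0 * (z⁻¹) ^ 3) := by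
          field_simp
          push_cast
          ring
        have h2 : ((z - 1) ^ 2 * (z⁻¹) ^ 3) +
            ((2 : ℕ) : F) * ((z - 1) ^ 1 * (z⁻¹) ^ 3) + ((z - 1) ^ 0 * (z⁻¹) ^ 3) ∈
            Algebra.adjoin B ((fun t => t * (wC L z)⁻¹) '' (T : Set F)) :=
          Subalgebra.add_mem _ (Subalgebra.add_mem _ (e1 2 (by norm_num))
              (Subalgebra.mul_mem _ (hn _) (e1 1 (by norm_num)))) (e1 0 (by norm_num))
        rwa [← h1] at h2
      have hY : y ∈ Algebra.adjoin B ((fun t => t * (wC L z)⁻¹) '' (T : Set F)) := by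
        have h1 : y = z ^ 3 * (y * (z - 1) ^ 0 * (z⁻¹) ^ 3) := by
          field_simp
        have h2 : z ^ 3 * (y * (z - 1) ^ 0 * (z⁻¹) ^ 3) ∈
            Algebra.adjoin B ((fun t => t * (wC L z)⁻¹) '' (T : Set F)) :=
          Subalgebra.mul_mem _ (Subalgebra.pow_mem _ hZ 3) (e2 0 (by norm_num))
        rwa [← h1] at h2
      unfold AC
      apply Algebra.adjoin_le
      rintro _ ⟨k, hk, rfl⟩
      have hk3 : 3 ≤ k := by
        rcases hk with ⟨hk, -⟩ | ⟨-, hk⟩
        · simp [cb, Cov.one] at hk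
        · exact hk
      fin_cases k
      rotate_left 3
      · exact hZ
      · exact hZi
      · exact hY
      all_goals exact absurd hk3 (by decide)
    · have gen : ∀ k : Fin 6, 3 ≤ k → gC L z y k ∈ AC B L z y cb :=
        fun k hk => Algebra.subset_adjoin ⟨k, Or.inr ⟨by simp [cb, Cov.one], hk⟩, rfl⟩
      have hZ : z ∈ AC B L z y cb := gen 3 (by decide)
      have hZi : z⁻¹ ∈ AC B L z y cb := gen 4 (by decide)
      have hY : y ∈ AC B L z y cb := gen 5 (by decide)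
      have hz1 : z - 1 ∈ AC B L z y cb := Subalgebra.sub_mem _ hZ (Subalgebra.one_mem _)
      apply Algebra.adjoin_le
      rintro _ ⟨t, ht, rfl⟩
      rcases (hT t).1 ht with (rfl | rfl) | ⟨k, hk, rfl⟩ | ⟨k, hk, rfl⟩
      · show 1 * (wC L z)⁻¹ ∈ AC B L z y cb
        have h1 : 1 * (wC L z)⁻¹ = (z ^ 3 - 1) * (z ^ 3 - L) * (z⁻¹) ^ 3 := by
          unfold wC
          rw [one_mul, inv_div, inv_pow, div_eq_mul_inv]
        rw [h1]
        exact Subalgebra.mul_mem _ (Subalgebra.mul_mem _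
          (Subalgebra.sub_mem _ (Subalgebra.pow_mem _ hZ 3) (Subalgebra.one_mem _))
          (Subalgebra.sub_mem _ (Subalgebra.pow_mem _ hZ 3) (hL _))) (Subalgebra.pow_mem _ hZi 3)
      · show wC L z * (wC L z)⁻¹ ∈ AC B L z y cb
        have hw : wC L z ≠ 0 := by
          unfold wC
          exact div_ne_zero (pow_ne_zero _ h.z0) (mul_ne_zero h.z31 h.z3l)
        rw [mul_inv_cancel₀ hw]
        exact Subalgebra.one_mem _
      · show zi z ^ k * (qq L (zi z))⁻¹ * (wC L z)⁻¹ ∈ AC B L z y cb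
        rw [ew h k (6 - k) (by omega)]
        exact Subalgebra.mul_mem _ (Subalgebra.pow_mem _ hz1 _) (Subalgebra.pow_mem _ hZi 3)
      · show yi z y * zi z ^ k * (qq L (zi z))⁻¹ * (wC L z)⁻¹ ∈ AC B L z y cb
        rw [fw h k (2 - k) (by omega)]
        exact Subalgebra.mul_mem _ (Subalgebra.mul_mem _ hY (Subalgebra.pow_mem _ hz1 _))
          (Subalgebra.pow_mem _ hZi 3)

end Pool.CRD
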