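import Pool.Agent.CRD.Crv.Stmts

/-!
# CRD, curves: existence of the function field of the conic
-/

set_option autoImplicit false

open Polynomial

namespace Pool.CRD

noncomputable section

namespace CEX_

theorem poly_facts {L : Type} [Field L] [CharZero L] (x₁ x₂ : L) (h₁ : x₁ ≠ 0) (h₂ : x₂ ≠ 0) :
    Squarefree (C x₂⁻¹ * (1 - C x₁ * X ^ 2) : L[X]) ∧
      0 < (C x₂⁻¹ * (1 - C x₁ * X ^ 2) : L[X]).natDegree := by
  constructor
  · apply Polynomial.Separable.squarefree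
    have hd : derivative (C x₂⁻¹ * (1 - C x₁ * X ^ 2) : L[X]) = C x₂⁻¹ * (-(C x₁ * (C 2 * X))) := by
      rw [derivative_C_mul, derivative_sub, derivative_one, derivative_C_mul, derivative_X_pow]
      simp
    have h3 : (C x₂ : L[X]) * C x₂⁻¹ = 1 := by
      rw [← C_mul, mul_inv_cancel₀ h₂, C_1]
    have h4 : (C (2⁻¹ : L) : L[X]) * C 2 = 1 := by
      rw [← C_mul, inv_mul_cancel₀ two_ne_zero, C_1]
    refine ⟨C x₂, -(C x₂ * C 2⁻¹ * X), ?_⟩
    rw [hd]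
    linear_combination (1 - C x₁ * X ^ 2 + C (2⁻¹ : L) * C 2 * C x₁ * X ^ 2) * h3 +
      C x₁ * X ^ 2 * h4
  · have hc : (C x₂⁻¹ * (1 - C x₁ * X ^ 2) : L[X]).coeff 2 = x₂⁻¹ * -x₁ := by
      rw [coeff_C_mul, coeff_sub, coeff_one, coeff_C_mul, coeff_X_pow]
      simp
    have hne : (C x₂⁻¹ * (1 - C x₁ * X ^ 2) : L[X]).coeff 2 ≠ 0 := by
      rw [hc]
      exact mul_ne_zero (inv_ne_zero h₂) (neg_ne_zero.2 h₁)
    have := Polynomial.le_natDegree_of_ne_zero hne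
    omega

end CEX_

open CEX_ in
theorem cex_proof (hDEX : Stmt_DEX) (hNSS : Stmt_NSS) : Stmt_CEX := by
  intro K _ _ c₁ c₂ S
  haveI : CharZero S.L := charZero_of_injective_algebraMap (algebraMap K S.L).injective
  have h1 : S.x₁ ≠ 0 := by
    intro h
    exact c₁.x_ne ((map_eq_zero_iff S.e₁ S.e₁.toRingHom.injective).1 h)
  have h2 : S.x₂ ≠ 0 := by
    intro h
    exact c₂.x_ne ((map_eq_zero_iff S.e₂ S.e₂.toRingHom.injective).1 h)
  obtain ⟨hs, hd⟩ := poly_facts S.x₁ S.x₂ h1 h2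
  obtain ⟨D⟩ := hDEX S.L _ (hNSS S.L _ hs hd)
  letI : Algebra K D.F := ((algebraMap S.L D.F).comp (algebraMap K S.L)).toAlgebra
  haveI : IsScalarTower K S.L D.F := IsScalarTower.of_algebraMap_eq fun _ => rfl
  refine ⟨{ E := D.F, η := D.z, ζ := D.y, tr := D.dbl.tr, eqn := ?_, indep := ?_, gen := ?_ }⟩
  · have he := D.dbl.eqn
    rw [map_mul, aeval_C, map_sub, map_one, map_mul, aeval_C, map_pow, aeval_X] at he
    have h3 : algebraMap S.L D.F S.x₂ * algebraMap S.L D.F S.x₂⁻¹ = 1 := by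
      rw [← map_mul, mul_inv_cancel₀ h2, map_one]
    rw [he]
    linear_combination (1 - algebraMap S.L D.F S.x₁ * D.z ^ 2) * h3
  · intro a b hab
    have := D.dbl.indep a a.2 b b.2 hab
    exact ⟨Subtype.ext this.1, Subtype.ext this.2⟩
  · intro z
    obtain ⟨a, ha, b, hb, h⟩ := D.dbl.gen z
    exact ⟨⟨a, ha⟩, ⟨b, hb⟩, h⟩

end

end Pool.CRD
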