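import Pool.Agent.CRD.Crv.Stmts

/-!
# CRD, area CRV, module CFM: the explicit family of curves
-/

set_option autoImplicit false

open Polynomial TensorProduct

namespace Pool.CRD

namespace CFM_

theorem cases_cov (s : Cov Bool) : s = ca ∨ s = cb ∨ s = cab := by
  by_cases h1 : true ∈ s.s
  · by_cases h2 : false ∈ s.s
    · right; right
      apply Cov.ext'
      ext b
      cases b <;> simp [cab, h1, h2]
    · right; left
      apply Cov.ext'
      ext b
      cases b <;> simp [cb, Cov.one, h1, h2]
  · left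
    obtain ⟨b, hb⟩ := s.ne
    have h2 : false ∈ s.s := by
      cases b
      · exact hb
      · exact absurd hb h1
    apply Cov.ext'
    ext b
    cases b <;> simp [ca, Cov.one, h1, h2]

theorem ixC_ab : ixC cab = ixC ca ∪ ixC cb := by
  ext k
  simp only [ixC, cab, ca, cb, Cov.one, Finset.mem_univ, Finset.mem_singleton, true_and,
    Set.mem_union, Set.mem_setOf_eq]
  simp

theorem AC_ab (B E : Type) [CommRing B] [CommRing E] [Inv E] [Algebra B E] (l z y : E) :
    AC B l z y cab = AC B l z y ca ⊔ AC B l z y cb := by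
  unfold AC
  rw [ixC_ab, Set.image_union, Algebra.adjoin_union]

end CFM_

open CFM_ in
theorem cfm_proof (hCBA : Stmt_CBA) (hCHP : Stmt_CHP) (hACF : Stmt_ACF) (hCPD : Stmt_CPD)
    (hGCA : Stmt_GCA) (hGCB : Stmt_GCB) (hGCC : Stmt_GCC) : Stmt_CFM := by
  intro B K' K'' _ _ _ _ _ l hl hinj H' H'' _ _ _ _ p' p''
  have e' : algebraMap K' H'.F (algebraMap B K' l) = algebraMap B H'.F l :=
    (IsScalarTower.algebraMap_apply B K' H'.F l).symm
  have e'' : algebraMap K'' H''.F (algebraMap B K'' l) = algebraMap B H''.F l :=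
    (IsScalarTower.algebraMap_apply B K'' H''.F l).symm
  have hb' : BasC H'.F (algebraMap B H'.F l) H'.z H'.y := e' ▸ hCBA K' _ H'
  have hb'' : BasC H''.F (algebraMap B H''.F l) H''.z H''.y := e'' ▸ hCBA K'' _ H''
  obtain ⟨c1, c2, -, -⟩ := hCHP B H'.F H''.F l H'.z H'.y H''.z H''.y hl hb' hb''
  have hp := hCPD B H'.F l H'.z H'.y hl hb'
  exact {
    good := by
      intro s
      rcases cases_cov s with rfl | rfl | rfl
      · exact hGCA B K' K'' l hl hinj H' H''
      · exact hGCB B K' K'' l hl hinj H' H''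
      · exact hGCC B K' K'' l hl hinj H' H''
    ab := AC_ab B _ _ _ _
    u_mem := fun s => (c1 s).1
    uinv_mem := fun s => (c1 s).2
    h_div := fun hVU => c2 hVU
    pcur := by
      have h1 : (fun s => (AC B (algebraMap B (H'.F × H''.F) l) (H'.z, H''.z) (H'.y, H''.y) s).map
          (AlgHom.fst B H'.F H''.F)) = AC B (algebraMap B H'.F l) H'.z H'.y := by
        funext s
        exact (hACF B H'.F H''.F l H'.z H'.y H''.z H''.y s).1
      have h2 : wC (algebraMap K' H'.F (algebraMap B K' l)) H'.z =
          wC (algebraMap B H'.F l) H'.z := by rw [e']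
      show PCur (fun s => (AC B (algebraMap B (H'.F × H''.F) l) (H'.z, H''.z) (H'.y, H''.y) s).map
          (AlgHom.fst B H'.F H''.F)) (wC (algebraMap K' H'.F (algebraMap B K' l)) H'.z) H'.z
          (hC H'.z H'.y)
      rw [h1, h2]
      exact hp }

end Pool.CRD
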