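import Pool.Agent.CRD.Crv.Stmts

/-!
# CRD / Crv, module CG1: the genus is at least three
-/

open Polynomial TensorProduct

namespace Pool.CRD

noncomputable section

theorem cg1_proof (hCG2 : Stmt_CG2) (hCG3 : Stmt_CG3) : Stmt_CG1 := by
  intro K _ l H p hl
  have hfin := hCG2 K l H p hl
  obtain ⟨v, hv⟩ := hCG3 K l H p hl
  have h := hv.fintype_card_le_finrank
  simpa using h

end

end Pool.CRD
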