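import Pool.Agent.CRD.Crv.Stmts

/-!
# CRD / Crv, module CG2: `H^1` of a curve with two charts is finite dimensional
-/

open Polynomial TensorProduct

namespace Pool.CRD

noncomputable section

namespace CG2_

section Abs

variable {L V : Type} [Field L] [AddCommGroup V] [Module L V]

/-- the span of the forward orbit of `S` -/
def orb (t : Module.End L V) (S : Set V) : Submodule L V :=
  Submodule.span L {v | ∃ s ∈ S, ∃ k : ℕ, v = (t ^ k) s}

theorem orb_stable (t : Module.End L V) (S : Set V) (v : V) (hv : v ∈ orb t S) :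
    t v ∈ orb t S := by
  have h : orb t S ≤ (orb t S).comap t := by
    unfold orb
    rw [Submodule.span_le]
    rintro _ ⟨s, hs, k, rfl⟩
    apply Submodule.subset_span
    exact ⟨s, hs, k + 1, by rw [pow_succ']; rfl⟩
  exact h hv

theorem pow_stable (t : Module.End L V) (W : Submodule L V) (hW : ∀ v ∈ W, t v ∈ W) (k : ℕ) :
    ∀ v ∈ W, (t ^ k) v ∈ W := by
  induction k with
  | zero => intro v hv; exact hv
  | succ k ih =>
    intro v hv
    rw [pow_succ']
    exact hW _ (ih v hv)

variable (τ : ℤ → V →ₗ[L] V) (h0 : ∀ v, τ 0 v = v) (hadd : ∀ m n v, τ (m + n) v = τ m (τ n v))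

include h0 hadd in
theorem pow_tau (k : ℕ) (v : V) : ((τ 1 : Module.End L V) ^ k) v = τ k v := by
  induction k with
  | zero => simp [h0]
  | succ k ih =>
    rw [pow_succ']
    change τ 1 ((τ 1 ^ k) v) = _
    rw [ih, ← hadd]
    congr 2
    push_cast
    ring

include h0 hadd in
/-- two opposite lattices: `K / (Ka + Kb)` is finite dimensional -/
theorem latt (Ka Kb K : Submodule L V) (S : Set V) (hS : S.Finite) (hKa : Ka = orb (τ 1) S)
    (hle : Ka ≤ K) (hKb : ∀ v ∈ Kb, τ (-1) v ∈ Kb) (ha : ∀ v ∈ K, ∃ n : ℕ, τ n v ∈ Ka)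
    (hb : ∀ v ∈ K, ∃ n : ℕ, τ (-n) v ∈ Kb) :
    ∃ D : Submodule L V, FiniteDimensional L D ∧ K ≤ (Ka ⊔ Kb) ⊔ D := by
  have hKb' : ∀ (n : ℕ), ∀ v ∈ Kb, τ (-n) v ∈ Kb := by
    intro n
    induction n with
    | zero =>
      intro v hv
      rw [Nat.cast_zero, neg_zero, h0]
      exact hv
    | succ n ih =>
      intro v hv
      have h1 : (-((n + 1 : ℕ) : ℤ)) = -1 + -(n : ℤ) := by
        push_cast
        ring
      rw [h1, hadd]
      exact hKb _ (ih v hv)
  have hKa' : ∀ (n : ℕ), ∀ v ∈ Ka, τ n v ∈ Ka := by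
    intro n v hv
    rw [← pow_tau τ h0 hadd]
    exact pow_stable _ Ka (by rw [hKa]; exact orb_stable _ S) n v hv
  have hSK : ∀ s ∈ S, s ∈ Ka := by
    intro s hs
    rw [hKa]
    exact Submodule.subset_span ⟨s, hs, 0, rfl⟩
  have hN : ∀ᶠ N : ℕ in Filter.atTop, ∀ s ∈ S, τ (-N) s ∈ Kb := by
    rw [Filter.eventually_all_finite hS]
    intro s hs
    obtain ⟨n, hn⟩ := hb s (hle (hSK s hs))
    filter_upwards [Filter.eventually_ge_atTop n] with N hN
    have h1 : (-(N : ℤ)) = -((N - n : ℕ) : ℤ) + -(n : ℤ) := by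
      push_cast [hN]
      ring
    rw [h1, hadd]
    exact hKb' _ _ hn
  obtain ⟨N, hN⟩ := hN.exists
  let E : Set V := ⋃ m ∈ Finset.range N, (fun s => τ (-(m : ℤ)) s) '' S
  have hE : E.Finite := by
    apply Set.Finite.biUnion (Finset.finite_toSet _)
    intro m _
    exact hS.image _
  refine ⟨Submodule.span L E, FiniteDimensional.span_of_finite L hE, ?_⟩
  intro v hv
  obtain ⟨n, hn⟩ := ha v hv
  have h1 : v = τ (-n) (τ n v) := by
    rw [← hadd, neg_add_cancel, h0]
  have h2 : orb (τ 1) S ≤ ((Ka ⊔ Kb) ⊔ Submodule.span L E).comap (τ (-n)) := by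
    unfold orb
    rw [Submodule.span_le]
    rintro _ ⟨s, hs, k, rfl⟩
    rw [SetLike.mem_coe, Submodule.mem_comap, pow_tau τ h0 hadd, ← hadd]
    by_cases h3 : n ≤ k
    · have h4 : -(n : ℤ) + k = ((k - n : ℕ) : ℤ) := by
        push_cast [h3]
        ring
      rw [h4]
      exact Submodule.mem_sup_left (Submodule.mem_sup_left (hKa' _ _ (hSK s hs)))
    · push Not at h3
      have h4 : -(n : ℤ) + k = -((n - k : ℕ) : ℤ) := by
        push_cast [h3.le]
        ring
      rw [h4]
      by_cases h5 : n - k < N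
      · apply Submodule.mem_sup_right
        apply Submodule.subset_span
        simp only [E, Set.mem_iUnion]
        exact ⟨n - k, Finset.mem_coe.2 (Finset.mem_range.2 h5), s, hs, rfl⟩
      · push Not at h5
        apply Submodule.mem_sup_left
        apply Submodule.mem_sup_right
        have h6 : -((n - k : ℕ) : ℤ) = -((n - k - N : ℕ) : ℤ) + -(N : ℤ) := by
          push_cast [h5]
          ring
        rw [h6, hadd]
        exact hKb' _ _ (hN s hs)
  rw [h1]
  rw [hKa] at hn
  exact h2 hn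

end Abs

section App

variable {K : Type} [Field K] (c : CurveData K)

theorem w_ne : c.w ≠ 0 := by
  intro h
  apply c.w_tr
  rw [h]
  exact isAlgebraic_zero

/-- multiplication by `w^n` -/
def mw (n : ℤ) : c.F →ₗ[K] c.F := LinearMap.mulLeft K (c.w ^ n)

theorem mw_apply (n : ℤ) (v : c.F) : mw c n v = c.w ^ n * v := rfl

/-- the chart `U_a` is the span of the forward orbit of a finite set -/
theorem exists_orb : ∃ S : Set c.F, S.Finite ∧
    Subalgebra.toSubmodule (c.A ca) = orb (mw c 1) S := by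
  obtain ⟨s, hs⟩ := c.fg_a
  let R := Algebra.adjoin K {c.w}
  have hR : R ≤ c.A ca := by
    rw [Algebra.adjoin_le_iff]
    intro x hx
    rw [Set.mem_singleton_iff] at hx
    rw [hx]
    exact c.w_mem
  have hfg : (Subalgebra.toSubmodule (Algebra.adjoin R (s : Set c.F))).FG := by
    apply fg_adjoin_of_finite s.finite_toSet
    intro x hx
    apply c.int_a
    rw [← hs]
    exact Algebra.subset_adjoin hx
  have hA : ∀ x, x ∈ Algebra.adjoin R (s : Set c.F) ↔ x ∈ c.A ca := by
    intro x
    constructor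
    · intro hx
      induction hx using Algebra.adjoin_induction with
      | mem x hx =>
        rw [← hs]
        exact Algebra.subset_adjoin hx
      | algebraMap r => exact hR r.2
      | add x y _ _ h1 h2 => exact add_mem h1 h2
      | mul x y _ _ h1 h2 => exact mul_mem h1 h2
    · intro hx
      rw [← hs] at hx
      induction hx using Algebra.adjoin_induction with
      | mem x hx => exact Algebra.subset_adjoin hx
      | algebraMap r => exact Subalgebra.algebraMap_mem _ (algebraMap K R r)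
      | add x y _ _ h1 h2 => exact add_mem h1 h2
      | mul x y _ _ h1 h2 => exact mul_mem h1 h2
  obtain ⟨G, hG⟩ := hfg
  refine ⟨G, G.finite_toSet, ?_⟩
  have hGA : ∀ g ∈ G, g ∈ c.A ca := by
    intro g hg
    rw [← hA]
    have h1 : g ∈ Subalgebra.toSubmodule (Algebra.adjoin R (s : Set c.F)) := by
      rw [← hG]
      exact Submodule.subset_span hg
    exact h1
  apply le_antisymm
  · intro x hx
    have h1 : x ∈ Submodule.span R (G : Set c.F) := by
      rw [hG]
      exact (hA x).2 hx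
    obtain ⟨f, -, hf⟩ := Submodule.mem_span_finset.1 h1
    rw [← hf]
    refine Submodule.sum_mem _ fun g hg => ?_
    obtain ⟨P, hP⟩ := Algebra.adjoin_mem_exists_aeval K c.w (f g).2
    have h2 : f g • g = aeval c.w P * g := by
      rw [hP]
      rfl
    rw [h2, aeval_eq_sum_range, Finset.sum_mul]
    refine Submodule.sum_mem _ fun k _ => ?_
    rw [smul_mul_assoc]
    apply Submodule.smul_mem
    apply Submodule.subset_span
    refine ⟨g, hg, k, ?_⟩
    rw [pow_tau (mw c) (fun v => by rw [mw_apply, zpow_zero, one_mul])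
      (fun m n v => by rw [mw_apply, mw_apply, mw_apply, zpow_add₀ (w_ne c), mul_assoc]),
      mw_apply, zpow_natCast]
  · unfold orb
    rw [Submodule.span_le]
    rintro _ ⟨g, hg, k, rfl⟩
    rw [pow_tau (mw c) (fun v => by rw [mw_apply, zpow_zero, one_mul])
      (fun m n v => by rw [mw_apply, mw_apply, mw_apply, zpow_add₀ (w_ne c), mul_assoc]),
      mw_apply, zpow_natCast]
    exact (c.A ca).mul_mem ((c.A ca).pow_mem c.w_mem k) (hGA g hg)

/-- elements which some power of `u` carries into `A` -/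
theorem sup_pow (A : Subalgebra K c.F) (u : c.F) (hu : u ∈ A) (x : c.F)
    (hx : x ∈ A ⊔ Algebra.adjoin K {u⁻¹}) : ∃ n : ℕ, u ^ n * x ∈ A := by
  let B : Subalgebra K c.F :=
    { carrier := {x | ∃ n : ℕ, u ^ n * x ∈ A}
      mul_mem' := by
        rintro a b ⟨m, hm⟩ ⟨n, hn⟩
        refine ⟨m + n, ?_⟩
        have h : u ^ (m + n) * (a * b) = (u ^ m * a) * (u ^ n * b) := by ring
        rw [h]
        exact mul_mem hm hn
      add_mem' := by
        rintro a b ⟨m, hm⟩ ⟨n, hn⟩
        refine ⟨m + n, ?_⟩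
        have h : u ^ (m + n) * (a + b) = u ^ n * (u ^ m * a) + u ^ m * (u ^ n * b) := by ring
        rw [h]
        exact add_mem (mul_mem (pow_mem hu n) hm) (mul_mem (pow_mem hu m) hn)
      algebraMap_mem' := fun r => ⟨0, by
        rw [pow_zero, one_mul]
        exact A.algebraMap_mem r⟩ }
  have h1 : A ⊔ Algebra.adjoin K {u⁻¹} ≤ B := by
    refine sup_le (fun a ha => ⟨0, by rw [pow_zero, one_mul]; exact ha⟩) ?_
    rw [Algebra.adjoin_le_iff]
    intro y hy
    rw [Set.mem_singleton_iff] at hy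
    rw [hy]
    refine ⟨1, ?_⟩
    by_cases h0 : u = 0
    · rw [h0, inv_zero, mul_zero]
      exact zero_mem _
    · rw [pow_one, mul_inv_cancel₀ h0]
      exact one_mem _
  exact h1 hx

theorem finite_H1 : Module.Finite K c.H1 := by
  obtain ⟨S, hS, hSA⟩ := exists_orb c
  have hw := w_ne c
  obtain ⟨D, hD1, hD2⟩ := latt (mw c) (fun v => by rw [mw_apply, zpow_zero, one_mul])
    (fun m n v => by rw [mw_apply, mw_apply, mw_apply, zpow_add₀ hw, mul_assoc])
    (Subalgebra.toSubmodule (c.A ca)) (Subalgebra.toSubmodule (c.A cb))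
    (Subalgebra.toSubmodule (c.A cab)) S hS hSA
    (fun x hx => c.mono (Finset.subset_univ _) hx)
    (by
      intro v hv
      rw [mw_apply, zpow_neg_one]
      exact (c.A cb).mul_mem c.winv_mem hv)
    (by
      intro v hv
      have h1 : v ∈ c.A ca ⊔ Algebra.adjoin K {c.w⁻¹} := by
        rw [← c.cab_a]
        exact hv
      obtain ⟨n, hn⟩ := sup_pow c _ _ c.w_mem v h1
      exact ⟨n, by rw [mw_apply, zpow_natCast]; exact hn⟩)
    (by
      intro v hv
      have h1 : v ∈ c.A cb ⊔ Algebra.adjoin K {(c.w⁻¹)⁻¹} := by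
        rw [inv_inv, ← c.cab_b]
        exact hv
      obtain ⟨n, hn⟩ := sup_pow c _ _ c.winv_mem v h1
      refine ⟨n, ?_⟩
      rw [mw_apply, zpow_neg, zpow_natCast, ← inv_pow]
      exact hn)
  let D' : Submodule K c.F := D ⊓ Subalgebra.toSubmodule (c.A cab)
  have hD' : FiniteDimensional K D' := Submodule.finiteDimensional_inf_left _ _
  let φ : D' →ₗ[K] c.H1 := (Submodule.mkQ _) ∘ₗ
    (D'.subtype.codRestrict (Subalgebra.toSubmodule (c.A cab)) (fun x => x.2.2))
  apply Module.Finite.of_surjective φ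
  intro z
  obtain ⟨v, rfl⟩ := Submodule.mkQ_surjective _ z
  obtain ⟨x, hx, d, hd, hxd⟩ := Submodule.mem_sup.1 (hD2 v.2)
  have hx2 : x ∈ Subalgebra.toSubmodule (c.A cab) := by
    obtain ⟨p, hp, q, hq, rfl⟩ := Submodule.mem_sup.1 hx
    exact add_mem (c.mono (Finset.subset_univ _) hp) (c.mono (Finset.subset_univ _) hq)
  have hd2 : d ∈ Subalgebra.toSubmodule (c.A cab) := by
    have h3 : d = (v : c.F) - x := by
      rw [← hxd]
      ring
    rw [h3]
    exact sub_mem v.2 hx2
  refine ⟨⟨d, hd, hd2⟩, ?_⟩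
  apply (Submodule.Quotient.eq _).2
  rw [Submodule.mem_comap]
  have h4 : ((⟨d, hd2⟩ : c.A cab) - v : c.A cab) = -(⟨x, hx2⟩ : c.A cab) := by
    apply Subtype.ext
    change d - (v : c.F) = -x
    rw [← hxd]
    ring
  change (c.A cab).val.toLinearMap ((⟨d, hd2⟩ : c.A cab) - v) ∈ _
  rw [h4, map_neg]
  exact neg_mem hx

end App

end CG2_

theorem cg2_proof (_hCBA : Stmt_CBA) (_hCAB : Stmt_CAB) : Stmt_CG2 := by
  intro K _ l H p _
  exact CG2_.finite_H1 (H.cd p)

end

end Pool.CRD
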