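import Pool.Agent.CRD.Crv.Stmts

/-!
# CRD / Crv, module CG3: three independent classes in `H^1`
-/

open Polynomial TensorProduct

namespace Pool.CRD

noncomputable section

namespace CG3_

section
variable {K F : Type} [Field K] [Field F] [Algebra K F]

/-- `R + R t`, `t² ∈ R` -/
def ex2 (R : Subalgebra K F) (t : F) (ht : t ^ 2 ∈ R) : Subalgebra K F where
  carrier := {x | ∃ P ∈ R, ∃ Q ∈ R, x = P + Q * t}
  mul_mem' := by
    rintro _ _ ⟨P, hP, Q, hQ, rfl⟩ ⟨P', hP', Q', hQ', rfl⟩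
    exact ⟨P * P' + Q * Q' * t ^ 2, add_mem (mul_mem hP hP') (mul_mem (mul_mem hQ hQ') ht),
      P * Q' + Q * P', add_mem (mul_mem hP hQ') (mul_mem hQ hP'), by ring⟩
  add_mem' := by
    rintro _ _ ⟨P, hP, Q, hQ, rfl⟩ ⟨P', hP', Q', hQ', rfl⟩
    exact ⟨P + P', add_mem hP hP', Q + Q', add_mem hQ hQ', by ring⟩
  algebraMap_mem' := by
    intro c
    exact ⟨algebraMap K F c, R.algebraMap_mem c, 0, zero_mem _, by ring⟩

theorem mem_ex2 {R : Subalgebra K F} {t : F} {ht : t ^ 2 ∈ R} {x : F} :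
    x ∈ ex2 R t ht ↔ ∃ P ∈ R, ∃ Q ∈ R, x = P + Q * t := Iff.rfl

/-- fractions `G(i) / s(i)^N` with `deg G ≤ e N` when `e ≠ 0` is used as a bound;
`bd` is the bound on the degree -/
def fra (i : F) (s : K[X]) (bd : ℕ → ℕ → Prop) (hb0 : ∀ N, bd N 0)
    (hm : ∀ M N a b, bd M a → bd N b → bd (M + N) (a + b))
    (hmono : ∀ N a b, a ≤ b → bd N b → bd N a)
    (hs : ∀ N, bd N (s ^ N).natDegree) : Subalgebra K F where
  carrier := {x | ∃ (N : ℕ) (G : K[X]), bd N G.natDegree ∧ x * aeval i s ^ N = aeval i G}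
  mul_mem' := by
    rintro x y ⟨M, G, hG, h1⟩ ⟨N, G', hG', h2⟩
    refine ⟨M + N, G * G', hmono _ _ _ natDegree_mul_le (hm _ _ _ _ hG hG'), ?_⟩
    rw [map_mul, ← h1, ← h2, pow_add]
    ring
  add_mem' := by
    rintro x y ⟨M, G, hG, h1⟩ ⟨N, G', hG', h2⟩
    refine ⟨M + N, G * s ^ N + s ^ M * G', ?_, ?_⟩
    · refine hmono _ _ _ (natDegree_add_le _ _) ?_
      rcases max_choice (G * s ^ N).natDegree (s ^ M * G').natDegree with h | h
      · rw [h]
        exact hmono _ _ _ natDegree_mul_le (hm _ _ _ _ hG (hs N))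
      · rw [h]
        exact hmono _ _ _ natDegree_mul_le (hm _ _ _ _ (hs M) hG')
    · rw [map_add, map_mul, map_mul, map_pow, map_pow, ← h1, ← h2, pow_add]
      ring
  algebraMap_mem' := by
    intro c
    refine ⟨0, C c, ?_, ?_⟩
    · rw [natDegree_C]
      exact hb0 0
    · rw [pow_zero, mul_one, aeval_C]

/-- `qq` as a polynomial -/
def sa (l : K) : K[X] := qq (C l) X

theorem sa_zero (l : K) : sa l = 1 + X * ((3 * X + 3) + (C (1 - l) * X ^ 2 + 3 * X + 3) +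
    (3 * X + 3) * X * (C (1 - l) * X ^ 2 + 3 * X + 3)) := by
  unfold sa qq qa qb
  rw [C_sub, C_1]
  ring

theorem sa_one (l : K) : sa l = C l + (X + 1) * (((X + 1) ^ 2 - C l * (X ^ 2 - X + 1)) +
    3 * X * qb (C l) X) := by
  unfold sa qq qa qb
  ring

theorem cop_X (l : K) : IsCoprime (X : K[X]) (sa l) := by
  refine ⟨-((3 * X + 3) + (C (1 - l) * X ^ 2 + 3 * X + 3) +
    (3 * X + 3) * X * (C (1 - l) * X ^ 2 + 3 * X + 3)), 1, ?_⟩
  rw [sa_zero]
  ring

theorem cop_X1 (l : K) (hl : l ≠ 0) : IsCoprime (X + 1 : K[X]) (sa l) := by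
  refine ⟨-(C l⁻¹ * (((X + 1) ^ 2 - C l * (X ^ 2 - X + 1)) + 3 * X * qb (C l) X)), C l⁻¹, ?_⟩
  rw [sa_one]
  have h : C l⁻¹ * C l = (1 : K[X]) := by
    rw [← C_mul, inv_mul_cancel₀ hl, C_1]
  linear_combination h

theorem sa_eval (l : K) : (sa l).eval 0 = 1 := by
  rw [sa_zero]
  simp

theorem sa_aeval (l : K) (i : F) : aeval i (sa l) = qq (algebraMap K F l) i := by
  unfold sa qq qa qb
  have h3 : aeval i (3 : K[X]) = 3 := map_ofNat _ 3
  simp [h3]

/-- the polynomial computation -/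
theorem core (l : K) (hl : l ≠ 0) (c : Fin 3 → K) (N M : ℕ) (G G' : K[X])
    (hG' : G'.natDegree ≤ 2 * M)
    (h : (C (c 0) * X + C (c 1) * X ^ 2 + C (c 2) * X ^ 3) * sa l ^ N * (X * (X + 1)) ^ M =
      X ^ 4 * G * (X * (X + 1)) ^ M + G' * sa l ^ N) : c = 0 := by
  set fp : K[X] := C (c 0) * X + C (c 1) * X ^ 2 + C (c 2) * X ^ 3 with hfp
  have hmon : (X * (X + 1) : K[X]).Monic := monic_X.mul (by
    simpa using monic_X_add_C (1 : K))
  have hdeg : (X * (X + 1) : K[X]).natDegree = 2 := by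
    have h1 : (X + 1 : K[X]) ≠ 0 := by
      have := (monic_X_add_C (1 : K)).ne_zero
      simpa using this
    rw [natDegree_mul X_ne_zero h1, natDegree_X]
    have : (X + 1 : K[X]).natDegree = 1 := by
      simpa using natDegree_X_add_C (1 : K)
    rw [this]
  have hcop : IsCoprime ((X * (X + 1)) ^ M : K[X]) (sa l ^ N) :=
    ((cop_X l).mul_left (cop_X1 l hl)).pow
  have hdvd : (X * (X + 1)) ^ M ∣ G' := by
    apply hcop.dvd_of_dvd_mul_right
    refine ⟨fp * sa l ^ N - X ^ 4 * G, ?_⟩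
    linear_combination -h
  obtain ⟨D, hD⟩ := hdvd
  have hne : ((X * (X + 1)) ^ M : K[X]) ≠ 0 := (hmon.pow M).ne_zero
  have hD0 : D.natDegree = 0 := by
    by_cases hz : D = 0
    · rw [hz, natDegree_zero]
    · rw [hD, natDegree_mul hne hz, hmon.natDegree_pow, hdeg] at hG'
      omega
  have h2 : fp * sa l ^ N = X ^ 4 * G + D * sa l ^ N := by
    apply mul_right_cancel₀ hne
    rw [hD] at h
    linear_combination h
  have hDc : D = 0 := by
    rw [natDegree_eq_zero] at hD0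
    obtain ⟨r, rfl⟩ := hD0
    have h3 := congrArg (eval 0) h2
    simp only [hfp, eval_mul, eval_add, eval_pow, sa_eval, eval_C, eval_X] at h3
    have h5 : r = 0 := by
      simpa using h3.symm
    rw [h5, C_0]
  rw [hDc, zero_mul, add_zero] at h2
  have h4 : X ^ 4 ∣ fp := by
    have hc4 : IsCoprime (X ^ 4 : K[X]) (sa l ^ N) := (cop_X l).pow
    apply hc4.dvd_of_dvd_mul_right
    exact ⟨G, h2⟩
  rw [X_pow_dvd_iff] at h4
  have e1 := h4 1 (by norm_num)
  have e2 := h4 2 (by norm_num)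
  have e3 := h4 3 (by norm_num)
  rw [hfp] at e1 e2 e3
  simp [coeff_X_pow, coeff_C_mul] at e1 e2 e3
  funext j
  fin_cases j
  · exact e1
  · exact e2
  · exact e3

/-- `R_a = K[i, 1/qq(i)]` -/
def Ra (l : K) (i : F) : Subalgebra K F :=
  fra i (sa l) (fun _ _ => True) (fun _ => trivial) (fun _ _ _ _ _ _ => trivial)
    (fun _ _ _ _ _ => trivial) (fun _ => trivial)

/-- `R_b`, contains `K[z, 1/z]`, `z = (i + 1)/i` -/
def Rb (K : Type) {F : Type} [Field K] [Field F] [Algebra K F] (i : F) : Subalgebra K F :=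
  fra (K := K) i (X * (X + 1)) (fun N d => d ≤ 2 * N) (fun _ => Nat.zero_le _)
    (fun M N a b h1 h2 => by omega) (fun N a b h1 h2 => by omega) (fun N => by
      refine (natDegree_pow_le).trans ?_
      have h1 : (X * (X + 1) : K[X]).natDegree ≤ 2 := by
        refine natDegree_mul_le.trans ?_
        have h2 : (X + 1 : K[X]).natDegree ≤ 1 := by
          simpa using (natDegree_X_add_C (1 : K)).le
        have h3 : (X : K[X]).natDegree ≤ 1 := natDegree_X_le
        omega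
      nlinarith)

theorem mem_Ra {l : K} {i x : F} : x ∈ Ra l i ↔
    ∃ (N : ℕ) (G : K[X]), True ∧ x * aeval i (sa l) ^ N = aeval i G := Iff.rfl

theorem mem_Rb {i x : F} : x ∈ Rb K i ↔
    ∃ (N : ℕ) (G : K[X]), G.natDegree ≤ 2 * N ∧ x * aeval i (X * (X + 1) : K[X]) ^ N =
      aeval i G := Iff.rfl

end

variable {K : Type} [Field K] {l : K} (H : HypF K l)

theorem zi_tr : Transcendental K (zi H.z) := by
  intro h
  apply H.dbl.tr
  have h1 : H.z = (zi H.z)⁻¹ + 1 := by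
    unfold zi
    rw [inv_inv]
    ring
  rw [h1]
  exact h.inv.add isAlgebraic_one

theorem z_mem : H.z ∈ IntermediateField.adjoin K {H.z} :=
  IntermediateField.subset_adjoin _ _ (Set.mem_singleton _)

theorem zi_mem : zi H.z ∈ IntermediateField.adjoin K {H.z} :=
  inv_mem (sub_mem (z_mem H) (one_mem _))

theorem aeval_mem (p : K[X]) : aeval (zi H.z) p ∈ IntermediateField.adjoin K {H.z} := by
  have h := Polynomial.aeval_mem_adjoin_singleton K (p := p) (zi H.z)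
  exact (IntermediateField.algebra_adjoin_le_adjoin K {zi H.z} |>.trans (by
    intro x hx
    have h1 : IntermediateField.adjoin K {zi H.z} ≤ IntermediateField.adjoin K {H.z} := by
      rw [IntermediateField.adjoin_le_iff]
      intro y hy
      rw [Set.mem_singleton_iff] at hy
      rw [hy]
      exact zi_mem H
    exact h1 hx)) h

theorem A_ca_le (hB : BasC H.F (algebraMap K H.F l) H.z H.y)
    (ht : yi H.z H.y ^ 2 ∈ Ra l (zi H.z)) :
    H.A ca ≤ ex2 (Ra l (zi H.z)) (yi H.z H.y) ht := by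
  unfold DblF.A AC
  rw [Algebra.adjoin_le_iff]
  rintro _ ⟨k, hk, rfl⟩
  rcases hk with ⟨-, hk⟩ | ⟨hk, -⟩
  · fin_cases k
    · refine ⟨zi H.z, ?_, 0, zero_mem _, by simp [gC]⟩
      exact ⟨0, X, trivial, by simp⟩
    · refine ⟨(qq (algebraMap K H.F l) (zi H.z))⁻¹, ?_, 0, zero_mem _, by simp [gC]⟩
      refine ⟨1, 1, trivial, ?_⟩
      rw [sa_aeval, pow_one, inv_mul_cancel₀ hB.q0, map_one]
    · refine ⟨0, zero_mem _, 1, one_mem _, by simp [gC]⟩
    · exact absurd hk (by decide)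
    · exact absurd hk (by decide)
    · exact absurd hk (by decide)
  · exact absurd hk (by simp [ca, Cov.one])

theorem z_Rb (hB : BasC H.F (algebraMap K H.F l) H.z H.y) :
    H.z ∈ Rb K (zi H.z) ∧ H.z⁻¹ ∈ Rb K (zi H.z) := by
  have h1 : aeval (zi H.z) (X * (X + 1) : K[X]) = zi H.z * (zi H.z + 1) := by simp
  have hz : H.z * zi H.z = zi H.z + 1 := by
    have h2 := hB.z_eq
    rw [eq_div_iff hB.i0] at h2
    exact h2
  have hz2 : H.z⁻¹ * (zi H.z + 1) = zi H.z := by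
    rw [← hz, inv_mul_cancel_left₀ hB.z0]
  refine ⟨⟨1, (X + 1) ^ 2, ?_, ?_⟩, ⟨1, X ^ 2, ?_, ?_⟩⟩
  · refine natDegree_pow_le.trans ?_
    have h2 : (X + 1 : K[X]).natDegree ≤ 1 := by
      simpa using (natDegree_X_add_C (1 : K)).le
    omega
  · rw [h1, map_pow, map_add, aeval_X, map_one]
    linear_combination (zi H.z + 1) * hz
  · rw [natDegree_X_pow]
  · rw [h1, map_pow, aeval_X]
    linear_combination zi H.z * hz2

theorem A_cb_le (hB : BasC H.F (algebraMap K H.F l) H.z H.y)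
    (ht : H.y ^ 2 ∈ Rb K (zi H.z)) :
    H.A cb ≤ ex2 (Rb K (zi H.z)) H.y ht := by
  unfold DblF.A AC
  rw [Algebra.adjoin_le_iff]
  rintro _ ⟨k, hk, rfl⟩
  rcases hk with ⟨hk, -⟩ | ⟨-, hk⟩
  · exact absurd hk (by simp [cb, Cov.one])
  · fin_cases k
    · exact absurd hk (by decide)
    · exact absurd hk (by decide)
    · exact absurd hk (by decide)
    · exact ⟨H.z, (z_Rb H hB).1, 0, zero_mem _, by simp [gC]⟩
    · exact ⟨H.z⁻¹, (z_Rb H hB).2, 0, zero_mem _, by simp [gC]⟩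
    · exact ⟨0, zero_mem _, 1, one_mem _, by simp [gC]⟩

/-- elements of `R_a` and `R_b` lie in `K(z)` -/
theorem fra_mem (x : H.F) (s G : K[X]) (N : ℕ) (hs : aeval (zi H.z) s ≠ 0)
    (h : x * aeval (zi H.z) s ^ N = aeval (zi H.z) G) :
    x ∈ IntermediateField.adjoin K {H.z} := by
  have h1 : x = aeval (zi H.z) G / aeval (zi H.z) s ^ N := by
    rw [eq_div_iff (pow_ne_zero N hs), h]
  rw [h1]
  exact div_mem (aeval_mem H G) (pow_mem (aeval_mem H s) N)

theorem main (hB : BasC H.F (algebraMap K H.F l) H.z H.y) (hl : l ≠ 0) (c : Fin 3 → K)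
    (P Q : H.F) (hP : P ∈ H.A ca) (hQ : Q ∈ H.A cb)
    (h : P + Q = (algebraMap K H.F (c 0) * zi H.z + algebraMap K H.F (c 1) * zi H.z ^ 2 +
      algebraMap K H.F (c 2) * zi H.z ^ 3) * H.y) : c = 0 := by
  have hta : yi H.z H.y ^ 2 ∈ Ra l (zi H.z) := by
    rw [hB.eqi]
    refine ⟨0, X * (X + 1) * sa l, trivial, ?_⟩
    rw [map_mul, map_mul, map_add, aeval_X, map_one, sa_aeval]
    ring
  have htb : H.y ^ 2 ∈ Rb K (zi H.z) := by
    rw [hB.eqn]
    have hz := (z_Rb H hB).1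
    exact mul_mem hz (mul_mem (sub_mem (pow_mem hz 3) (one_mem _))
      (sub_mem (pow_mem hz 3) (Subalgebra.algebraMap_mem _ _)))
  obtain ⟨P1, hP1, Q1, hQ1, rfl⟩ := A_ca_le H hB hta hP
  obtain ⟨P2, hP2, Q2, hQ2, rfl⟩ := A_cb_le H hB htb hQ
  obtain ⟨N0, G0, -, g0⟩ := mem_Ra.1 hP1
  obtain ⟨N1, G1, -, g1⟩ := mem_Ra.1 hQ1
  obtain ⟨M0, G0', b0, g0'⟩ := mem_Rb.1 hP2
  obtain ⟨M1, G1', b1, g1'⟩ := mem_Rb.1 hQ2
  have s1 : aeval (zi H.z) (sa l) ≠ 0 := by
    rw [sa_aeval]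
    exact hB.q0
  have s2 : aeval (zi H.z) (X * (X + 1) : K[X]) ≠ 0 := by
    rw [map_mul, map_add, aeval_X, map_one]
    exact mul_ne_zero hB.i0 hB.i1
  have m0 := fra_mem H P1 _ _ _ s1 g0
  have m1 := fra_mem H Q1 _ _ _ s1 g1
  have m2 := fra_mem H P2 _ _ _ s2 g0'
  have m3 := fra_mem H Q2 _ _ _ s2 g1'
  have m4 := zi_mem H
  have m5 : ∀ k : K, algebraMap K H.F k ∈ IntermediateField.adjoin K {H.z} := fun k =>
    IntermediateField.algebraMap_mem _ k
  have key := (H.dbl.indep (P1 + P2) (add_mem m0 m2)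
    (Q1 * zi H.z ^ 4 + Q2 - (algebraMap K H.F (c 0) * zi H.z + algebraMap K H.F (c 1) *
      zi H.z ^ 2 + algebraMap K H.F (c 2) * zi H.z ^ 3))
    (sub_mem (add_mem (mul_mem m1 (pow_mem m4 4)) m3)
      (add_mem (add_mem (mul_mem (m5 _) m4) (mul_mem (m5 _) (pow_mem m4 2)))
        (mul_mem (m5 _) (pow_mem m4 3)))) (by
      have e1 : yi H.z H.y = H.y * zi H.z ^ 4 := rfl
      rw [e1] at h
      linear_combination h)).2
  apply core l hl c N1 M1 G1 G1' b1
  have hinj := transcendental_iff_injective.1 (zi_tr H)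
  apply hinj
  simp only [map_add, map_mul, map_pow, aeval_C, aeval_X, map_one] at g1 g1' key ⊢
  rw [← g1, ← g1']
  linear_combination (-(aeval (zi H.z) (sa l) ^ N1 * (zi H.z * (zi H.z + 1)) ^ M1)) * key

end CG3_

theorem cg3_proof (hCBA : Stmt_CBA) (_hCAB : Stmt_CAB) : Stmt_CG3 := by
  intro K _ l H p hl
  have hB := hCBA K l H
  have hi : zi H.z ∈ H.A ca := by
    apply Algebra.subset_adjoin
    exact ⟨0, Or.inl ⟨by simp [ca, Cov.one], by decide⟩, by simp [gC]⟩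
  have hy : H.y ∈ H.A cb := by
    apply Algebra.subset_adjoin
    exact ⟨5, Or.inr ⟨by simp [cb, Cov.one], by decide⟩, by simp [gC]⟩
  have la : H.A ca ≤ H.A cab := H.A_mono (Finset.subset_univ _)
  have lb : H.A cb ≤ H.A cab := H.A_mono (Finset.subset_univ _)
  let x : Fin 3 → H.A cab := fun j =>
    ⟨zi H.z ^ ((j : ℕ) + 1) * H.y, mul_mem (pow_mem (la hi) _) (lb hy)⟩
  refine ⟨fun j => Submodule.Quotient.mk (x j), ?_⟩
  rw [Fintype.linearIndependent_iff]
  intro c hc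
  have h1 : (Submodule.Quotient.mk (∑ j, c j • x j) : (H.cd p).H1) = 0 := by
    rw [← hc]
    simp only [← Submodule.Quotient.mk_smul]
    exact map_sum (Submodule.mkQ _) _ _
  rw [Submodule.Quotient.mk_eq_zero] at h1
  obtain ⟨P, hP, Q, hQ, hPQ⟩ := Submodule.mem_sup.1 h1
  have h2 : c = 0 := by
    apply CG3_.main H hB hl.l0.ne_zero c P Q hP hQ
    rw [hPQ, Fin.sum_univ_three]
    change c 0 • (zi H.z ^ ((0 : ℕ) + 1) * H.y) + c 1 • (zi H.z ^ ((1 : ℕ) + 1) * H.y) +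
      c 2 • (zi H.z ^ ((2 : ℕ) + 1) * H.y) = _
    simp only [Algebra.smul_def]
    ring
  intro j
  rw [h2]
  rfl

end

end Pool.CRD
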