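import Pool.Agent.CRD.Crv.Stmts

/-!
# CRD, area CRV, module CHP: memberships of pairs of functions
-/

set_option autoImplicit false

open Polynomial TensorProduct

namespace Pool.CRD

namespace CHP_

section fld
variable {F : Type} [Field F] {l z y : F}

theorem i_z (h : BasC F l z y) : zi z + 1 = z * zi z := by
  have := h.z_eq
  have h0 := h.i0
  field_simp at this
  rw [this]

theorem qa_e (h : BasC F l z y) : qa (zi z) = (z ^ 3 - 1) * zi z ^ 3 := by
  have := h.qa_eq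
  have h0 := h.i0
  rw [this]
  field_simp

theorem qb_e (h : BasC F l z y) : qb l (zi z) = (z ^ 3 - l) * zi z ^ 3 := by
  have := h.qb_eq
  have h0 := h.i0
  rw [this]
  field_simp

theorem qq_e (h : BasC F l z y) : qq l (zi z) = (z ^ 3 - 1) * zi z ^ 3 * ((z ^ 3 - l) * zi z ^ 3) := by
  unfold qq
  rw [qa_e h, qb_e h]

theorem u1 (h : BasC F l z y) :
    z / (y / (z ^ 3 - 1)) ^ 2 = qa (zi z) ^ 2 * (qq l (zi z))⁻¹ := by
  rw [qq_e h, qa_e h, div_pow, h.eqn]
  have h1 := h.z31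
  have h2 := h.z3l
  have h3 := h.i0
  have h4 := h.z0
  generalize z ^ 3 - 1 = a at *
  generalize z ^ 3 - l = b at *
  field_simp

theorem u2 (h : BasC F l z y) :
    (z / (y / (z ^ 3 - 1)) ^ 2)⁻¹ = qb l (zi z) ^ 2 * (qq l (zi z))⁻¹ := by
  rw [qq_e h, qb_e h, div_pow, h.eqn]
  have h1 := h.z31
  have h2 := h.z3l
  have h3 := h.i0
  have h4 := h.z0
  generalize z ^ 3 - 1 = a at *
  generalize z ^ 3 - l = b at *
  field_simp

theorem u3 (h : BasC F l z y) :
    y / (z ^ 3 - 1) / 1 = y * (z ^ 3 - l) * zi z ^ 6 * (qq l (zi z))⁻¹ := by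
  rw [qq_e h]
  have h1 := h.z31
  have h2 := h.z3l
  have h3 := h.i0
  have h4 := h.z0
  generalize z ^ 3 - 1 = a at *
  generalize z ^ 3 - l = b at *
  field_simp

theorem u4 (h : BasC F l z y) :
    1 / (y / (z ^ 3 - 1)) = y * (z ^ 3 - 1) * z⁻¹ * zi z ^ 6 * (qq l (zi z))⁻¹ := by
  rw [qq_e h]
  have h1 := h.z31
  have h2 := h.z3l
  have h3 := h.i0
  have h4 := h.z0
  have h5 := h.y0
  have h6 := h.eqn
  generalize z ^ 3 - 1 = a at *
  generalize z ^ 3 - l = b at *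
  field_simp
  linear_combination (-1 : F) * h6

theorem u5 (h : BasC F l z y) :
    wC l z * (1 / (y / (z ^ 3 - 1))) =
      (zi z + 1) ^ 2 * zi z ^ 3 * yi z y * qa (zi z) * ((qq l (zi z))⁻¹) ^ 2 := by
  rw [qq_e h, i_z h, qa_e h]
  unfold yi wC
  have h1 := h.z31
  have h2 := h.z3l
  have h3 := h.i0
  have h4 := h.z0
  have h5 := h.y0
  have h6 := h.eqn
  generalize z ^ 3 - 1 = a at *
  generalize z ^ 3 - l = b at *
  field_simp
  linear_combination (-1 : F) * h6

theorem u6 (h : BasC F l z y) :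
    (wC l z)⁻¹ * (y / (z ^ 3 - 1) / 1) = (z ^ 3 - l) * y * (z⁻¹) ^ 3 := by
  unfold wC
  have h1 := h.z31
  have h2 := h.z3l
  have h4 := h.z0
  generalize z ^ 3 - 1 = a at *
  generalize z ^ 3 - l = b at *
  field_simp

theorem hC_t (z y : F) {s : Cov Bool} (hs : true ∈ s.s) : hC z y s = 1 := by
  unfold hC
  exact if_pos hs

theorem hC_f (z y : F) {s : Cov Bool} (hs : true ∉ s.s) : hC z y s = y / (z ^ 3 - 1) := by
  unfold hC
  exact if_neg hs

end fld

section ring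
variable {B E : Type} [CommRing B] [CommRing E] [Algebra B E] (S : Subalgebra B E)

theorem nat_mem (n : ℕ) [n.AtLeastTwo] : (OfNat.ofNat n : E) ∈ S := by
  have := S.natCast_mem n
  exact_mod_cast this

theorem qa_mem {t : E} (ht : t ∈ S) : qa t ∈ S := by
  unfold qa
  exact S.add_mem (S.add_mem (S.mul_mem (nat_mem S 3) (S.pow_mem ht 2))
    (S.mul_mem (nat_mem S 3) ht)) S.one_mem

theorem qb_mem {t : E} (l : B) (ht : t ∈ S) : qb (algebraMap B E l) t ∈ S := by
  unfold qb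
  exact S.add_mem (S.add_mem (S.add_mem (S.mul_mem (S.sub_mem S.one_mem (S.algebraMap_mem l))
    (S.pow_mem ht 3)) (S.mul_mem (nat_mem S 3) (S.pow_mem ht 2)))
    (S.mul_mem (nat_mem S 3) ht)) S.one_mem

end ring

end CHP_

open CHP_ in
theorem chp_proof : Stmt_CHP := by
  intro B F F' _ _ _ _ _ l z y z' y' _ h h'
  have gen : ∀ (s : Cov Bool) (k : Fin 6), k ∈ ixC s →
      gC (algebraMap B (F × F') l) (z, z') (y, y') k ∈
        AC B (algebraMap B (F × F') l) (z, z') (y, y') s :=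
    fun s k hk => Algebra.subset_adjoin ⟨k, hk, rfl⟩
  have mI : ∀ s : Cov Bool, false ∈ s.s → (zi z, zi z') ∈
      AC B (algebraMap B (F × F') l) (z, z') (y, y') s :=
    fun s hs => gen s 0 (Or.inl ⟨hs, by decide⟩)
  have mQ : ∀ s : Cov Bool, false ∈ s.s → ((qq (algebraMap B F l) (zi z))⁻¹,
      (qq (algebraMap B F' l) (zi z'))⁻¹) ∈ AC B (algebraMap B (F × F') l) (z, z') (y, y') s :=
    fun s hs => gen s 1 (Or.inl ⟨hs, by decide⟩)
  have mYi : ∀ s : Cov Bool, false ∈ s.s → (yi z y, yi z' y') ∈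
      AC B (algebraMap B (F × F') l) (z, z') (y, y') s :=
    fun s hs => gen s 2 (Or.inl ⟨hs, by decide⟩)
  have mZ : ∀ s : Cov Bool, true ∈ s.s → (z, z') ∈
      AC B (algebraMap B (F × F') l) (z, z') (y, y') s :=
    fun s hs => gen s 3 (Or.inr ⟨hs, by decide⟩)
  have mZi : ∀ s : Cov Bool, true ∈ s.s → (z⁻¹, z'⁻¹) ∈
      AC B (algebraMap B (F × F') l) (z, z') (y, y') s :=
    fun s hs => gen s 4 (Or.inr ⟨hs, by decide⟩)
  have mY : ∀ s : Cov Bool, true ∈ s.s → (y, y') ∈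
      AC B (algebraMap B (F × F') l) (z, z') (y, y') s :=
    fun s hs => gen s 5 (Or.inr ⟨hs, by decide⟩)
  have hfs : ∀ s : Cov Bool, true ∉ s.s → false ∈ s.s := by
    intro s hs
    obtain ⟨b, hb⟩ := s.ne
    cases b
    · exact hb
    · exact absurd hb hs
  have mA : ∀ (s : Cov Bool), false ∈ s.s → (qa (zi z), qa (zi z')) ∈
      AC B (algebraMap B (F × F') l) (z, z') (y, y') s := by
    intro s hs
    exact qa_mem _ (mI s hs)
  have mB : ∀ (s : Cov Bool), false ∈ s.s → (qb (algebraMap B F l) (zi z),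
      qb (algebraMap B F' l) (zi z')) ∈
      AC B (algebraMap B (F × F') l) (z, z') (y, y') s := by
    intro s hs
    exact qb_mem _ l (mI s hs)
  have m3l : ∀ (s : Cov Bool), true ∈ s.s → (z ^ 3 - algebraMap B F l,
      z' ^ 3 - algebraMap B F' l) ∈ AC B (algebraMap B (F × F') l) (z, z') (y, y') s := by
    intro s hs
    exact Subalgebra.sub_mem _ (Subalgebra.pow_mem _ (mZ s hs) 3) (Subalgebra.algebraMap_mem _ l)
  have m31 : ∀ (s : Cov Bool), true ∈ s.s → (z ^ 3 - 1,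
      z' ^ 3 - 1) ∈ AC B (algebraMap B (F × F') l) (z, z') (y, y') s := by
    intro s hs
    exact Subalgebra.sub_mem _ (Subalgebra.pow_mem _ (mZ s hs) 3) (Subalgebra.one_mem _)
  refine ⟨?_, ?_, ?_, ?_⟩
  · intro s
    by_cases hs : true ∈ s.s
    · rw [hC_t z y hs, hC_t z' y' hs]
      simp only [one_pow, div_one]
      exact ⟨mZ s hs, mZi s hs⟩
    · rw [hC_f z y hs, hC_f z' y' hs, u1 h, u1 h', ← u1 h, ← u1 h', u2 h, u2 h', u1 h, u1 h']
      exact ⟨Subalgebra.mul_mem _ (Subalgebra.pow_mem _ (mA s (hfs s hs)) 2) (mQ s (hfs s hs)),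
        Subalgebra.mul_mem _ (Subalgebra.pow_mem _ (mB s (hfs s hs)) 2) (mQ s (hfs s hs))⟩
  · intro U V hVU
    have hsub : U.s ⊆ V.s := hVU
    by_cases hU : true ∈ U.s
    · rw [hC_t z y hU, hC_t z' y' hU, hC_t z y (hsub hU), hC_t z' y' (hsub hU)]
      simp only [div_one]
      exact ⟨Subalgebra.one_mem _, Subalgebra.one_mem _⟩
    · by_cases hV : true ∈ V.s
      · have hVf : false ∈ V.s := hsub (hfs U hU)
        rw [hC_f z y hU, hC_f z' y' hU, hC_t z y hV, hC_t z' y' hV, u3 h, u3 h', u4 h, u4 h']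
        refine ⟨?_, ?_⟩
        · exact Subalgebra.mul_mem _ (Subalgebra.mul_mem _ (Subalgebra.mul_mem _ (mY V hV)
            (m3l V hV)) (Subalgebra.pow_mem _ (mI V hVf) 6)) (mQ V hVf)
        · exact Subalgebra.mul_mem _ (Subalgebra.mul_mem _ (Subalgebra.mul_mem _
            (Subalgebra.mul_mem _ (mY V hV) (m31 V hV)) (mZi V hV))
            (Subalgebra.pow_mem _ (mI V hVf) 6)) (mQ V hVf)
      · rw [hC_f z y hU, hC_f z' y' hU, hC_f z y hV, hC_f z' y' hV,
          div_self (div_ne_zero h.y0 h.z31), div_self (div_ne_zero h'.y0 h'.z31)]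
        exact ⟨Subalgebra.one_mem _, Subalgebra.one_mem _⟩
  · have hca : false ∈ ca.s := by simp [ca, Cov.one]
    have hcat : true ∉ ca.s := by simp [ca, Cov.one]
    have hcb : true ∈ cb.s := by simp [cb, Cov.one]
    rw [hC_t z y hcb, hC_t z' y' hcb, hC_f z y hcat, hC_f z' y' hcat, u5 h, u5 h']
    have m1 : (zi z + 1, zi z' + 1) ∈ AC B (algebraMap B (F × F') l) (z, z') (y, y') ca :=
      Subalgebra.add_mem _ (mI ca hca) (Subalgebra.one_mem _)
    exact Subalgebra.mul_mem _ (Subalgebra.mul_mem _ (Subalgebra.mul_mem _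
            (Subalgebra.mul_mem _ (Subalgebra.pow_mem _ m1 2) (Subalgebra.pow_mem _ (mI ca hca) 3))
            (mYi ca hca)) (mA ca hca)) (Subalgebra.pow_mem _ (mQ ca hca) 2)
  · have hcat : true ∉ ca.s := by simp [ca, Cov.one]
    have hcb : true ∈ cb.s := by simp [cb, Cov.one]
    rw [hC_t z y hcb, hC_t z' y' hcb, hC_f z y hcat, hC_f z' y' hcat, u6 h, u6 h']
    exact Subalgebra.mul_mem _ (Subalgebra.mul_mem _ (m3l cb hcb) (mY cb hcb))
      (Subalgebra.pow_mem _ (mZi cb hcb) 3)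

end Pool.CRD
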