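import Pool.Agent.CRD.Crv.CG3

/-!
# CRD / Crv, module CIN: integrality over `K[w]` and `K[1/w]`
-/

open Polynomial TensorProduct

namespace Pool.CRD

noncomputable section

namespace CIN_

section
variable {K F : Type} [Field K] [Field F] [Algebra K F]

/-- the elements integral over `K[w]` -/
def T (K : Type) {F : Type} [Field K] [Field F] [Algebra K F] (w : F) : Subalgebra K F :=
  (integralClosure (Algebra.adjoin K {w}) F).restrictScalars K

theorem mem_T {w x : F} : x ∈ T K w ↔ IsIntegral (Algebra.adjoin K {w}) x := Iff.rfl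

theorem w_mem (w : F) : w ∈ T K w :=
  isIntegral_algebraMap (R := Algebra.adjoin K {w}) (A := F)
    (x := ⟨w, Algebra.subset_adjoin (Set.mem_singleton _)⟩)

theorem pow_mem_T {w x : F} {n : ℕ} (hn : 0 < n) (h : x ^ n ∈ T K w) : x ∈ T K w :=
  IsIntegral.of_pow hn h

theorem aeval_mem {w i : F} (hi : i ∈ T K w) (p : K[X]) : aeval i p ∈ T K w := by
  have h1 : aeval i p ∈ Algebra.adjoin K {i} := aeval_mem_adjoin_singleton K i
  have h2 : Algebra.adjoin K {i} ≤ T K w := Algebra.adjoin_le (Set.singleton_subset_iff.2 hi)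
  exact h2 h1

theorem i_int {R E : Type} [CommRing R] [Nontrivial R] [CommRing E] [Algebra R E] (w l : R) (i : E)
    (h : (i * (i + 1)) ^ 3 = algebraMap R E w * qq (algebraMap R E l) i) : IsIntegral R i := by
  have hm : (X * (X + 1) : R[X]).Monic := monic_X.mul (by
    simpa using monic_X_add_C (1 : R))
  have h0 : (C w * qq (C l) X : R[X]).degree ≤ 5 := by
    unfold qq qa qb
    compute_degree
  have h6 : ((X * (X + 1) : R[X]) ^ 3).degree = 6 := by
    rw [degree_eq_natDegree (hm.pow 3).ne_zero, hm.natDegree_pow]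
    have h1 : (X * (X + 1) : R[X]).natDegree = 2 := by
      have h2 : (X + 1 : R[X]).Monic := by simpa using monic_X_add_C (1 : R)
      rw [monic_X.natDegree_mul h2, natDegree_X]
      have : (X + 1 : R[X]).natDegree = 1 := by
        simpa using natDegree_X_add_C (1 : R)
      rw [this]
    rw [h1]
    norm_num
  refine ⟨(X * (X + 1)) ^ 3 - C w * qq (C l) X, ?_, ?_⟩
  · apply (hm.pow 3).sub_of_left
    rw [h6]
    exact lt_of_le_of_lt h0 (by norm_num)
  · unfold qq qa qb at h ⊢
    have e3 : eval₂ (algebraMap R E) i (3 : R[X]) = 3 := by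
      have : (3 : R[X]) = C 3 := (map_ofNat C 3).symm
      rw [this, eval₂_C, map_ofNat]
    simp only [eval₂_sub, eval₂_mul, eval₂_pow, eval₂_add, eval₂_X, eval₂_one, eval₂_C, e3]
    rw [h]
    ring

theorem z_int {R E : Type} [CommRing R] [Nontrivial R] [CommRing E] [Algebra R E] (u l : R) (z : E)
    (h : z ^ 6 - (algebraMap R E u + 1 + algebraMap R E l) * z ^ 3 + algebraMap R E l = 0) :
    IsIntegral R z := by
  have h0 : (C (-(u + 1 + l)) * X ^ 3 + C l : R[X]).degree < (6 : ℕ) := by
    refine lt_of_le_of_lt (b := 3) ?_ (by norm_num)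
    compute_degree
  refine ⟨X ^ 6 + (C (-(u + 1 + l)) * X ^ 3 + C l), monic_X_pow_add h0, ?_⟩
  rw [eval₂_add, eval₂_add, eval₂_mul, eval₂_pow, eval₂_pow, eval₂_X, eval₂_C, eval₂_C, map_neg,
    map_add, map_add, map_one]
  linear_combination h

theorem i_mem (w i : F) (l : K) (h : (i * (i + 1)) ^ 3 = w * qq (algebraMap K F l) i) :
    i ∈ T K w :=
  i_int (R := Algebra.adjoin K {w}) ⟨w, Algebra.subset_adjoin (Set.mem_singleton _)⟩
    (algebraMap K _ l) i h

theorem z_mem (u z : F) (l : K) (h : z ^ 6 - (u + 1 + algebraMap K F l) * z ^ 3 +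
    algebraMap K F l = 0) : z ∈ T K u :=
  z_int (R := Algebra.adjoin K {u}) ⟨u, Algebra.subset_adjoin (Set.mem_singleton _)⟩
    (algebraMap K _ l) z h

end

end CIN_

theorem cin_proof (hCBA : Stmt_CBA) : Stmt_CIN := by
  intro K _ l H hl
  have hB := hCBA K l H
  have hl0 : l ≠ 0 := hl.l0.ne_zero
  set L := algebraMap K H.F l with hL
  have hL0 : L ≠ 0 := (_root_.map_ne_zero _).2 hl0
  have hz0 := hB.z0
  have h31 := hB.z31
  have h3l := hB.z3l
  set i := zi H.z with hidef
  have hq0 : qq L i ≠ 0 := hB.q0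
  constructor
  · set w := wC L H.z with hw
    have hwq : w * qq L i = (i * (i + 1)) ^ 3 := by
      rw [hw, hB.w_eq]
      exact div_mul_cancel₀ _ hq0
    have hi : i ∈ CIN_.T K w := CIN_.i_mem w i l hwq.symm
    have hww : w ∈ CIN_.T K w := CIN_.w_mem w
    have hqi : qq L i ∈ CIN_.T K w := by
      have h := CIN_.aeval_mem hi (CG3_.sa l)
      rwa [CG3_.sa_aeval] at h
    have hg1 : (qq L i)⁻¹ ∈ CIN_.T K w := by
      obtain ⟨a, b, hab⟩ : IsCoprime ((X * (X + 1)) ^ 3 : K[X]) (CG3_.sa l) :=
        ((CG3_.cop_X l).mul_left (CG3_.cop_X1 l hl0)).pow_left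
      have h1 := congrArg (aeval i) hab
      rw [map_add, map_mul, map_mul, CG3_.sa_aeval, map_one, map_pow, map_mul, map_add, map_one,
        aeval_X, ← hwq] at h1
      have h2 : (qq L i)⁻¹ = aeval i a * w + aeval i b := by
        rw [inv_eq_iff_eq_inv]
        apply eq_inv_of_mul_eq_one_left
        linear_combination h1
      rw [h2]
      exact add_mem (mul_mem (CIN_.aeval_mem hi a) hww) (CIN_.aeval_mem hi b)
    have hg2 : yi H.z H.y ∈ CIN_.T K w := by
      apply CIN_.pow_mem_T (n := 2) (by norm_num)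
      rw [hB.eqi]
      exact mul_mem (mul_mem hi (add_mem hi (one_mem _))) hqi
    have hle : H.A ca ≤ CIN_.T K w := by
      unfold DblF.A AC
      rw [Algebra.adjoin_le_iff]
      rintro _ ⟨k, hk, rfl⟩
      rcases hk with ⟨-, hk⟩ | ⟨hk, -⟩
      · fin_cases k
        · exact hi
        · exact hg1
        · exact hg2
        · exact absurd hk (by decide)
        · exact absurd hk (by decide)
        · exact absurd hk (by decide)
      · simp [ca, Cov.one] at hk
    exact fun f hf => hle hf
  · set u := (wC L H.z)⁻¹ with hu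
    have huz : u * H.z ^ 3 = (H.z ^ 3 - 1) * (H.z ^ 3 - L) := by
      rw [hu]
      unfold wC
      rw [inv_div, div_mul_cancel₀ _ (pow_ne_zero 3 hz0)]
    have hz : H.z ∈ CIN_.T K u := CIN_.z_mem u H.z l (by linear_combination -huz)
    have huu : u ∈ CIN_.T K u := CIN_.w_mem u
    have hLT : L ∈ CIN_.T K u := Subalgebra.algebraMap_mem _ l
    have hg4 : H.z⁻¹ ∈ CIN_.T K u := by
      apply CIN_.pow_mem_T (n := 3) (by norm_num)
      have h1 : H.z⁻¹ ^ 3 = algebraMap K H.F l⁻¹ * (u + 1 + L - H.z ^ 3) := by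
        rw [inv_pow, map_inv₀, ← hL]
        rw [inv_mul_eq_div, eq_div_iff hL0, inv_mul_eq_div, div_eq_iff (pow_ne_zero 3 hz0)]
        linear_combination -huz
      rw [h1]
      exact mul_mem (Subalgebra.algebraMap_mem _ _)
        (sub_mem (add_mem (add_mem huu (one_mem _)) hLT) (pow_mem hz 3))
    have hg5 : H.y ∈ CIN_.T K u := by
      apply CIN_.pow_mem_T (n := 2) (by norm_num)
      rw [hB.eqn]
      exact mul_mem hz (mul_mem (sub_mem (pow_mem hz 3) (one_mem _)) (sub_mem (pow_mem hz 3) hLT))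
    have hle : H.A cb ≤ CIN_.T K u := by
      unfold DblF.A AC
      rw [Algebra.adjoin_le_iff]
      rintro _ ⟨k, hk, rfl⟩
      rcases hk with ⟨hk, -⟩ | ⟨-, hk⟩
      · simp [cb, Cov.one] at hk
      · fin_cases k
        · exact absurd hk (by decide)
        · exact absurd hk (by decide)
        · exact absurd hk (by decide)
        · exact hz
        · exact hg4
        · exact hg5
    exact fun f hf => hle hf

end

end Pool.CRD
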