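import Pool.Agent.CRD.Crv.Stmts

/-!
# CRD / Crv / CPD: the projective data of the explicit curve over `B`
-/

open Polynomial TensorProduct

namespace Pool.CRD

namespace CPD_

lemma ixC_cab : ixC cab = ixC ca ∪ ixC cb := by
  ext k
  simp [ixC, ca, cb, cab, Cov.one]

lemma hC_ne {F : Type} [Field F] {l z y : F} (h : BasC F l z y) (s : Cov Bool) :
    hC z y s ≠ 0 := by
  unfold hC
  split_ifs
  · exact one_ne_zero
  · exact div_ne_zero h.y0 h.z31

end CPD_

theorem cpd_proof (hCET : Stmt_CET) (hCVA : Stmt_CVA) (hCHP : Stmt_CHP) (hACF : Stmt_ACF) :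
    Stmt_CPD := by
  intro B F _ _ _ l z y hl hb
  obtain ⟨p1, p2, p3, p4⟩ := hCHP B F F l z y z y hl hb hb
  have hfst : ∀ (s : Cov Bool) (p : F × F),
      p ∈ AC B (algebraMap B (F × F) l) (z, z) (y, y) s → p.1 ∈ AC B (algebraMap B F l) z y s := by
    intro s p hp
    rw [← (hACF B F F l z y z y s).1]
    exact ⟨p, hp, rfl⟩
  refine
    { ab := ?_
      w_ne := ?_
      ex_T := hCET B F l z y hl hb
      val := hCVA B F l z y hl hb
      x_ne := hb.z0
      h_ne := CPD_.hC_ne hb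
      u_mem := fun s => hfst s _ (p1 s).1
      uinv_mem := fun s => hfst s _ (p1 s).2
      h_div := fun {U V} h => ⟨hfst V _ (p2 h).1, hfst V _ (p2 h).2⟩
      hw_a := hfst ca _ p3
      hw_b := hfst cb _ p4 }
  · unfold AC
    rw [CPD_.ixC_cab, Set.image_union, Algebra.adjoin_union]
  · unfold wC
    exact div_ne_zero (pow_ne_zero 3 hb.z0) (mul_ne_zero hb.z31 hb.z3l)

end Pool.CRD
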