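import Pool.Agent.CRD.Crv.Stmts

/-!
# CRD, area CRV, module CPR: the properties of the explicit functions
-/

set_option autoImplicit false

open Polynomial TensorProduct

namespace Pool.CRD

namespace CPR_

theorem mem_of_pair (hACF : Stmt_ACF) {K F : Type} [Field K] [Field F] [Algebra K F] {l : K}
    {z y : F} {s : Cov Bool} {a b : F}
    (h : (a, b) ∈ AC K (algebraMap K (F × F) l) (z, z) (y, y) s) :
    a ∈ AC K (algebraMap K F l) z y s := by
  rw [← (hACF K F F l z y z y s).1]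
  exact ⟨(a, b), h, rfl⟩

theorem hC_ne {F : Type} [Field F] {l z y : F} (h : BasC F l z y) (s : Cov Bool) :
    hC z y s ≠ 0 := by
  unfold hC
  split_ifs
  · exact one_ne_zero
  · exact div_ne_zero h.y0 h.z31

end CPR_

open CPR_ in
theorem cpr_proof (hCBA : Stmt_CBA) (hCHP : Stmt_CHP) (hACF : Stmt_ACF) (hCAB : Stmt_CAB)
    (hCIN : Stmt_CIN) (hCTR : Stmt_CTR) (hCDE : Stmt_CDE) : Stmt_CPR := by
  intro K _ l H hl
  have hb := hCBA K l H
  obtain ⟨c1, c2, -, -⟩ := hCHP K H.F H.F l H.z H.y H.z H.y hl hb hb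
  obtain ⟨a1, a2, a3, a4⟩ := hCAB K l H hl
  obtain ⟨i1, i2⟩ := hCIN K l H hl
  obtain ⟨t1, t2⟩ := hCTR K l H hl
  exact {
    w_mem := a1
    winv_mem := a2
    w_tr := t1
    cab_a := a3
    cab_b := a4
    int_a := i1
    int_b := i2
    ded := hCDE K l H hl
    frac := t2
    h_ne := hC_ne hb
    u_mem := fun s => mem_of_pair hACF (c1 s).1
    uinv_mem := fun s => mem_of_pair hACF (c1 s).2
    z_ne := hb.z0
    h_div := fun hVU => ⟨mem_of_pair hACF (c2 hVU).1, mem_of_pair hACF (c2 hVU).2⟩ }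

end Pool.CRD
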