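import Pool.Agent.CRD.Crv.Stmts

/-!
# CRD / Crv, module DMO: the coordinates `zi`, `yi`
-/

open Polynomial TensorProduct

namespace Pool.CRD

noncomputable section

namespace DMO_

variable {K : Type} [Field K] {l : K} (H : HypF K l)

theorem z_eq : H.z = (zi H.z)⁻¹ + 1 := by
  unfold zi
  rw [inv_inv]
  ring

theorem zi_tr : Transcendental K (zi H.z) := by
  intro h
  apply H.dbl.tr
  rw [z_eq]
  exact h.inv.add isAlgebraic_one

theorem adj_eq : IntermediateField.adjoin K {zi H.z} = IntermediateField.adjoin K {H.z} := by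
  apply le_antisymm
  · rw [IntermediateField.adjoin_le_iff]
    intro y hy
    rw [Set.mem_singleton_iff] at hy
    rw [hy]
    exact inv_mem (sub_mem (IntermediateField.subset_adjoin _ _ (Set.mem_singleton _))
      (one_mem _))
  · rw [IntermediateField.adjoin_le_iff]
    intro y hy
    rw [Set.mem_singleton_iff] at hy
    rw [hy, SetLike.mem_coe]
    have h1 : (zi H.z)⁻¹ + 1 = H.z := (z_eq H).symm
    have h2 : (zi H.z)⁻¹ + 1 ∈ IntermediateField.adjoin K {zi H.z} :=
      add_mem (inv_mem (IntermediateField.subset_adjoin _ _ (Set.mem_singleton _))) (one_mem _)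
    rwa [h1] at h2

end DMO_

theorem dmo_proof (hCBA : Stmt_CBA) : Stmt_DMO := by
  intro K _ l H
  have hB := hCBA K l H
  have hi : zi H.z ∈ IntermediateField.adjoin K {H.z} :=
    inv_mem (sub_mem (IntermediateField.subset_adjoin _ _ (Set.mem_singleton _)) (one_mem _))
  have h4 : zi H.z ^ 4 ≠ 0 := pow_ne_zero 4 hB.i0
  have hy : yi H.z H.y = H.y * zi H.z ^ 4 := rfl
  refine ⟨DMO_.zi_tr H, ?_, ?_, ?_⟩
  · rw [hB.eqi]
    unfold fA qq qa qb
    have h3 : aeval (zi H.z) (3 : K[X]) = 3 := map_ofNat _ 3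
    simp [h3]
  · rw [DMO_.adj_eq]
    intro a ha b hb h
    rw [hy] at h
    obtain ⟨h1, h2⟩ := H.dbl.indep a ha (b * zi H.z ^ 4) (mul_mem hb (pow_mem hi 4))
      (by linear_combination h)
    exact ⟨h1, (mul_eq_zero.1 h2).resolve_right h4⟩
  · rw [DMO_.adj_eq]
    intro x
    obtain ⟨a, ha, b, hb, rfl⟩ := H.dbl.gen x
    refine ⟨a, ha, b / zi H.z ^ 4, div_mem hb (pow_mem hi 4), ?_⟩
    rw [hy]
    have h5 : b / zi H.z ^ 4 * (H.y * zi H.z ^ 4) = b * H.y := by
      rw [mul_comm H.y, ← mul_assoc, div_mul_cancel₀ _ h4]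
    rw [h5]

end

end Pool.CRD
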