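import Pool.Agent.CRD.Crv.CIN
import Pool.Agent.CRD.Crv.DMO

/-!
# CRD / Crv, module CTR: `w` is transcendental, the function field is the field of fractions
-/

open Polynomial TensorProduct

namespace Pool.CRD

noncomputable section

namespace CTR_

section
variable {K F : Type} [Field K] [Field F] [Algebra K F]

theorem frac_simple {A : Subalgebra K F} {t x : F} (ht : t ∈ A)
    (hx : x ∈ IntermediateField.adjoin K {t}) : ∃ p ∈ A, ∃ q ∈ A, q ≠ 0 ∧ x = p / q := by
  obtain ⟨r, s, rfl⟩ := IntermediateField.mem_adjoin_simple_iff K x |>.1 hx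
  have hmem : ∀ p : K[X], aeval t p ∈ A := fun p =>
    (Algebra.adjoin_le (Set.singleton_subset_iff.2 ht) : Algebra.adjoin K {t} ≤ A)
      (aeval_mem_adjoin_singleton K t)
  by_cases hs : aeval t s = 0
  · exact ⟨0, zero_mem _, 1, one_mem _, one_ne_zero, by rw [hs, div_zero, zero_div]⟩
  · exact ⟨_, hmem r, _, hmem s, hs, rfl⟩

theorem frac_dbl {A : Subalgebra K F} {f : K[X]} {t y : F} (h : Dbl K f F t y) (ht : t ∈ A)
    (hy : y ∈ A) (x : F) : ∃ p ∈ A, ∃ q ∈ A, q ≠ 0 ∧ x = p / q := by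
  obtain ⟨a, ha, b, hb, rfl⟩ := h.gen x
  obtain ⟨p, hp, q, hq, hq0, rfl⟩ := frac_simple ht ha
  obtain ⟨p', hp', q', hq', hq0', rfl⟩ := frac_simple ht hb
  refine ⟨p * q' + p' * q * y, add_mem (mul_mem hp hq') (mul_mem (mul_mem hp' hq) hy), q * q',
    mul_mem hq hq', mul_ne_zero hq0 hq0', ?_⟩
  field_simp

end

end CTR_

theorem ctr_proof (hCBA : Stmt_CBA) : Stmt_CTR := by
  intro K _ l H hl
  have hB := hCBA K l H
  have hz0 := hB.z0
  constructor
  · intro hw
    apply H.dbl.tr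
    have hu : IsIntegral K (wC (algebraMap K H.F l) H.z)⁻¹ := hw.inv.isIntegral
    set u := (wC (algebraMap K H.F l) H.z)⁻¹ with hudef
    have huz : u * H.z ^ 3 = (H.z ^ 3 - 1) * (H.z ^ 3 - algebraMap K H.F l) := by
      rw [hudef]
      unfold wC
      rw [inv_div, div_mul_cancel₀ _ (pow_ne_zero 3 hz0)]
    have hz : IsIntegral (Algebra.adjoin K {u}) H.z :=
      CIN_.z_mem u H.z l (by linear_combination -huz)
    have : Algebra.IsIntegral K (Algebra.adjoin K {u}) := by
      apply Algebra.IsIntegral.adjoin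
      intro x hx
      rw [Set.mem_singleton_iff] at hx
      rw [hx]
      exact hu
    exact (isIntegral_trans (R := K) H.z hz).isAlgebraic
  · intro s x
    by_cases hs : true ∈ s.s
    · have h3 : H.z ∈ H.A s := Algebra.subset_adjoin ⟨3, Or.inr ⟨hs, by decide⟩, rfl⟩
      have h5 : H.y ∈ H.A s := Algebra.subset_adjoin ⟨5, Or.inr ⟨hs, by decide⟩, rfl⟩
      exact CTR_.frac_dbl H.dbl h3 h5 x
    · have hf : false ∈ s.s := by
        obtain ⟨b, hb⟩ := s.ne
        cases b
        · exact hb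
        · exact absurd hb hs
      have h0 : zi H.z ∈ H.A s := Algebra.subset_adjoin ⟨0, Or.inl ⟨hf, by decide⟩, rfl⟩
      have h2 : yi H.z H.y ∈ H.A s := Algebra.subset_adjoin ⟨2, Or.inl ⟨hf, by decide⟩, rfl⟩
      exact CTR_.frac_dbl (dmo_proof hCBA K l H) h0 h2 x

end

end Pool.CRD
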