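import Pool.Agent.CRD.Crv.Stmts

/-!
# CRD, area CRV, module CVA: valuation rings contain one of the two charts
-/

set_option autoImplicit false

open Polynomial TensorProduct

namespace Pool.CRD

namespace CVA_

section
variable {F : Type} [Field F] (V : ValuationSubring F)

theorem nat_mem' (n : ℕ) : ((n : ℕ) : F) ∈ V := natCast_mem V n

theorem of_sq {x : F} (hx : x ^ 2 ∈ V) : x ∈ V := by
  rcases V.mem_or_inv_mem x with h | h
  · exact h
  · by_cases hx0 : x = 0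
    · rw [hx0]; exact V.zero_mem
    · have : x = x ^ 2 * x⁻¹ := by field_simp
      rw [this]
      exact V.mul_mem _ _ hx h

theorem adj {B : Type} [CommRing B] [Algebra B F] {l z y : F} {s : Cov Bool}
    (hB : ∀ b : B, algebraMap B F b ∈ V) (hg : ∀ k ∈ ixC s, gC l z y k ∈ V) :
    ∀ a ∈ AC B l z y s, a ∈ V := by
  intro a ha
  unfold AC at ha
  induction ha using Algebra.adjoin_induction with
  | mem x hx =>
    obtain ⟨k, hk, rfl⟩ := hx
    exact hg k hk
  | algebraMap r => exact hB r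
  | add x y _ _ hx hy => exact V.add_mem _ _ hx hy
  | mul x y _ _ hx hy => exact V.mul_mem _ _ hx hy

variable {L z y : F} (h : BasC F L z y) (hL : L ∈ V) (L' : F) (hL' : L' ∈ V) (hLL : L * L' = 1)

include h hL in
theorem i_mem (hw : wC L z ∈ V) : zi z ∈ V := by
  have h0 := h.i0
  have h5 := h.q0
  rcases V.mem_or_inv_mem (zi z) with hi | hj
  · exact hi
  · have e : wC L z * qq L (zi z) = (zi z * (zi z + 1)) ^ 3 := by
      rw [h.w_eq]
      field_simp
    have h1 : zi z = wC L z * (((3 : ℕ) : F) * (1 - L) + (((9 : ℕ) : F) + ((3 : ℕ) : F) * (1 - L)) *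
        (zi z)⁻¹ + (((18 : ℕ) : F) + (1 - L)) * (zi z)⁻¹ ^ 2 + ((15 : ℕ) : F) * (zi z)⁻¹ ^ 3 +
        ((6 : ℕ) : F) * (zi z)⁻¹ ^ 4 + (zi z)⁻¹ ^ 5) -
        (((3 : ℕ) : F) + ((3 : ℕ) : F) * (zi z)⁻¹ + (zi z)⁻¹ ^ 2) := by
      have e2 : ((3 : ℕ) : F) * (1 - L) + (((9 : ℕ) : F) + ((3 : ℕ) : F) * (1 - L)) *
        (zi z)⁻¹ + (((18 : ℕ) : F) + (1 - L)) * (zi z)⁻¹ ^ 2 + ((15 : ℕ) : F) * (zi z)⁻¹ ^ 3 +
        ((6 : ℕ) : F) * (zi z)⁻¹ ^ 4 + (zi z)⁻¹ ^ 5 = qq L (zi z) * (zi z)⁻¹ ^ 5 := by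
        unfold qq qa qb
        push_cast
        field_simp
        ring
      rw [e2, ← mul_assoc, e]
      push_cast
      field_simp
      ring
    have h2 : wC L z * (((3 : ℕ) : F) * (1 - L) + (((9 : ℕ) : F) + ((3 : ℕ) : F) * (1 - L)) *
        (zi z)⁻¹ + (((18 : ℕ) : F) + (1 - L)) * (zi z)⁻¹ ^ 2 + ((15 : ℕ) : F) * (zi z)⁻¹ ^ 3 +
        ((6 : ℕ) : F) * (zi z)⁻¹ ^ 4 + (zi z)⁻¹ ^ 5) -
        (((3 : ℕ) : F) + ((3 : ℕ) : F) * (zi z)⁻¹ + (zi z)⁻¹ ^ 2) ∈ V := by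
      have hl1 : 1 - L ∈ V := V.toSubring.sub_mem V.one_mem hL
      have hp : ∀ n : ℕ, (zi z)⁻¹ ^ n ∈ V := fun n => V.toSubring.pow_mem hj n
      have hn := nat_mem' V
      refine V.toSubring.sub_mem (V.mul_mem _ _ hw ?_) ?_
      · exact V.add_mem _ _ (V.add_mem _ _ (V.add_mem _ _ (V.add_mem _ _ (V.add_mem _ _
          (V.mul_mem _ _ (hn _) hl1) (V.mul_mem _ _ (V.add_mem _ _ (hn _)
          (V.mul_mem _ _ (hn _) hl1)) hj)) (V.mul_mem _ _ (V.add_mem _ _ (hn _) hl1) (hp _)))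
          (V.mul_mem _ _ (hn _) (hp _))) (V.mul_mem _ _ (hn _) (hp _))) (hp _)
      · exact V.add_mem _ _ (V.add_mem _ _ (hn _) (V.mul_mem _ _ (hn _) hj)) (hp _)
    rwa [← h1] at h2

include h hL hL' hLL in
theorem q_mem (hw : wC L z ∈ V) (hi : zi z ∈ V) : (qq L (zi z))⁻¹ ∈ V := by
  have h5 := h.q0
  have e : wC L z * qq L (zi z) = (zi z * (zi z + 1)) ^ 3 := by
    rw [h.w_eq]
    field_simp
  have hn := nat_mem' V
  have hl1 : 1 - L ∈ V := V.toSubring.sub_mem V.one_mem hL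
  have hp : ∀ n : ℕ, zi z ^ n ∈ V := fun n => V.toSubring.pow_mem hi n
  have hq : qq L (zi z) ∈ V := by
    have h1 : qq L (zi z) = (((3 : ℕ) : F) * zi z ^ 2 + ((3 : ℕ) : F) * zi z + 1) *
        ((1 - L) * zi z ^ 3 + ((3 : ℕ) : F) * zi z ^ 2 + ((3 : ℕ) : F) * zi z + 1) := by
      unfold qq qa qb
      push_cast
      ring
    rw [h1]
    exact V.mul_mem _ _ (V.add_mem _ _ (V.add_mem _ _ (V.mul_mem _ _ (hn _) (hp _))
      (V.mul_mem _ _ (hn _) hi)) V.one_mem) (V.add_mem _ _ (V.add_mem _ _ (V.add_mem _ _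
      (V.mul_mem _ _ hl1 (hp _)) (V.mul_mem _ _ (hn _) (hp _))) (V.mul_mem _ _ (hn _) hi))
      V.one_mem)
  let i' : V := ⟨zi z, hi⟩
  let q' : V := ⟨qq L (zi z), hq⟩
  let l' : V := ⟨L, hL⟩
  have eq' : q' = qq l' i' := by
    apply Subtype.ext
    show qq L (zi z) = ((qq l' i' : V) : F)
    unfold qq qa qb
    push_cast
    rfl
  by_cases hu : IsUnit q'
  · obtain ⟨u, hu⟩ := hu
    have h1 : q' * (u⁻¹ : Vˣ) = 1 := by
      rw [← hu]
      exact u.mul_inv
    have h2 : qq L (zi z) * (((u⁻¹ : Vˣ) : V) : F) = 1 := by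
      have := congrArg (Subtype.val) h1
      exact this
    have h3 : (qq L (zi z))⁻¹ = (((u⁻¹ : Vˣ) : V) : F) := inv_eq_of_mul_eq_one_right h2
    rw [h3]
    exact Subtype.property _
  · exfalso
    have hqm : q' ∈ IsLocalRing.maximalIdeal V := hu
    have hne : (1 : V) ∉ IsLocalRing.maximalIdeal V :=
      (Ideal.ne_top_iff_one _).1 (IsLocalRing.maximalIdeal.isMaximal V).ne_top
    have h1 : (i' * (i' + 1)) ^ 3 ∈ IsLocalRing.maximalIdeal V := by
      have : (i' * (i' + 1)) ^ 3 = (⟨wC L z, hw⟩ : V) * q' := Subtype.ext e.symm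
      rw [this]
      exact Ideal.mul_mem_left _ _ hqm
    have h2 := (IsLocalRing.maximalIdeal.isMaximal V).isPrime.mem_of_pow_mem _ h1
    rcases (IsLocalRing.maximalIdeal.isMaximal V).isPrime.mem_or_mem h2 with h3 | h3
    · apply hne
      have : (1 : V) = q' - i' * ((3 * i' + 3) * qb l' i' + ((1 - l') * i' ^ 2 + 3 * i' + 3)) := by
        rw [eq']
        unfold qq qa qb
        ring
      rw [this]
      exact Ideal.sub_mem _ hqm (Ideal.mul_mem_right _ _ h3)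
    · apply hne
      have h4 : l' ∈ IsLocalRing.maximalIdeal V := by
        have : l' = q' - (i' + 1) * (3 * i' * qb l' i' + ((1 - l') * (i' ^ 2 - i' + 1) + 3 * i')) := by
          rw [eq']
          unfold qq qa qb
          ring
        rw [this]
        exact Ideal.sub_mem _ hqm (Ideal.mul_mem_right _ _ h3)
      have : (1 : V) = l' * ⟨L', hL'⟩ := Subtype.ext hLL.symm
      rw [this]
      exact Ideal.mul_mem_right _ _ h4

include h hL in
theorem z_mem (hw : (wC L z)⁻¹ ∈ V) : z ∈ V := by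
  have h0 := h.z0
  rcases V.mem_or_inv_mem z with hz | hz
  · exact hz
  · have h1 : z = (1 + L + (wC L z)⁻¹ - L * z⁻¹ ^ 3) * z⁻¹ ^ 2 := by
      unfold wC
      have h1 := h.z31
      have h2 := h.z3l
      rw [inv_div]
      field_simp
      ring
    have h2 : (1 + L + (wC L z)⁻¹ - L * z⁻¹ ^ 3) * z⁻¹ ^ 2 ∈ V := by
      have hp : ∀ n : ℕ, z⁻¹ ^ n ∈ V := fun n => V.toSubring.pow_mem hz n
      exact V.mul_mem _ _ (V.toSubring.sub_mem (V.add_mem _ _ (V.add_mem _ _ V.one_mem hL) hw)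
        (V.mul_mem _ _ hL (hp _))) (hp _)
    rwa [← h1] at h2

include h hL hL' hLL in
theorem zinv_mem (hw : (wC L z)⁻¹ ∈ V) (hz : z ∈ V) : z⁻¹ ∈ V := by
  have h0 := h.z0
  have h1 : z⁻¹ = L' * ((wC L z)⁻¹ + 1 + L - z ^ 3) * z ^ 2 := by
    have h3 : (wC L z)⁻¹ + 1 + L - z ^ 3 = L * z⁻¹ ^ 3 := by
      unfold wC
      have h1 := h.z31
      have h2 := h.z3l
      rw [inv_div]
      field_simp
      ring
    rw [h3, ← mul_assoc, mul_comm L' L, hLL]
    field_simp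
  have h2 : L' * ((wC L z)⁻¹ + 1 + L - z ^ 3) * z ^ 2 ∈ V :=
    V.mul_mem _ _ (V.mul_mem _ _ hL' (V.toSubring.sub_mem (V.add_mem _ _ (V.add_mem _ _ hw
      V.one_mem) hL) (V.toSubring.pow_mem hz 3))) (V.toSubring.pow_mem hz 2)
  rwa [← h1] at h2

end

end CVA_

open CVA_ in
theorem cva_proof : Stmt_CVA := by
  intro B F _ _ _ l z y hl h V hB
  obtain ⟨u, hu⟩ := hl.l0
  have hLL : algebraMap B F l * algebraMap B F (u⁻¹ : Bˣ) = 1 := by
    rw [← map_mul, ← hu, Units.mul_inv, map_one]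
  have hL := hB l
  have hL' := hB (u⁻¹ : Bˣ)
  rcases V.mem_or_inv_mem (wC (algebraMap B F l) z) with hw | hw
  · left
    have hi := i_mem V h hL hw
    have hq := q_mem V h hL _ hL' hLL hw hi
    have hn := nat_mem' V
    have hl1 : 1 - algebraMap B F l ∈ V := V.toSubring.sub_mem V.one_mem hL
    have hp : ∀ n : ℕ, zi z ^ n ∈ V := fun n => V.toSubring.pow_mem hi n
    have hqq : qq (algebraMap B F l) (zi z) ∈ V := by
      have h1 : qq (algebraMap B F l) (zi z) =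
          (((3 : ℕ) : F) * zi z ^ 2 + ((3 : ℕ) : F) * zi z + 1) *
          ((1 - algebraMap B F l) * zi z ^ 3 + ((3 : ℕ) : F) * zi z ^ 2 +
            ((3 : ℕ) : F) * zi z + 1) := by
        unfold qq qa qb
        push_cast
        ring
      rw [h1]
      exact V.mul_mem _ _ (V.add_mem _ _ (V.add_mem _ _ (V.mul_mem _ _ (hn _) (hp _))
        (V.mul_mem _ _ (hn _) hi)) V.one_mem) (V.add_mem _ _ (V.add_mem _ _ (V.add_mem _ _
        (V.mul_mem _ _ hl1 (hp _)) (V.mul_mem _ _ (hn _) (hp _))) (V.mul_mem _ _ (hn _) hi))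
        V.one_mem)
    have hY : yi z y ∈ V := by
      apply of_sq
      rw [h.eqi]
      exact V.mul_mem _ _ (V.mul_mem _ _ hi (V.add_mem _ _ hi V.one_mem)) hqq
    apply adj V hB
    intro k hk
    have hk3 : k < 3 := by
      rcases hk with ⟨-, hk⟩ | ⟨hk, -⟩
      · exact hk
      · simp [ca, Cov.one] at hk
    fin_cases k
    · exact hi
    · exact hq
    · exact hY
    all_goals exact absurd hk3 (by decide)
  · right
    have hz := z_mem V h hL hw
    have hzi := zinv_mem V h hL _ hL' hLL hw hz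
    have hY : y ∈ V := by
      apply of_sq
      rw [h.eqn]
      exact V.mul_mem _ _ hz (V.mul_mem _ _
        (V.toSubring.sub_mem (V.toSubring.pow_mem hz 3) V.one_mem)
        (V.toSubring.sub_mem (V.toSubring.pow_mem hz 3) hL))
    apply adj V hB
    intro k hk
    have hk3 : 3 ≤ k := by
      rcases hk with ⟨hk, -⟩ | ⟨-, hk⟩
      · simp [cb, Cov.one] at hk
      · exact hk
    fin_cases k
    rotate_left 3
    · exact hz
    · exact hzi
    · exact hY
    all_goals exact absurd hk3 (by decide)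

end Pool.CRD
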