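import Pool.Agent.CRD.Crv.Stmts

/-!
# CRD area CRV, DDK: `K[z, y]` is a Dedekind domain
-/

open Polynomial TensorProduct

namespace Pool.CRD

namespace DDK_

variable {K : Type} [Field K] {f : K[X]} {F : Type} [Field F] [Algebra K F] {z y : F}

open scoped IntermediateField.algebraAdjoinAdjoin

theorem mem_D {x : F} : x ∈ Algebra.adjoin K {z} ↔ ∃ p : K[X], aeval z p = x := by
  rw [Algebra.adjoin_singleton_eq_range_aeval]
  rfl

theorem pid_D (K : Type) [Field K] {F : Type} [Field F] [Algebra K F] (z : F) :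
    IsPrincipalIdealRing (Algebra.adjoin K {z}) := by
  have hmem : ∀ g : K[X], aeval z g ∈ Algebra.adjoin K {z} := fun g => mem_D.mpr ⟨g, rfl⟩
  let φ : K[X] →+* Algebra.adjoin K {z} :=
    ((aeval z : K[X] →ₐ[K] F).codRestrict (Algebra.adjoin K {z}) hmem).toRingHom
  have hφ : Function.Surjective φ := by
    rintro ⟨x, hx⟩
    obtain ⟨g, hg⟩ := mem_D.mp hx
    exact ⟨g, Subtype.ext hg⟩
  exact IsPrincipalIdealRing.of_surjective φ hφ

/-- elements of `K(z)` integral over `K[z]` -/
theorem mem_D_of_integral {a : F} (ha : a ∈ IntermediateField.adjoin K {z})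
    (h : IsIntegral (Algebra.adjoin K {z}) a) : a ∈ Algebra.adjoin K {z} := by
  have := pid_D K z
  have h1 : IsIntegral (Algebra.adjoin K {z}) (⟨a, ha⟩ : IntermediateField.adjoin K {z}) := by
    have h2 := (isIntegral_algebraMap_iff (R := Algebra.adjoin K {z})
      (A := IntermediateField.adjoin K {z}) (B := F) (x := ⟨a, ha⟩)
      (algebraMap (IntermediateField.adjoin K {z}) F).injective).mp
    exact h2 h
  obtain ⟨d, hd⟩ := (IsIntegrallyClosed.isIntegral_iff (R := Algebra.adjoin K {z})
    (K := IntermediateField.adjoin K {z})).mp h1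
  have h3 := congrArg Subtype.val hd
  have h4 : ((d : Algebra.adjoin K {z}) : F) = a := h3
  rw [← h4]
  exact d.2

/-- powers of conjugate elements -/
theorem conj_pow (H : Dbl K f F z y) {a b : F} (ha : a ∈ IntermediateField.adjoin K {z})
    (hb : b ∈ IntermediateField.adjoin K {z}) (n : ℕ) :
    ∃ u ∈ IntermediateField.adjoin K {z}, ∃ v ∈ IntermediateField.adjoin K {z},
      (a + b * y) ^ n = u + v * y ∧ (a - b * y) ^ n = u - v * y := by
  have hf : y ^ 2 ∈ IntermediateField.adjoin K {z} := by
    rw [H.eqn]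
    exact IntermediateField.algebra_adjoin_le_adjoin K {z} (mem_D.mpr ⟨f, rfl⟩)
  induction n with
  | zero => exact ⟨1, one_mem _, 0, zero_mem _, by simp, by simp⟩
  | succ n ih =>
    obtain ⟨u, hu, v, hv, h1, h2⟩ := ih
    refine ⟨u * a + v * b * y ^ 2, add_mem (mul_mem hu ha) (mul_mem (mul_mem hv hb) hf),
      u * b + v * a, add_mem (mul_mem hu hb) (mul_mem hv ha), ?_, ?_⟩
    · rw [pow_succ, h1]; ring
    · rw [pow_succ, h2]; ring

theorem conj_poly (H : Dbl K f F z y) {a b : F} (ha : a ∈ IntermediateField.adjoin K {z})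
    (hb : b ∈ IntermediateField.adjoin K {z}) (P : (Algebra.adjoin K {z})[X]) :
    ∃ u ∈ IntermediateField.adjoin K {z}, ∃ v ∈ IntermediateField.adjoin K {z},
      P.eval₂ (algebraMap (Algebra.adjoin K {z}) F) (a + b * y) = u + v * y ∧
      P.eval₂ (algebraMap (Algebra.adjoin K {z}) F) (a - b * y) = u - v * y := by
  induction P using Polynomial.induction_on' with
  | add p q hp hq =>
    obtain ⟨u, hu, v, hv, h1, h2⟩ := hp
    obtain ⟨u', hu', v', hv', h1', h2'⟩ := hq
    refine ⟨u + u', add_mem hu hu', v + v', add_mem hv hv', ?_, ?_⟩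
    · rw [eval₂_add, h1, h1']; ring
    · rw [eval₂_add, h2, h2']; ring
  | monomial n c =>
    obtain ⟨u, hu, v, hv, h1, h2⟩ := conj_pow H ha hb n
    have hc : (algebraMap (Algebra.adjoin K {z}) F c) ∈ IntermediateField.adjoin K {z} :=
      IntermediateField.algebra_adjoin_le_adjoin K {z} c.2
    refine ⟨_, mul_mem hc hu, _, mul_mem hc hv, ?_, ?_⟩
    · rw [eval₂_monomial, h1]; ring
    · rw [eval₂_monomial, h2]; ring

theorem conj_integral (H : Dbl K f F z y) {a b : F} (ha : a ∈ IntermediateField.adjoin K {z})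
    (hb : b ∈ IntermediateField.adjoin K {z})
    (h : IsIntegral (Algebra.adjoin K {z}) (a + b * y)) :
    IsIntegral (Algebra.adjoin K {z}) (a - b * y) := by
  obtain ⟨P, hP, h0⟩ := h
  obtain ⟨u, hu, v, hv, h1, h2⟩ := conj_poly H ha hb P
  refine ⟨P, hP, ?_⟩
  have h3 : u + v * y = 0 := by rw [← h1]; exact h0
  obtain ⟨h4, h5⟩ := H.indep u hu v hv h3
  rw [h2, h4, h5]; ring

/-- `b² f ∈ K[z]` implies `b ∈ K[z]` -/
theorem mem_D_of_sq (H : Dbl K f F z y) (hf : Squarefree f) {b : F}
    (hb : b ∈ IntermediateField.adjoin K {z}) (h : b ^ 2 * aeval z f ∈ Algebra.adjoin K {z}) :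
    b ∈ Algebra.adjoin K {z} := by
  obtain ⟨r, s, hrs⟩ := (IntermediateField.mem_adjoin_simple_iff K b).mp hb
  by_cases hb0 : b = 0
  · rw [hb0]; exact zero_mem _
  have hinj : ∀ p q : K[X], aeval z p = aeval z q → p = q := by
    intro p q hpq
    exact transcendental_iff_injective.mp H.tr hpq
  have hs0 : s ≠ 0 := by
    rintro rfl
    apply hb0
    rw [hrs, map_zero, div_zero]
  obtain ⟨q, p, c, hrel, hcq, hcp⟩ := UniqueFactorizationMonoid.exists_reduced_factors s hs0 r
  have hc0 : c ≠ 0 := by
    rintro rfl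
    rw [zero_mul] at hcq
    exact hs0 hcq.symm
  have hq0 : q ≠ 0 := by
    rintro rfl
    rw [mul_zero] at hcq
    exact hs0 hcq.symm
  have hnz : ∀ t : K[X], t ≠ 0 → aeval z t ≠ 0 := by
    intro t ht h0
    apply ht
    apply hinj
    rw [h0, map_zero]
  have hbpq : b = aeval z p / aeval z q := by
    rw [hrs, ← hcq, ← hcp, map_mul, map_mul, mul_div_mul_left _ _ (hnz c hc0)]
  obtain ⟨g, hg⟩ := mem_D.mp h
  have hq0' := hnz q hq0
  have key : p ^ 2 * f = q ^ 2 * g := by
    apply hinj
    rw [map_mul, map_mul, map_pow, map_pow, hg, hbpq]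
    field_simp
  have hcop : IsCoprime q p := hrel.isCoprime
  have hdvd : q ^ 2 ∣ f := by
    have h1 : q ^ 2 ∣ p ^ 2 * f := ⟨g, key⟩
    exact (hcop.pow (m := 2) (n := 2)).dvd_of_dvd_mul_left h1
  have hunit : IsUnit q := hf q (by rwa [← sq])
  obtain ⟨u, hu, hqu⟩ := Polynomial.isUnit_iff.mp hunit
  have hu0 : u ≠ 0 := hu.ne_zero
  rw [hbpq, ← hqu, aeval_C]
  apply mem_D.mpr
  refine ⟨C u⁻¹ * p, ?_⟩
  rw [map_mul, aeval_C, map_inv₀]
  field_simp

end DDK_

open DDK_ in
open scoped IntermediateField.algebraAdjoinAdjoin in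
theorem ddk_proof : Stmt_DDK := by
  intro K _ f F _ _ z y H hf h2
  have hpid := pid_D K z
  have hzC : Algebra.adjoin K {z} ≤ Algebra.adjoin K {z, y} :=
    Algebra.adjoin_mono (by intro x hx; left; exact hx)
  let _ : Algebra (Algebra.adjoin K {z}) (Algebra.adjoin K {z, y}) :=
    (Subalgebra.inclusion hzC).toAlgebra
  have _ : IsScalarTower (Algebra.adjoin K {z}) (Algebra.adjoin K {z, y}) F :=
    Subalgebra.inclusion.isScalarTower_right hzC F
  have hy2 : y ^ 2 ∈ Algebra.adjoin K {z} := by
    rw [H.eqn]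
    exact mem_D.mpr ⟨f, rfl⟩
  have hyint : IsIntegral (Algebra.adjoin K {z}) y := by
    refine IsIntegral.of_pow (n := 2) (by norm_num) ?_
    exact isIntegral_algebraMap (R := Algebra.adjoin K {z}) (A := F) (x := ⟨_, hy2⟩)
  -- finite separable
  have hyK : IsIntegral (IntermediateField.adjoin K {z}) y := hyint.tower_top
  have htop : IntermediateField.adjoin (IntermediateField.adjoin K {z}) {y} = ⊤ := by
    rw [eq_top_iff]
    intro x _
    obtain ⟨a, ha, b, hb, rfl⟩ := H.gen x
    refine add_mem ?_ (mul_mem ?_ (IntermediateField.mem_adjoin_simple_self _ y))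
    · exact IntermediateField.algebraMap_mem _ (⟨a, ha⟩ : IntermediateField.adjoin K {z})
    · exact IntermediateField.algebraMap_mem _ (⟨b, hb⟩ : IntermediateField.adjoin K {z})
  have hfin : FiniteDimensional (IntermediateField.adjoin K {z}) F := by
    have h1 := IntermediateField.adjoin.finiteDimensional hyK
    rw [htop] at h1
    exact Module.Finite.equiv (IntermediateField.topEquiv
      (F := IntermediateField.adjoin K {z}) (E := F)).toLinearEquiv
  have hy0 : y ≠ 0 := by
    intro h0
    have h1 := H.eqn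
    rw [h0, zero_pow two_ne_zero] at h1
    exact hf.ne_zero (transcendental_iff_injective.mp H.tr (by rw [map_zero]; exact h1.symm))
  have hF2 : (2 : F) ≠ 0 := by
    intro h0
    apply h2
    apply (algebraMap K F).injective
    rw [map_ofNat, map_zero, h0]
  have hsep : Algebra.IsSeparable (IntermediateField.adjoin K {z}) F := by
    have h1 : IsSeparable (IntermediateField.adjoin K {z}) y := by
      have hmem : y ^ 2 ∈ IntermediateField.adjoin K {z} :=
        IntermediateField.algebra_adjoin_le_adjoin K {z} hy2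
      set c : IntermediateField.adjoin K {z} := ⟨y ^ 2, hmem⟩ with hc
      have hc0 : c ≠ 0 := by
        intro h0
        have h3 := congrArg Subtype.val h0
        exact pow_ne_zero 2 hy0 h3
      have h20 : ((2 : ℕ) : IntermediateField.adjoin K {z}) ≠ 0 := by
        intro h0
        apply hF2
        have h3 := congrArg (algebraMap (IntermediateField.adjoin K {z}) F) h0
        rw [map_natCast, map_zero] at h3
        exact_mod_cast h3
      have hsepP : (X ^ 2 - C c : (IntermediateField.adjoin K {z})[X]).Separable :=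
        Polynomial.separable_X_pow_sub_C c h20 hc0
      refine hsepP.of_dvd (minpoly.dvd _ _ ?_)
      rw [map_sub, map_pow, aeval_X, aeval_C]
      exact sub_self _
    have h4 := (IntermediateField.isSeparable_adjoin_simple_iff_isSeparable
      (F := IntermediateField.adjoin K {z}) (E := F) (x := y)).mpr h1
    rw [htop] at h4
    exact Algebra.IsSeparable.of_equiv_equiv (RingEquiv.refl _)
      (IntermediateField.topEquiv (F := IntermediateField.adjoin K {z}) (E := F)).toRingEquiv rfl
  have hclosure : IsIntegralClosure (Algebra.adjoin K {z, y}) (Algebra.adjoin K {z}) F := by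
    refine ⟨Subtype.val_injective, ?_⟩
    intro x
    constructor
    · intro hx
      obtain ⟨a, ha, b, hb, hab⟩ := H.gen x
      rw [hab] at hx
      have hx' := conj_integral H ha hb hx
      have ha2 : IsIntegral (Algebra.adjoin K {z}) (2 * a) := by
        have h3 := hx.add hx'
        have h4 : a + b * y + (a - b * y) = 2 * a := by ring
        rwa [h4] at h3
      have haD : 2 * a ∈ Algebra.adjoin K {z} :=
        mem_D_of_integral (mul_mem (ofNat_mem _ 2) ha) ha2
      have haD' : a ∈ Algebra.adjoin K {z} := by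
        have h3 : a = algebraMap K F (2⁻¹) * (2 * a) := by
          rw [map_inv₀, map_ofNat]
          field_simp
        rw [h3]
        exact mul_mem (Subalgebra.algebraMap_mem _ _) haD
      have hn : IsIntegral (Algebra.adjoin K {z}) (a ^ 2 - b ^ 2 * aeval z f) := by
        have h3 := hx.mul hx'
        have h4 : (a + b * y) * (a - b * y) = a ^ 2 - b ^ 2 * aeval z f := by
          rw [← H.eqn]; ring
        rwa [h4] at h3
      have hfz : aeval z f ∈ IntermediateField.adjoin K {z} :=
        IntermediateField.algebra_adjoin_le_adjoin K {z} (mem_D.mpr ⟨f, rfl⟩)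
      have hnD := mem_D_of_integral (sub_mem (pow_mem ha 2) (mul_mem (pow_mem hb 2) hfz)) hn
      have hbD : b ∈ Algebra.adjoin K {z} := by
        apply mem_D_of_sq H hf hb
        have h3 : b ^ 2 * aeval z f = a ^ 2 - (a ^ 2 - b ^ 2 * aeval z f) := by ring
        rw [h3]
        exact sub_mem (pow_mem haD' 2) hnD
      have hxC : x ∈ Algebra.adjoin K {z, y} := by
        rw [hab]
        exact add_mem (hzC haD') (mul_mem (hzC hbD) (Algebra.subset_adjoin (by right; rfl)))
      exact ⟨⟨x, hxC⟩, rfl⟩
    · rintro ⟨w, rfl⟩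
      have hle : Algebra.adjoin K {z, y} ≤
          (integralClosure (Algebra.adjoin K {z}) F).restrictScalars K := by
        rw [Algebra.adjoin_le_iff]
        rintro t (rfl | rfl)
        · exact isIntegral_algebraMap (R := Algebra.adjoin K {t}) (A := F)
            (x := ⟨_, Algebra.self_mem_adjoin_singleton K t⟩)
        · exact hyint
      exact hle w.2
  exact IsIntegralClosure.isDedekindDomain (Algebra.adjoin K {z}) (IntermediateField.adjoin K {z})
    F (Algebra.adjoin K {z, y})

end Pool.CRD
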