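import Pool.Agent.CRD.Crv.Stmts

/-!
# CRD / Crv / DEX: existence of the double cover `y² = f(z)`
-/

open Polynomial

namespace Pool.CRD

namespace DEX_

/-- the quadratic extension of `k(X)` -/
abbrev Q (k : Type) [Field k] (a : RatFunc k) : Type := QuadraticAlgebra (RatFunc k) a 0

/-- the inclusion of `k(X)` -/
noncomputable def io (k : Type) [Field k] (a : RatFunc k) : RatFunc k →ₐ[k] Q k a :=
  IsScalarTower.toAlgHom k (RatFunc k) (Q k a)

theorem io_re {k : Type} [Field k] {a : RatFunc k} (x : RatFunc k) : (io k a x).re = x := rfl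
theorem io_im {k : Type} [Field k] {a : RatFunc k} (x : RatFunc k) : (io k a x).im = 0 := rfl

end DEX_

open DEX_

theorem dex_proof : Stmt_DEX := by
  intro k _ f hf
  set a : RatFunc k := algebraMap k[X] (RatFunc k) f with ha
  have hfact : Fact (∀ r : RatFunc k, r ^ 2 ≠ a + 0 * r) := ⟨fun r h => hf r (by simpa using h)⟩
  let y : Q k a := ⟨0, 1⟩
  have hadj : ∀ x : Q k a, x ∈ IntermediateField.adjoin k {io k a RatFunc.X} ↔
      ∃ b, io k a b = x := by
    intro x
    have h1 : IntermediateField.adjoin k {io k a RatFunc.X} =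
        (IntermediateField.adjoin k {(RatFunc.X : RatFunc k)}).map (io k a) := by
      rw [IntermediateField.adjoin_map, Set.image_singleton]
    rw [h1, RatFunc.adjoin_X]
    constructor
    · rintro ⟨b, -, hb⟩
      exact ⟨b, hb⟩
    · rintro ⟨b, hb⟩
      exact ⟨b, trivial, hb⟩
  have htr : Transcendental k (io k a RatFunc.X) :=
    (transcendental_algebraMap_iff (algebraMap (RatFunc k) (Q k a)).injective).2
      RatFunc.transcendental_X
  have heqn : y ^ 2 = aeval (io k a RatFunc.X) f := by
    rw [aeval_algHom_apply, RatFunc.aeval_X_left_eq_algebraMap, ← ha, pow_two]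
    apply QuadraticAlgebra.ext
    · rw [QuadraticAlgebra.re_mul, io_re]
      simp [y]
    · rw [QuadraticAlgebra.im_mul, io_im]
      simp [y]
  refine ⟨{ F := Q k a, z := io k a RatFunc.X, y := y, dbl := ⟨htr, heqn, ?_, ?_⟩ }⟩
  · intro p hp q hq h
    obtain ⟨p, rfl⟩ := (hadj p).1 hp
    obtain ⟨q, rfl⟩ := (hadj q).1 hq
    have h1 := congrArg QuadraticAlgebra.re h
    have h2 := congrArg QuadraticAlgebra.im h
    rw [QuadraticAlgebra.re_add, QuadraticAlgebra.re_mul, io_re, io_re, io_im] at h1
    rw [QuadraticAlgebra.im_add, QuadraticAlgebra.im_mul, io_re, io_im, io_im] at h2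
    have h3 : p = 0 := by simpa [y] using h1
    have h4 : q = 0 := by simpa [y] using h2
    rw [h3, h4]
    exact ⟨map_zero _, map_zero _⟩
  · intro x
    refine ⟨io k a x.re, (hadj _).2 ⟨_, rfl⟩, io k a x.im, (hadj _).2 ⟨_, rfl⟩, ?_⟩
    apply QuadraticAlgebra.ext
    · rw [QuadraticAlgebra.re_add, QuadraticAlgebra.re_mul, io_re, io_re, io_im]
      simp [y]
    · rw [QuadraticAlgebra.im_add, QuadraticAlgebra.im_mul, io_re, io_im, io_im]
      simp [y]

end Pool.CRD
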