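import Pool.Agent.CRD.Crv.Stmts

/-!
# CRD / Crv: the conic in the second coordinate system
-/

open Polynomial TensorProduct

namespace Pool.CRD

theorem div_proof : Stmt_DIV := by
  intro L E _ _ _ u v η ζ hv h
  have hη : η ≠ 0 := by
    intro h0
    exact h.tr (h0 ▸ isAlgebraic_zero)
  have hadj : IntermediateField.adjoin L {η⁻¹} = IntermediateField.adjoin L {η} := by
    apply le_antisymm
    · rw [IntermediateField.adjoin_simple_le_iff]
      exact inv_mem (IntermediateField.mem_adjoin_simple_self L η)
    · rw [IntermediateField.adjoin_simple_le_iff]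
      have := inv_mem (IntermediateField.mem_adjoin_simple_self L η⁻¹)
      rwa [inv_inv] at this
  have hηm : η ∈ IntermediateField.adjoin L {η} := IntermediateField.mem_adjoin_simple_self L η
  refine ⟨?_, ?_, ?_, ?_⟩
  · intro halg
    apply h.tr
    have := halg.inv
    rwa [inv_inv] at this
  · have h1 := h.eqn
    simp only [map_mul, aeval_C, map_sub, map_one, map_pow, aeval_X] at h1 ⊢
    rw [div_pow, h1]
    field_simp
  · intro a ha b hb hab
    rw [hadj] at ha hb
    have h1 : a * η + b * ζ = 0 := by
      have : (a + b * (ζ / η)) * η = a * η + b * ζ := by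
        field_simp
      rw [← this, hab, zero_mul]
    obtain ⟨h2, h3⟩ := h.indep _ (mul_mem ha hηm) _ hb h1
    exact ⟨(mul_eq_zero.1 h2).resolve_right hη, h3⟩
  · intro x
    obtain ⟨a, ha, b, hb, hx⟩ := h.gen x
    rw [hadj]
    refine ⟨a, ha, b * η, mul_mem hb hηm, ?_⟩
    rw [hx]
    field_simp

end Pool.CRD
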