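import Pool.Agent.CRD.Crv.Stmts

/-!
# CRD: localisations of Dedekind domains inside a field
-/

open Polynomial TensorProduct

namespace Pool.CRD

noncomputable section

namespace DLO_

variable {K F : Type} [Field K] [Field F] [Algebra K F]

/-- elements with a denominator `a ^ n` -/
def loc (A : Subalgebra K F) (a : F) (ha : a ∈ A) : Subalgebra K F where
  carrier := {z | ∃ n : ℕ, z * a ^ n ∈ A}
  mul_mem' := by
    rintro z w ⟨n, hn⟩ ⟨m, hm⟩
    refine ⟨n + m, ?_⟩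
    have h : z * w * a ^ (n + m) = (z * a ^ n) * (w * a ^ m) := by ring
    rw [h]
    exact mul_mem hn hm
  add_mem' := by
    rintro z w ⟨n, hn⟩ ⟨m, hm⟩
    refine ⟨n + m, ?_⟩
    have h : (z + w) * a ^ (n + m) = (z * a ^ n) * a ^ m + (w * a ^ m) * a ^ n := by ring
    rw [h]
    exact add_mem (mul_mem hn (pow_mem ha m)) (mul_mem hm (pow_mem ha n))
  algebraMap_mem' := fun r => ⟨0, by rw [pow_zero, mul_one]; exact A.algebraMap_mem r⟩

theorem le_loc (A : Subalgebra K F) (a : F) (ha : a ∈ A) (ha0 : a ≠ 0) :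
    A ⊔ Algebra.adjoin K {a⁻¹} ≤ loc A a ha := by
  refine sup_le ?_ ?_
  · intro z hz
    exact ⟨0, by rw [pow_zero, mul_one]; exact hz⟩
  · refine Algebra.adjoin_le ?_
    intro z hz
    rw [Set.mem_singleton_iff] at hz
    refine ⟨1, ?_⟩
    rw [hz, pow_one, inv_mul_cancel₀ ha0]
    exact A.one_mem

end DLO_

theorem DLO_proof : Stmt_DLO := by
  intro K F _ _ _ A a ha ha0 hA
  have hle : A ≤ A ⊔ Algebra.adjoin K {a⁻¹} := le_sup_left
  let _ : Algebra A (A ⊔ Algebra.adjoin K {a⁻¹} : Subalgebra K F) :=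
    (Subalgebra.inclusion hle).toRingHom.toAlgebra
  have hmap : ∀ x : A, ((algebraMap A (A ⊔ Algebra.adjoin K {a⁻¹} : Subalgebra K F) x :
      (A ⊔ Algebra.adjoin K {a⁻¹} : Subalgebra K F)) : F) = x := fun x => rfl
  have hainv : a⁻¹ ∈ (A ⊔ Algebra.adjoin K {a⁻¹} : Subalgebra K F) :=
    (le_sup_right : Algebra.adjoin K {a⁻¹} ≤ _) (Algebra.subset_adjoin rfl)
  have hne : (⟨a, ha⟩ : A) ≠ 0 := fun h => ha0 (congrArg Subtype.val h)
  have hloc : IsLocalization (Submonoid.powers (⟨a, ha⟩ : A))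
      (A ⊔ Algebra.adjoin K {a⁻¹} : Subalgebra K F) := by
    refine ⟨?_, ?_, ?_⟩
    · rintro ⟨_, n, rfl⟩
      have hu : IsUnit (algebraMap A (A ⊔ Algebra.adjoin K {a⁻¹} : Subalgebra K F) ⟨a, ha⟩) := by
        refine IsUnit.of_mul_eq_one ⟨a⁻¹, hainv⟩ (Subtype.ext ?_)
        exact mul_inv_cancel₀ ha0
      change IsUnit (algebraMap A (A ⊔ Algebra.adjoin K {a⁻¹} : Subalgebra K F)
        ((⟨a, ha⟩ : A) ^ n))
      rw [map_pow]
      exact hu.pow n
    · intro z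
      obtain ⟨n, hn⟩ := DLO_.le_loc A a ha ha0 z.2
      exact ⟨(⟨_, hn⟩, ⟨_, n, rfl⟩), Subtype.ext rfl⟩
    · intro x y hxy
      refine ⟨1, ?_⟩
      have h1 : x = y := Subalgebra.inclusion_injective hle hxy
      rw [h1]
  exact IsLocalization.isDedekindDomain A (powers_le_nonZeroDivisors_of_noZeroDivisors hne) _

end

end Pool.CRD
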