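import Pool.Agent.CRD.Crv.Stmts

open Polynomial TensorProduct

namespace Pool.CRD

noncomputable section

namespace DMP_

/-- the homomorphism `k(z) → L`, `z ↦ z'` -/
def psi {k F L : Type} [Field k] [Field F] [Algebra k F] [Field L] [Algebra k L] {z : F} {z' : L}
    (hz : Transcendental k z) (hz' : Transcendental k z') :
    IntermediateField.adjoin k {z} →ₐ[k] L :=
  (IntermediateField.adjoin k {z'}).val.comp
    (((RatFunc.algEquivOfTranscendental z' hz').toAlgHom).comp
      (RatFunc.algEquivOfTranscendental z hz).symm.toAlgHom)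

theorem psi_gen {k F L : Type} [Field k] [Field F] [Algebra k F] [Field L] [Algebra k L] {z : F}
    {z' : L} (hz : Transcendental k z) (hz' : Transcendental k z') :
    psi hz hz' (IntermediateField.AdjoinSimple.gen k z) = z' := by
  change ((RatFunc.algEquivOfTranscendental z' hz')
    ((RatFunc.algEquivOfTranscendental z hz).symm (IntermediateField.AdjoinSimple.gen k z)) : L) = _
  rw [RatFunc.algEquivOfTranscendental_symm_gen, RatFunc.algEquivOfTranscendental_X]

end DMP_

open DMP_ in
theorem dmp_proof : Stmt_DMP := by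
  intro k _ f F _ _ z y hd L _ _ z' y' hz' hy'
  let E := IntermediateField.adjoin k {z}
  let ψ := psi hd.tr hz'
  have hgen : ∀ x : F, ∃ a b : E, x = (a : F) + b * y := by
    intro x
    obtain ⟨a, ha, b, hb, h⟩ := hd.gen x
    exact ⟨⟨a, ha⟩, ⟨b, hb⟩, h⟩
  choose A B hAB using hgen
  have huniq : ∀ (x : F) (a b : E), x = (a : F) + b * y → A x = a ∧ B x = b := by
    intro x a b h
    have h1 : ((A x - a : E) : F) + ((B x - b : E) : F) * y = 0 := by
      have h2 := hAB x
      push_cast
      linear_combination h - h2
    obtain ⟨h3, h4⟩ := hd.indep _ (A x - a).2 _ (B x - b).2 h1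
    exact ⟨sub_eq_zero.1 (Subtype.ext h3), sub_eq_zero.1 (Subtype.ext h4)⟩
  have hf : ((aeval (IntermediateField.AdjoinSimple.gen k z) f : E) : F) = y ^ 2 := by
    rw [hd.eqn]
    exact (aeval_algHom_apply (IntermediateField.adjoin k {z}).val
      (IntermediateField.AdjoinSimple.gen k z) f).symm
  have hψf : ψ (aeval (IntermediateField.AdjoinSimple.gen k z) f) = y' ^ 2 := by
    rw [hy', ← aeval_algHom_apply, psi_gen]
  let φ₀ : F → L := fun x => ψ (A x) + ψ (B x) * y'
  have hφ : ∀ (x : F) (a b : E), x = (a : F) + b * y → φ₀ x = ψ a + ψ b * y' := by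
    intro x a b h
    obtain ⟨h1, h2⟩ := huniq x a b h
    change ψ (A x) + ψ (B x) * y' = _
    rw [h1, h2]
  have hmul : ∀ x x' : F, φ₀ (x * x') = φ₀ x * φ₀ x' := by
    intro x x'
    rw [hφ (x * x') (A x * A x' + B x * B x' * aeval (IntermediateField.AdjoinSimple.gen k z) f)
      (A x * B x' + B x * A x')]
    · change _ = (ψ (A x) + ψ (B x) * y') * (ψ (A x') + ψ (B x') * y')
      rw [map_add, map_add, map_mul, map_mul, map_mul, map_mul, map_mul, hψf]
      ring
    · push_cast
      rw [hf]
      have h1 := hAB x
      have h2 := hAB x'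
      linear_combination (x') * h1 + ((A x : F) + B x * y) * h2
  have hadd : ∀ x x' : F, φ₀ (x + x') = φ₀ x + φ₀ x' := by
    intro x x'
    rw [hφ (x + x') (A x + A x') (B x + B x')]
    · change _ = (ψ (A x) + ψ (B x) * y') + (ψ (A x') + ψ (B x') * y')
      rw [map_add, map_add]
      ring
    · push_cast
      linear_combination hAB x + hAB x'
  have halg : ∀ r : k, φ₀ (algebraMap k F r) = algebraMap k L r := by
    intro r
    rw [hφ (algebraMap k F r) (algebraMap k E r) 0]
    · rw [map_zero, zero_mul, add_zero]
      exact ψ.commutes r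
    · change algebraMap k F r = algebraMap k F r + ((0 : E) : F) * y
      rw [ZeroMemClass.coe_zero, zero_mul, add_zero]
  refine ⟨{ toFun := φ₀
            map_one' := ?_
            map_mul' := hmul
            map_zero' := ?_
            map_add' := hadd
            commutes' := halg }, ?_, ?_⟩
  · have := halg 1
    rwa [map_one, map_one] at this
  · have := halg 0
    rwa [map_zero, map_zero] at this
  · change φ₀ z = z'
    rw [hφ z (IntermediateField.AdjoinSimple.gen k z) 0]
    · rw [map_zero, zero_mul, add_zero]
      exact psi_gen hd.tr hz'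
    · change z = z + ((0 : E) : F) * y
      rw [ZeroMemClass.coe_zero, zero_mul, add_zero]
  · change φ₀ y = y'
    rw [hφ y 0 1]
    · rw [map_zero, map_one, one_mul, zero_add]
    · change y = ((0 : E) : F) + ((1 : E) : F) * y
      rw [ZeroMemClass.coe_zero, OneMemClass.coe_one, zero_add, one_mul]

end

end Pool.CRD
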