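import Pool.Agent.CRD.Crv.Stmts

/-!
Module DTI of CRD: the tensor product of the function fields of a line and a double line.
-/

open Polynomial TensorProduct

namespace Pool.CRD

noncomputable section

namespace DTI_

lemma frac {k : Type} [Field k] {F : Type} [Field F] [Algebra k F] {z a : F}
    (ha : a ∈ IntermediateField.adjoin k {z}) :
    ∃ A D : k[X], aeval z D ≠ 0 ∧ a = aeval z A / aeval z D := by
  obtain ⟨r, s, h⟩ := (IntermediateField.mem_adjoin_simple_iff k a).1 ha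
  by_cases hs : aeval z s = 0
  · refine ⟨0, 1, by simp, ?_⟩
    rw [h, hs]
    simp
  · exact ⟨r, s, hs, h⟩

lemma aeval_mem {k : Type} [Field k] {F : Type} [Field F] [Algebra k F] (z : F) (P : k[X]) :
    aeval z P ∈ IntermediateField.adjoin k {z} :=
  (IntermediateField.mem_adjoin_simple_iff k _).2 ⟨P, 1, by simp⟩

section
variable {K : Type} [Field K] {F : Type} [Field F] [Algebra K F] {F₁ : Type} [Field F₁]
  [Algebra K F₁]

lemma hmap (z : F) (a : F₁) (A : K[X]) :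
    aeval ((1 : F₁) ⊗ₜ[K] z) (C a * A.map (algebraMap K F₁)) = a ⊗ₜ[K] (aeval z A) := by
  have h1 : aeval ((1 : F₁) ⊗ₜ[K] z) (A.map (algebraMap K F₁)) = (1 : F₁) ⊗ₜ[K] (aeval z A) := by
    rw [aeval_map_algebraMap]
    have h2 := (aeval_algHom_apply (Algebra.TensorProduct.includeRight : F →ₐ[K] F₁ ⊗[K] F) z A)
    exact h2
  rw [map_mul, aeval_C, h1]
  have h3 : algebraMap F₁ (F₁ ⊗[K] F) a = a ⊗ₜ[K] 1 := rfl
  rw [h3, Algebra.TensorProduct.tmul_mul_tmul, mul_one, one_mul]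

lemma hmap1 (z : F) (A : K[X]) :
    aeval ((1 : F₁) ⊗ₜ[K] z) (A.map (algebraMap K F₁)) = (1 : F₁) ⊗ₜ[K] (aeval z A) := by
  have h := hmap z (1 : F₁) A
  rwa [C_1, one_mul] at h

/-- the multiplication by a denominator -/
lemma denom {f : K[X]} {z y : F} (h : Dbl K f F z y) (t : F₁ ⊗[K] F) :
    ∃ D : K[X], aeval z D ≠ 0 ∧ ∃ P Q : F₁[X],
      ((1 : F₁) ⊗ₜ[K] aeval z D) * t =
        aeval ((1 : F₁) ⊗ₜ[K] z) P + aeval ((1 : F₁) ⊗ₜ[K] z) Q * ((1 : F₁) ⊗ₜ[K] y) := by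
  induction t using TensorProduct.induction_on with
  | zero => exact ⟨1, by simp, 0, 0, by simp⟩
  | tmul a b =>
    obtain ⟨u, hu, v, hv, hb⟩ := h.gen b
    obtain ⟨A, D, hD, hA⟩ := frac hu
    obtain ⟨B, E, hE, hB⟩ := frac hv
    refine ⟨D * E, by rw [map_mul]; exact mul_ne_zero hD hE, C a * (A * E).map (algebraMap K F₁),
      C a * (B * D).map (algebraMap K F₁), ?_⟩
    rw [hmap, hmap, Algebra.TensorProduct.tmul_mul_tmul, Algebra.TensorProduct.tmul_mul_tmul, one_mul,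
      mul_one, ← TensorProduct.tmul_add]
    congr 1
    rw [hb, hA, hB, map_mul, map_mul, map_mul]
    field_simp
  | add s t hs ht =>
    obtain ⟨D, hD, P, Q, h1⟩ := hs
    obtain ⟨D', hD', P', Q', h1'⟩ := ht
    refine ⟨D * D', by rw [map_mul]; exact mul_ne_zero hD hD',
      D'.map (algebraMap K F₁) * P + D.map (algebraMap K F₁) * P',
      D'.map (algebraMap K F₁) * Q + D.map (algebraMap K F₁) * Q', ?_⟩
    have h2 : ((1 : F₁) ⊗ₜ[K] aeval z (D * D')) = ((1 : F₁) ⊗ₜ[K] aeval z D) * ((1 : F₁) ⊗ₜ[K] aeval z D') := by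
      rw [Algebra.TensorProduct.tmul_mul_tmul, map_mul, mul_one]
    rw [h2, map_add, map_add, map_mul, map_mul, map_mul, map_mul, hmap1, hmap1]
    have h3 : ((1 : F₁) ⊗ₜ[K] aeval z D) * ((1 : F₁) ⊗ₜ[K] aeval z D') * (s + t) =
        ((1 : F₁) ⊗ₜ[K] aeval z D') * (((1 : F₁) ⊗ₜ[K] aeval z D) * s) +
        ((1 : F₁) ⊗ₜ[K] aeval z D) * (((1 : F₁) ⊗ₜ[K] aeval z D') * t) := by ring
    rw [h3, h1, h1']
    ring

end

end DTI_

open DTI_ in
theorem dti_proof : Stmt_DTI := by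
  intro K _ f F _ _ z y h F₁ L _ _ _ _ _ _ z' y' h' φ hz hy
  set μ := Algebra.TensorProduct.productMap (IsScalarTower.toAlgHom K F₁ L) φ with hμ
  have hμt : ∀ (a : F₁) (b : F), μ (a ⊗ₜ[K] b) = algebraMap F₁ L a * φ b := by
    intro a b
    rw [hμ, Algebra.TensorProduct.productMap_apply_tmul]
    rfl
  have hμP : ∀ P : F₁[X], μ (aeval ((1 : F₁) ⊗ₜ[K] z) P) = aeval z' P := by
    intro P
    rw [aeval_def, aeval_def]
    have h1 := Polynomial.hom_eval₂ P (algebraMap F₁ (F₁ ⊗[K] F)) (μ : F₁ ⊗[K] F →+* L)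
      ((1 : F₁) ⊗ₜ[K] z)
    have h2 : (μ : F₁ ⊗[K] F →+* L).comp (algebraMap F₁ (F₁ ⊗[K] F)) = algebraMap F₁ L := by
      ext a
      show μ (a ⊗ₜ[K] 1) = algebraMap F₁ L a
      rw [hμt, map_one, mul_one]
    have h3 : (μ : F₁ ⊗[K] F →+* L) ((1 : F₁) ⊗ₜ[K] z) = z' := by
      show μ ((1 : F₁) ⊗ₜ[K] z) = z'
      rw [hμt, map_one, one_mul, hz]
    rw [h2, h3] at h1
    exact h1
  have hμy : μ ((1 : F₁) ⊗ₜ[K] y) = y' := by rw [hμt, map_one, one_mul, hy]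
  constructor
  · rw [injective_iff_map_eq_zero]
    intro t ht
    obtain ⟨D, hD, P, Q, h1⟩ := denom h t
    have h2 : aeval z' P + aeval z' Q * y' = 0 := by
      have h3 := congrArg μ h1
      rw [map_mul, ht, mul_zero, map_add, map_mul, hμP, hμP, hμy] at h3
      exact h3.symm
    obtain ⟨h3, h4⟩ := h'.indep _ (aeval_mem z' P) _ (aeval_mem z' Q) h2
    have h5 : P = 0 := by
      by_contra hne
      exact h'.tr ⟨P, hne, h3⟩
    have h6 : Q = 0 := by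
      by_contra hne
      exact h'.tr ⟨Q, hne, h4⟩
    rw [h5, h6, map_zero, zero_mul, add_zero] at h1
    have h7 : ((1 : F₁) ⊗ₜ[K] (aeval z D)⁻¹) * (((1 : F₁) ⊗ₜ[K] aeval z D) * t) = t := by
      rw [← mul_assoc, Algebra.TensorProduct.tmul_mul_tmul, one_mul, inv_mul_cancel₀ hD,
        ← Algebra.TensorProduct.one_def, one_mul]
    rw [← h7, h1, mul_zero]
  · intro x
    obtain ⟨u, hu, v, hv, hx⟩ := h'.gen x
    obtain ⟨A, D, hD, hA⟩ := frac hu
    obtain ⟨B, E, hE, hB⟩ := frac hv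
    refine ⟨aeval ((1 : F₁) ⊗ₜ[K] z) (A * E) + aeval ((1 : F₁) ⊗ₜ[K] z) (B * D) * ((1 : F₁) ⊗ₜ[K] y),
      aeval ((1 : F₁) ⊗ₜ[K] z) (D * E), ?_, ?_⟩
    · rw [hμP, map_mul]
      exact mul_ne_zero hD hE
    · rw [map_add, map_mul μ, hμP, hμP, hμP, hμy, hx, hA, hB, map_mul, map_mul, map_mul]
      field_simp

end

end Pool.CRD
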