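import Pool.Agent.CRD.Crv.Stmts

/-!
# CRD, Crv: FRL
-/

open Polynomial TensorProduct

namespace Pool.CRD

namespace FRL_

variable (B K : Type) [CommRing B] [Field K] [Algebra B K]

lemma frMap_tmul {R E : Type} [CommRing R] [Algebra B R] [CommRing E] [Algebra K E] [Algebra B E]
    [IsScalarTower B K E] (θ : R →ₐ[B] E) (k : K) (r : R) :
    frMap B K θ (k ⊗ₜ r) = algebraMap K E k * θ r := by
  simp [frMap, Algebra.ofId_apply]

end FRL_

open FRL_ in
theorem frl_proof : Stmt_FRL := by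
  intro B K R E _ _ _ _ _ _ _ _ _ θ A hF r hr R' _ _ _ _ _ θ' hθ'
  let j : K ⊗[B] R →ₐ[K] K ⊗[B] R' :=
    Algebra.TensorProduct.map (AlgHom.id K K) (IsScalarTower.toAlgHom B R R')
  have hj : ∀ t, frMap B K θ' (j t) = frMap B K θ t := by
    intro t
    induction t using TensorProduct.induction_on with
    | zero => simp
    | tmul k x =>
      have : j (k ⊗ₜ x) = k ⊗ₜ algebraMap R R' x := by simp [j]
      rw [this, frMap_tmul, frMap_tmul, hθ']
    | add x y hx hy => rw [map_add, map_add, hx, hy, map_add]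
  have hu : IsUnit (algebraMap R R' r) := IsLocalization.Away.algebraMap_isUnit r
  have claim : ∀ t' : K ⊗[B] R', ∃ (n : ℕ) (t : K ⊗[B] R),
      ((1 : K) ⊗ₜ[B] (algebraMap R R' r)) ^ n * t' = j t := by
    intro t'
    induction t' using TensorProduct.induction_on with
    | zero => exact ⟨0, 0, by simp⟩
    | tmul k x' =>
      obtain ⟨n, a, ha⟩ := IsLocalization.Away.surj r x'
      refine ⟨n, k ⊗ₜ a, ?_⟩
      have : j (k ⊗ₜ a) = k ⊗ₜ algebraMap R R' a := by simp [j]
      rw [this, Algebra.TensorProduct.tmul_pow, one_pow, Algebra.TensorProduct.tmul_mul_tmul,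
        one_mul, ← ha, mul_comm]
    | add x y hx hy =>
      obtain ⟨n, a, ha⟩ := hx
      obtain ⟨m, b, hb⟩ := hy
      have hj1 : j ((1 : K) ⊗ₜ[B] r) = (1 : K) ⊗ₜ[B] (algebraMap R R' r) := by simp [j]
      refine ⟨n + m, ((1 : K) ⊗ₜ[B] r) ^ m * a + ((1 : K) ⊗ₜ[B] r) ^ n * b, ?_⟩
      rw [map_add, map_mul, map_mul, map_pow, map_pow, hj1, ← ha, ← hb]
      ring
  have hfr : frMap B K θ' ((1 : K) ⊗ₜ[B] (algebraMap R R' r)) = θ r := by
    rw [frMap_tmul, map_one, one_mul, hθ']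
  constructor
  · rw [injective_iff_map_eq_zero]
    intro t' ht'
    obtain ⟨n, t, ht⟩ := claim t'
    have h1 : frMap B K θ t = 0 := by
      rw [← hj, ← ht, map_mul, ht', mul_zero]
    have h2 : t = 0 := (injective_iff_map_eq_zero _).mp hF.inj t h1
    rw [h2, map_zero] at ht
    obtain ⟨u, hu'⟩ := hu
    have h3 : ((1 : K) ⊗ₜ[B] ((u⁻¹ : R'ˣ) : R')) * ((1 : K) ⊗ₜ[B] (algebraMap R R' r)) = 1 := by
      rw [Algebra.TensorProduct.tmul_mul_tmul, ← hu', Units.inv_mul, one_mul]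
      rfl
    calc t' = (((1 : K) ⊗ₜ[B] ((u⁻¹ : R'ˣ) : R')) * ((1 : K) ⊗ₜ[B] (algebraMap R R' r))) ^ n * t' := by
          rw [h3, one_pow, one_mul]
      _ = ((1 : K) ⊗ₜ[B] ((u⁻¹ : R'ˣ) : R')) ^ n * (((1 : K) ⊗ₜ[B] (algebraMap R R' r)) ^ n * t') := by
          ring
      _ = 0 := by rw [ht, mul_zero]
  · apply le_antisymm
    · rintro x ⟨t', rfl⟩
      obtain ⟨n, t, ht⟩ := claim t'
      have h1 : (θ r) ^ n * frMap B K θ' t' = frMap B K θ t := by
        rw [← hj, ← ht, map_mul, map_pow, hfr]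
      have h2 : frMap B K θ' t' = frMap B K θ t * ((θ r)⁻¹) ^ n := by
        rw [← h1, inv_pow]
        field_simp
      change frMap B K θ' t' ∈ _
      rw [h2]
      apply mul_mem
      · have : frMap B K θ t ∈ A := by
          rw [← hF.rng]
          exact ⟨t, rfl⟩
        exact (le_sup_left : A ≤ _) this
      · apply pow_mem
        exact (le_sup_right : Algebra.adjoin K {(θ r)⁻¹} ≤ _) (Algebra.subset_adjoin rfl)
    · apply sup_le
      · intro x hx
        rw [← hF.rng] at hx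
        obtain ⟨t, rfl⟩ := hx
        exact ⟨j t, hj t⟩
      · rw [Algebra.adjoin_le_iff]
        rintro x rfl
        obtain ⟨u, hu'⟩ := hu
        refine ⟨(1 : K) ⊗ₜ[B] ((u⁻¹ : R'ˣ) : R'), ?_⟩
        change frMap B K θ' _ = _
        rw [frMap_tmul, map_one, one_mul]
        apply eq_inv_of_mul_eq_one_left
        rw [← hθ', ← hu', ← map_mul, Units.inv_mul, map_one]

end Pool.CRD
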