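import Pool.Agent.CRD.Crv.Stmts

open Polynomial TensorProduct

set_option autoImplicit false

namespace Pool.CRD

namespace FRQ_

lemma frMap_tmul {B K R E : Type} [CommRing B] [Field K] [Algebra B K] [CommRing R] [Algebra B R]
    [CommRing E] [Algebra K E] [Algebra B E] [IsScalarTower B K E] (θ : R →ₐ[B] E) (k : K)
    (r : R) : frMap B K θ (k ⊗ₜ[B] r) = algebraMap K E k * θ r := by
  exact Algebra.TensorProduct.lift_tmul (Algebra.ofId K E) θ (fun _ _ => mul_comm _ _) k r

section
variable {B K R L E : Type} [CommRing B] [Field K] [Algebra B K] [CommRing R] [Algebra B R]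
    [Field L] [Algebra K L] [Algebra B L] [IsScalarTower B K L] [Field E] [Algebra L E]
    [Algebra K E] [IsScalarTower K L E] [Algebra B E] [IsScalarTower B K E]
    (f : R[X])

/-- the structure map -/
noncomputable def iot (B : Type) [CommRing B] [Algebra B R] :
    R →ₐ[B] QuadraticAlgebra R[X] f 0 :=
  (IsScalarTower.toAlgHom B R[X] (QuadraticAlgebra R[X] f 0)).comp
    (Polynomial.CAlgHom : R →ₐ[B] R[X])

lemma iot_apply (r : R) : iot f B r = algebraMap R[X] (QuadraticAlgebra R[X] f 0) (C r) := rfl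

/-- base change of the structure map -/
noncomputable def jj (B K : Type) [CommRing B] [Field K] [Algebra B K] [Algebra B R] :
    K ⊗[B] R →ₐ[K] K ⊗[B] QuadraticAlgebra R[X] f 0 :=
  Algebra.TensorProduct.map (AlgHom.id K K) (iot f B)

lemma jj_tmul (k : K) (r : R) : jj f B K (k ⊗ₜ[B] r) = k ⊗ₜ[B] iot f B r := by
  unfold jj
  rw [Algebra.TensorProduct.map_tmul]
  rfl

/-- evaluation -/
noncomputable def gg (B K : Type) [CommRing B] [Field K] [Algebra B K] [Algebra B R] :
    (K ⊗[B] R)[X] →+* K ⊗[B] QuadraticAlgebra R[X] f 0 :=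
  eval₂RingHom (jj f B K).toRingHom (1 ⊗ₜ[B] algebraMap R[X] (QuadraticAlgebra R[X] f 0) X)

lemma gg_C (t : K ⊗[B] R) : gg f B K (C t) = jj f B K t := by
  unfold gg
  rw [coe_eval₂RingHom, eval₂_C]
  rfl

lemma gg_X : gg f B K X = 1 ⊗ₜ[B] algebraMap R[X] (QuadraticAlgebra R[X] f 0) X := by
  unfold gg
  rw [coe_eval₂RingHom, eval₂_X]

lemma gg_map (p : R[X]) : gg f B K (p.map (Algebra.TensorProduct.includeRight :
    R →ₐ[B] K ⊗[B] R).toRingHom) = 1 ⊗ₜ[B] algebraMap R[X] (QuadraticAlgebra R[X] f 0) p := by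
  have h : (gg f B K).comp (Polynomial.mapRingHom (Algebra.TensorProduct.includeRight :
      R →ₐ[B] K ⊗[B] R).toRingHom) =
      (Algebra.TensorProduct.includeRight :
        QuadraticAlgebra R[X] f 0 →ₐ[B] K ⊗[B] QuadraticAlgebra R[X] f 0).toRingHom.comp
        (algebraMap R[X] (QuadraticAlgebra R[X] f 0)) := by
    apply Polynomial.ringHom_ext
    · intro r
      rw [RingHom.comp_apply, coe_mapRingHom, map_C, gg_C]
      change jj f B K (1 ⊗ₜ[B] r) = _
      rw [jj_tmul]
      rfl
    · rw [RingHom.comp_apply, coe_mapRingHom, map_X, gg_X]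
      rfl
  exact DFunLike.congr_fun h p

lemma surj (t : K ⊗[B] QuadraticAlgebra R[X] f 0) :
    ∃ P S : (K ⊗[B] R)[X], t = gg f B K P + gg f B K S *
      (1 ⊗ₜ[B] (QuadraticAlgebra.omega : QuadraticAlgebra R[X] f 0)) := by
  induction t using TensorProduct.induction_on with
  | zero => exact ⟨0, 0, by simp⟩
  | add x y hx hy =>
    obtain ⟨P, S, h⟩ := hx
    obtain ⟨P', S', h'⟩ := hy
    refine ⟨P + P', S + S', ?_⟩
    rw [h, h', map_add, map_add]
    ring
  | tmul k q =>
    have hk : ∀ p : R[X], k ⊗ₜ[B] algebraMap R[X] (QuadraticAlgebra R[X] f 0) p =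
        gg f B K (C (k ⊗ₜ[B] 1) * p.map (Algebra.TensorProduct.includeRight :
          R →ₐ[B] K ⊗[B] R).toRingHom) := by
      intro p
      rw [map_mul, gg_map, gg_C, jj_tmul, map_one, Algebra.TensorProduct.tmul_mul_tmul, mul_one,
        one_mul]
    refine ⟨C (k ⊗ₜ[B] 1) * q.re.map (Algebra.TensorProduct.includeRight :
          R →ₐ[B] K ⊗[B] R).toRingHom, C (k ⊗ₜ[B] 1) * q.im.map
          (Algebra.TensorProduct.includeRight : R →ₐ[B] K ⊗[B] R).toRingHom, ?_⟩
    rw [← hk, ← hk, Algebra.TensorProduct.tmul_mul_tmul, mul_one, ← TensorProduct.tmul_add]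
    congr 1
    ext <;> simp

lemma frMap_gg (θ : R →ₐ[B] L) (η : E) (Θ : QuadraticAlgebra R[X] f 0 →ₐ[B] E)
    (h1 : ∀ r : R, Θ (algebraMap R[X] (QuadraticAlgebra R[X] f 0) (C r)) = algebraMap L E (θ r))
    (h2 : Θ (algebraMap R[X] (QuadraticAlgebra R[X] f 0) X) = η) (P : (K ⊗[B] R)[X]) :
    frMap B K Θ (gg f B K P) = aeval η (P.map (frMap B K θ).toRingHom) := by
  have hj : ∀ t : K ⊗[B] R, frMap B K Θ (jj f B K t) = algebraMap L E (frMap B K θ t) := by
    intro t
    induction t using TensorProduct.induction_on with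
    | zero => simp
    | add x y hx hy => rw [map_add, map_add, map_add, map_add, hx, hy]
    | tmul k r =>
      rw [jj_tmul, frMap_tmul, frMap_tmul, iot_apply, h1, map_mul,
        ← IsScalarTower.algebraMap_apply K L E]
  have h : (frMap B K Θ).toRingHom.comp (gg f B K) =
      (aeval (R := L) η).toRingHom.comp (Polynomial.mapRingHom (frMap B K θ).toRingHom) := by
    apply Polynomial.ringHom_ext
    · intro t
      rw [RingHom.comp_apply, RingHom.comp_apply, coe_mapRingHom, map_C, gg_C]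
      change frMap B K Θ (jj f B K t) = aeval η (C (frMap B K θ t))
      rw [hj, aeval_C]
    · rw [RingHom.comp_apply, RingHom.comp_apply, coe_mapRingHom, map_X, gg_X]
      change frMap B K Θ _ = aeval η X
      rw [frMap_tmul, h2, map_one, one_mul, aeval_X]
  exact DFunLike.congr_fun h P

lemma aeval_mem (η : E) (P : L[X]) : aeval η P ∈ IntermediateField.adjoin L {η} := by
  have h : aeval η P ∈ Algebra.adjoin L {η} := Polynomial.aeval_mem_adjoin_singleton L η
  exact IntermediateField.algebra_adjoin_le_adjoin L {η} h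

end

end FRQ_

open FRQ_ in
theorem frq_proof : Stmt_FRQ := by
  intro B K R L E _ _ _ _ _ _ _ _ _ _ _ _ _ _ _ θ A hA f η ζ hD Θ h1 h2 h3
  have hω : ∀ S : (K ⊗[B] R)[X], frMap B K Θ (gg f B K S *
      (1 ⊗ₜ[B] (QuadraticAlgebra.omega : QuadraticAlgebra R[X] f 0))) =
      aeval η (S.map (frMap B K θ).toRingHom) * ζ := by
    intro S
    rw [map_mul, frMap_gg f θ η Θ h1 h2, frMap_tmul, h3, map_one, one_mul]
  refine ⟨?_, ?_⟩
  · rw [injective_iff_map_eq_zero]
    intro t ht
    obtain ⟨P, S, rfl⟩ := surj f t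
    rw [map_add, hω, frMap_gg f θ η Θ h1 h2] at ht
    obtain ⟨hP, hS⟩ := hD.indep _ (aeval_mem η _) _ (aeval_mem η _) ht
    have hinj : Function.Injective (Polynomial.map (frMap B K θ).toRingHom) :=
      Polynomial.map_injective _ hA.inj
    have key : ∀ P : (K ⊗[B] R)[X], aeval η (P.map (frMap B K θ).toRingHom) = 0 → P = 0 := by
      intro P hP
      apply hinj
      rw [Polynomial.map_zero]
      exact (transcendental_iff.mp hD.tr) _ hP
    rw [key P hP, key S hS, map_zero, zero_mul, add_zero]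
  · apply le_antisymm
    · rintro _ ⟨t, rfl⟩
      obtain ⟨P, S, rfl⟩ := surj f t
      change frMap B K Θ _ ∈ _
      rw [map_add, hω, frMap_gg f θ η Θ h1 h2]
      have hη : η ∈ (A.map (IsScalarTower.toAlgHom K L E) ⊔ Algebra.adjoin K {η, ζ} :
          Subalgebra K E) :=
        (le_sup_right : Algebra.adjoin K {η, ζ} ≤ _) (Algebra.subset_adjoin (by simp))
      have hζ : ζ ∈ (A.map (IsScalarTower.toAlgHom K L E) ⊔ Algebra.adjoin K {η, ζ} :
          Subalgebra K E) :=
        (le_sup_right : Algebra.adjoin K {η, ζ} ≤ _) (Algebra.subset_adjoin (by simp))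
      have hm : ∀ P : (K ⊗[B] R)[X], aeval η (P.map (frMap B K θ).toRingHom) ∈
          (A.map (IsScalarTower.toAlgHom K L E) ⊔ Algebra.adjoin K {η, ζ} : Subalgebra K E) := by
        intro P
        rw [aeval_eq_sum_range]
        refine Subalgebra.sum_mem _ (fun i _ => ?_)
        rw [Algebra.smul_def, coeff_map]
        refine Subalgebra.mul_mem _ ?_ (Subalgebra.pow_mem _ hη i)
        refine (le_sup_left : A.map (IsScalarTower.toAlgHom K L E) ≤ _) ?_
        refine ⟨frMap B K θ (P.coeff i), ?_, rfl⟩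
        have : frMap B K θ (P.coeff i) ∈ (frMap B K θ).range := ⟨_, rfl⟩
        rw [hA.rng] at this
        exact this
      exact Subalgebra.add_mem _ (hm P) (Subalgebra.mul_mem _ (hm S) hζ)
    · refine sup_le ?_ (Algebra.adjoin_le ?_)
      · rintro _ ⟨a, ha, rfl⟩
        have ha' : a ∈ (frMap B K θ).range := by rw [hA.rng]; exact ha
        obtain ⟨t, rfl⟩ := ha'
        refine ⟨gg f B K (C t), ?_⟩
        change frMap B K Θ _ = _
        rw [frMap_gg f θ η Θ h1 h2, map_C, aeval_C]
        rfl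
      · rintro x (rfl | rfl)
        · refine ⟨1 ⊗ₜ[B] algebraMap R[X] (QuadraticAlgebra R[X] f 0) X, ?_⟩
          change frMap B K Θ _ = _
          rw [frMap_tmul, h2, map_one, one_mul]
        · refine ⟨1 ⊗ₜ[B] QuadraticAlgebra.omega, ?_⟩
          change frMap B K Θ _ = _
          rw [frMap_tmul, h3, map_one, one_mul]

end Pool.CRD

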