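import Pool.Agent.CRD.Crv.Stmts

/-!
# CRD, Crv: FRT
-/

open Polynomial TensorProduct

namespace Pool.CRD

namespace FRT_

variable (B K : Type) [CommRing B] [Field K] [Algebra B K]

lemma frMap_tmul {R E : Type} [CommRing R] [Algebra B R] [CommRing E] [Algebra K E] [Algebra B E]
    [IsScalarTower B K E] (θ : R →ₐ[B] E) (k : K) (r : R) :
    frMap B K θ (k ⊗ₜ r) = algebraMap K E k * θ r := by
  simp [frMap, Algebra.ofId_apply]

end FRT_

open FRT_ in
theorem frt_proof : Stmt_FRT := by
  intro B K R₁ R₂ F₁ F₂ L _ _ _ _ _ _ _ _ _ _ _ _ _ _ _ _ _ _ _ θ₁ A₁ θ₂ A₂ h₁ h₂ e₁ e₂ hinj Θ hΘ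
  let D := TensorProduct.AlgebraTensorModule.distribBaseChange B K R₁ R₂
  let f₁ := (frMap B K θ₁).toLinearMap
  let f₂ := (frMap B K θ₂).toLinearMap
  have key : ∀ t, frMap B K Θ t =
      Algebra.TensorProduct.productMap e₁ e₂ (TensorProduct.map f₁ f₂ (D t)) := by
    intro t
    induction t using TensorProduct.induction_on with
    | zero => simp
    | add x y hx hy => rw [map_add, map_add, map_add, map_add, hx, hy]
    | tmul k t =>
      induction t using TensorProduct.induction_on with
      | zero => simp
      | add x y hx hy =>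
        rw [TensorProduct.tmul_add, map_add, map_add, map_add, map_add, hx, hy]
      | tmul a b =>
        rw [frMap_tmul, hΘ]
        have h1 : D (k ⊗ₜ (a ⊗ₜ b)) = (k ⊗ₜ a) ⊗ₜ ((1 : K) ⊗ₜ b) :=
          TensorProduct.AlgebraTensorModule.distribBaseChange_tmul ..
        rw [h1, TensorProduct.map_tmul]
        have e1 : f₁ (k ⊗ₜ a) = algebraMap K F₁ k * θ₁ a := frMap_tmul B K θ₁ k a
        have e2 : f₂ ((1 : K) ⊗ₜ b) = θ₂ b := by
          have := frMap_tmul B K θ₂ 1 b
          rw [map_one, one_mul] at this
          exact this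
        rw [e1, e2, Algebra.TensorProduct.productMap_apply_tmul, map_mul, AlgHom.commutes, mul_assoc]
  constructor
  · have h3 : Function.Injective (TensorProduct.map f₁ f₂) := by
      apply TensorProduct.map_injective_of_flat_flat
      · exact h₁.inj
      · exact h₂.inj
    intro x y hxy
    rw [key, key] at hxy
    exact D.injective (h3 (hinj hxy))
  · apply le_antisymm
    · rintro x ⟨t, rfl⟩
      change frMap B K Θ t ∈ _
      induction t using TensorProduct.induction_on with
      | zero => simp
      | add x y hx hy => rw [map_add]; exact add_mem hx hy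
      | tmul k t =>
        rw [frMap_tmul]
        apply mul_mem (Subalgebra.algebraMap_mem _ _)
        induction t using TensorProduct.induction_on with
        | zero => simp
        | add x y hx hy => rw [map_add]; exact add_mem hx hy
        | tmul a b =>
          rw [hΘ]
          apply mul_mem
          · refine (le_sup_left : A₁.map e₁ ≤ _) ⟨θ₁ a, ?_, rfl⟩
            rw [← h₁.rng]
            refine ⟨(1 : K) ⊗ₜ a, ?_⟩
            have := frMap_tmul B K θ₁ 1 a
            rw [map_one, one_mul] at this
            exact this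
          · refine (le_sup_right : A₂.map e₂ ≤ _) ⟨θ₂ b, ?_, rfl⟩
            rw [← h₂.rng]
            refine ⟨(1 : K) ⊗ₜ b, ?_⟩
            have := frMap_tmul B K θ₂ 1 b
            rw [map_one, one_mul] at this
            exact this
    · apply sup_le
      · rintro x ⟨y, hy, rfl⟩
        change y ∈ A₁ at hy
        rw [← h₁.rng] at hy
        obtain ⟨t, rfl⟩ := hy
        change e₁ (frMap B K θ₁ t) ∈ _
        induction t using TensorProduct.induction_on with
        | zero => simp
        | add x y hx hy => rw [map_add, map_add]; exact add_mem hx hy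
        | tmul k a =>
          refine ⟨k ⊗ₜ (a ⊗ₜ 1), ?_⟩
          change frMap B K Θ _ = _
          rw [frMap_tmul, frMap_tmul, hΘ, map_one, map_one, mul_one, map_mul, AlgHom.commutes]
      · rintro x ⟨y, hy, rfl⟩
        change y ∈ A₂ at hy
        rw [← h₂.rng] at hy
        obtain ⟨t, rfl⟩ := hy
        change e₂ (frMap B K θ₂ t) ∈ _
        induction t using TensorProduct.induction_on with
        | zero => simp
        | add x y hx hy => rw [map_add, map_add]; exact add_mem hx hy
        | tmul k a =>
          refine ⟨k ⊗ₜ ((1 : R₁) ⊗ₜ a), ?_⟩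
          change frMap B K Θ _ = _
          rw [frMap_tmul, frMap_tmul, hΘ, map_one, map_one, one_mul, map_mul, AlgHom.commutes]

end Pool.CRD
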