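import Pool.Agent.CRD.Crv.GCore

/-!
# CRD / Crv / GCA: the chart `ca` of the curve is good
-/

set_option linter.all false

open Polynomial TensorProduct

namespace Pool.CRD

namespace GCA_

lemma ixC_ca : ixC ca = {0, 1, 2} := by
  ext k
  simp only [ixC, Set.mem_setOf_eq, ca, Cov.one, Finset.mem_singleton, Set.mem_insert_iff,
    Set.mem_singleton_iff]
  fin_cases k <;> simp <;> decide

lemma AC_ca {B F : Type} [CommRing B] [CommRing F] [Inv F] [Algebra B F] (l z y : F) :
    AC B l z y ca = Algebra.adjoin B {zi z, (qq l (zi z))⁻¹, yi z y} := by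
  unfold AC
  rw [ixC_ca]
  congr 1
  ext x
  simp only [Set.mem_image, Set.mem_insert_iff, Set.mem_singleton_iff]
  constructor
  · rintro ⟨k, (rfl | rfl | rfl), rfl⟩
    · exact Or.inl rfl
    · exact Or.inr (Or.inl rfl)
    · exact Or.inr (Or.inr rfl)
  · rintro (rfl | rfl | rfl)
    · exact ⟨0, Or.inl rfl, rfl⟩
    · exact ⟨1, Or.inr (Or.inl rfl), rfl⟩
    · exact ⟨2, Or.inr (Or.inr rfl), rfl⟩

/-- change of the generator `1/qq` to `1/qq²` -/
lemma adj {B F : Type} [CommRing B] [CommRing F] [Algebra B F] (i ζ q c d : F)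
    (hq : q ∈ Algebra.adjoin B {i}) (h1 : c = q * d) (h2 : d = c ^ 2) :
    Algebra.adjoin B {i, c, ζ} = Algebra.adjoin B {i, ζ, d} := by
  apply le_antisymm
  · refine Algebra.adjoin_le ?_
    have hi : i ∈ Algebra.adjoin B ({i, ζ, d} : Set F) := Algebra.subset_adjoin (by simp)
    have hd : d ∈ Algebra.adjoin B ({i, ζ, d} : Set F) := Algebra.subset_adjoin (by simp)
    rintro x (rfl | rfl | rfl)
    · exact hi
    · have hq' : q ∈ Algebra.adjoin B ({i, ζ, d} : Set F) :=
        Algebra.adjoin_le (Set.singleton_subset_iff.2 hi) hq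
      exact h1 ▸ mul_mem hq' hd
    · exact Algebra.subset_adjoin (by simp)
  · refine Algebra.adjoin_le ?_
    rintro x (rfl | rfl | rfl)
    · exact Algebra.subset_adjoin (by simp)
    · exact Algebra.subset_adjoin (by simp)
    · rw [h2]
      exact pow_mem (Algebra.subset_adjoin (by simp)) 2

lemma map_qq {R S : Type} [CommRing R] [CommRing S] (φ : R →+* S) (l t : R) :
    φ (qq l t) = qq (φ l) (φ t) := by
  have h3 : φ 3 = 3 := map_ofNat φ 3
  simp [qq, qa, qb, h3]

lemma aeval_qq {B E : Type} [CommRing B] [CommRing E] [Algebra B E] (l : B) (t : E) :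
    aeval t (qq (C l) X : B[X]) = qq (algebraMap B E l) t := by
  have h3 : aeval t (3 : B[X]) = 3 := map_ofNat (aeval t) 3
  simp [qq, qa, qb, h3]

lemma fA_map {B K : Type} [CommRing B] [CommRing K] [Algebra B K] (l : B) :
    (fA l).map (algebraMap B K) = fA (algebraMap B K l) := by
  simp [fA, qq, qa, qb]

lemma ident {B : Type} [CommRing B] (l : B) :
    (-(4 * qq (C l) X + (2 * X + 1) * derivative (qq (C l) X : B[X]))) * fA l +
      ((2 * X + 1) * qq (C l) X) * derivative (fA l) = (qq (C l) X : B[X]) ^ 2 := by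
  have h : derivative (fA l) = (2 * X + 1) * qq (C l) X +
      X * (X + 1) * derivative (qq (C l) X : B[X]) := by
    unfold fA
    rw [derivative_mul, derivative_mul, derivative_X, derivative_add, derivative_X, derivative_one]
    ring
  rw [h]
  unfold fA
  ring

lemma qmem {B E : Type} [CommRing B] [CommRing E] [Algebra B E] (l : B) (t : E) :
    qq (algebraMap B E l) t ∈ Algebra.adjoin B {t} := by
  rw [← aeval_qq]
  exact Polynomial.aeval_mem_adjoin_singleton B _

end GCA_

open GCA_ in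
theorem gca_proof (hCBA : Stmt_CBA) (hDMO : Stmt_DMO) (hFRQ : Stmt_FRQ) (hFRL : Stmt_FRL)
    (hSMQ : Stmt_SMQ) (hMGD : Stmt_MGD) : Stmt_GCA := by
  intro B K' K'' _ _ _ _ _ l hl hinj H' H'' _ _ _ _
  have b' := hCBA K' (algebraMap B K' l) H'
  have b'' := hCBA K'' (algebraMap B K'' l) H''
  have d' := hDMO K' (algebraMap B K' l) H'
  have d'' := hDMO K'' (algebraMap B K'' l) H''
  rw [← IsScalarTower.algebraMap_apply B K' H'.F] at b'
  rw [← IsScalarTower.algebraMap_apply B K'' H''.F] at b''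
  have g' : aeval (zi H'.z) ((qq (C l) X : B[X]) ^ 2) =
      qq (algebraMap B H'.F l) (zi H'.z) ^ 2 := by rw [map_pow, aeval_qq]
  have g'' : aeval (zi H''.z) ((qq (C l) X : B[X]) ^ 2) =
      qq (algebraMap B H''.F l) (zi H''.z) ^ 2 := by rw [map_pow, aeval_qq]
  have key := GCore_.core hFRQ hFRL hSMQ hMGD B K' K'' H'.F H''.F hinj hl.two (fA l) _ _
    ((qq (C l) X : B[X]) ^ 2) (ident l) (zi H'.z) (yi H'.z H'.y) (zi H''.z) (yi H''.z H''.y)
    (by rw [fA_map]; exact d') (by rw [fA_map]; exact d'')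
    (by rw [g']; exact pow_ne_zero 2 b'.q0) (by rw [g'']; exact pow_ne_zero 2 b''.q0)
  rw [g', g''] at key
  have e' : H'.A ca = Algebra.adjoin K' {zi H'.z, yi H'.z H'.y,
      (qq (algebraMap B H'.F l) (zi H'.z) ^ 2)⁻¹} := by
    unfold DblF.A
    rw [AC_ca, ← IsScalarTower.algebraMap_apply B K' H'.F]
    refine adj _ _ (qq (algebraMap B H'.F l) (zi H'.z)) _ _ ?_ ?_ ?_
    · rw [IsScalarTower.algebraMap_apply B K' H'.F]
      exact qmem _ _
    · have := b'.q0
      field_simp
    · rw [inv_pow]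
  have e'' : H''.A ca = Algebra.adjoin K'' {zi H''.z, yi H''.z H''.y,
      (qq (algebraMap B H''.F l) (zi H''.z) ^ 2)⁻¹} := by
    unfold DblF.A
    rw [AC_ca, ← IsScalarTower.algebraMap_apply B K'' H''.F]
    refine adj _ _ (qq (algebraMap B H''.F l) (zi H''.z)) _ _ ?_ ?_ ?_
    · rw [IsScalarTower.algebraMap_apply B K'' H''.F]
      exact qmem _ _
    · have := b''.q0
      field_simp
    · rw [inv_pow]
  have e : AC B (algebraMap B (H'.F × H''.F) l) (H'.z, H''.z) (H'.y, H''.y) ca =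
      Algebra.adjoin B {((zi H'.z, zi H''.z) : H'.F × H''.F),
        ((yi H'.z H'.y, yi H''.z H''.y) : H'.F × H''.F),
        (((qq (algebraMap B H'.F l) (zi H'.z) ^ 2)⁻¹,
          (qq (algebraMap B H''.F l) (zi H''.z) ^ 2)⁻¹) : H'.F × H''.F)} := by
    rw [AC_ca]
    refine adj _ _ (qq (algebraMap B (H'.F × H''.F) l) (zi H'.z, zi H''.z)) _ _ (qmem _ _) ?_ ?_
    · apply Prod.ext
      · change (qq (algebraMap B H'.F l) (zi H'.z))⁻¹ =
          qq (algebraMap B H'.F l) (zi H'.z) * (qq (algebraMap B H'.F l) (zi H'.z) ^ 2)⁻¹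
        have := b'.q0
        field_simp
      · change (qq (algebraMap B H''.F l) (zi H''.z))⁻¹ =
          qq (algebraMap B H''.F l) (zi H''.z) * (qq (algebraMap B H''.F l) (zi H''.z) ^ 2)⁻¹
        have := b''.q0
        field_simp
    · apply Prod.ext
      · change (qq (algebraMap B H'.F l) (zi H'.z) ^ 2)⁻¹ =
          (qq (algebraMap B H'.F l) (zi H'.z))⁻¹ ^ 2
        rw [inv_pow]
      · change (qq (algebraMap B H''.F l) (zi H''.z) ^ 2)⁻¹ =
          (qq (algebraMap B H''.F l) (zi H''.z))⁻¹ ^ 2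
        rw [inv_pow]
  rw [e, e', e'']
  exact key

end Pool.CRD
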