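import Pool.Agent.CRD.Crv.GCore

/-!
# CRD / Crv / GCB: the chart `cb` of the curve is good
-/

set_option linter.all false

open Polynomial TensorProduct

namespace Pool.CRD

namespace GCB_

lemma ixC_cb : ixC cb = {3, 4, 5} := by
  ext k
  simp only [ixC, Set.mem_setOf_eq, cb, Cov.one, Finset.mem_singleton, Set.mem_insert_iff,
    Set.mem_singleton_iff]
  fin_cases k <;> simp <;> decide

lemma AC_cb {B F : Type} [CommRing B] [CommRing F] [Inv F] [Algebra B F] (l z y : F) :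
    AC B l z y cb = Algebra.adjoin B {z, z⁻¹, y} := by
  unfold AC
  rw [ixC_cb]
  congr 1
  ext x
  simp only [Set.mem_image, Set.mem_insert_iff, Set.mem_singleton_iff]
  constructor
  · rintro ⟨k, (rfl | rfl | rfl), rfl⟩
    · exact Or.inl rfl
    · exact Or.inr (Or.inl rfl)
    · exact Or.inr (Or.inr rfl)
  · rintro (rfl | rfl | rfl)
    · exact ⟨3, Or.inl rfl, rfl⟩
    · exact ⟨4, Or.inr (Or.inl rfl), rfl⟩
    · exact ⟨5, Or.inr (Or.inr rfl), rfl⟩

/-- change of the generator `1/z` to `1/(u z⁴)` -/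
lemma adj {B F : Type} [CommRing B] [CommRing F] [Algebra B F] (z y c d : F) (u v : B)
    (h1 : c = algebraMap B F u * z ^ 3 * d) (h2 : d = algebraMap B F v * c ^ 4) :
    Algebra.adjoin B {z, c, y} = Algebra.adjoin B {z, y, d} := by
  apply le_antisymm
  · refine Algebra.adjoin_le ?_
    have hz : z ∈ Algebra.adjoin B ({z, y, d} : Set F) := Algebra.subset_adjoin (by simp)
    have hd : d ∈ Algebra.adjoin B ({z, y, d} : Set F) := Algebra.subset_adjoin (by simp)
    rintro x (rfl | rfl | rfl)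
    · exact hz
    · exact h1 ▸ mul_mem (mul_mem (Subalgebra.algebraMap_mem _ u) (pow_mem hz 3)) hd
    · exact Algebra.subset_adjoin (by simp)
  · refine Algebra.adjoin_le ?_
    rintro x (rfl | rfl | rfl)
    · exact Algebra.subset_adjoin (by simp)
    · exact Algebra.subset_adjoin (by simp)
    · rw [h2]
      exact mul_mem (Subalgebra.algebraMap_mem _ v) (pow_mem (Algebra.subset_adjoin (by simp)) 4)

lemma fC_map {B K : Type} [CommRing B] [CommRing K] [Algebra B K] (l : B) :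
    (fC l).map (algebraMap B K) = fC (algebraMap B K l) := by
  simp [fC]

lemma ident {B : Type} [CommRing B] (l : B) :
    (-(14 * X ^ 3 - 1 - C l)) * fC l +
      (X * (2 * X ^ 3 - 1 - C l)) * derivative (fC l) = (C (3 * (1 - l) ^ 2) * X ^ 4 : B[X]) := by
  have h : fC l = X ^ 7 - (1 + C l) * X ^ 4 + C l * X := by
    unfold fC; ring
  have h' : derivative (fC l) = 7 * X ^ 6 - (1 + C l) * (4 * X ^ 3) + C l := by
    rw [h]
    simp only [derivative_add, derivative_sub, derivative_mul, derivative_X_pow, derivative_X,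
      derivative_C, derivative_one, C_eq_natCast]
    norm_num
  rw [h', h]
  have h3 : (C (3 * (1 - l) ^ 2) : B[X]) = 3 * (1 - C l) ^ 2 := by
    have h4 : (C 3 : B[X]) = 3 := map_ofNat C 3
    simp [h4]
  rw [h3]
  ring

end GCB_

open GCB_ in
theorem gcb_proof (_hCBA : Stmt_CBA) (hFRQ : Stmt_FRQ) (hFRL : Stmt_FRL)
    (hSMQ : Stmt_SMQ) (hMGD : Stmt_MGD) : Stmt_GCB := by
  intro B K' K'' _ _ _ _ _ l hl hinj H' H'' _ _ _ _
  have b' := _hCBA K' (algebraMap B K' l) H'
  have b'' := _hCBA K'' (algebraMap B K'' l) H''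
  have hu : IsUnit (3 * (1 - l) ^ 2 : B) := by
    refine hl.three.mul (IsUnit.pow 2 ?_)
    have := hl.l1.neg
    rwa [neg_sub] at this
  obtain ⟨v, hv⟩ := hu.exists_right_inv
  have g' : aeval H'.z (C (3 * (1 - l) ^ 2) * X ^ 4 : B[X]) =
      algebraMap B H'.F (3 * (1 - l) ^ 2) * H'.z ^ 4 := by
    rw [map_mul, aeval_C, map_pow, aeval_X]
  have g'' : aeval H''.z (C (3 * (1 - l) ^ 2) * X ^ 4 : B[X]) =
      algebraMap B H''.F (3 * (1 - l) ^ 2) * H''.z ^ 4 := by
    rw [map_mul, aeval_C, map_pow, aeval_X]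
  have v' : algebraMap B H'.F (3 * (1 - l) ^ 2) * algebraMap B H'.F v = 1 := by
    rw [← map_mul, hv, map_one]
  have v'' : algebraMap B H''.F (3 * (1 - l) ^ 2) * algebraMap B H''.F v = 1 := by
    rw [← map_mul, hv, map_one]
  have z' := b'.z0
  have z'' := b''.z0
  have key := GCore_.core hFRQ hFRL hSMQ hMGD B K' K'' H'.F H''.F hinj hl.two (fC l) _ _
    (C (3 * (1 - l) ^ 2) * X ^ 4 : B[X]) (ident l) H'.z H'.y H''.z H''.y
    (by rw [fC_map]; exact H'.dbl) (by rw [fC_map]; exact H''.dbl)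
    (by rw [g']; exact mul_ne_zero (left_ne_zero_of_mul_eq_one v') (pow_ne_zero 4 z'))
    (by rw [g'']; exact mul_ne_zero (left_ne_zero_of_mul_eq_one v'') (pow_ne_zero 4 z''))
  rw [g', g''] at key
  have key1 : ∀ (F : Type) [Field F] (u v z : F), u * v = 1 → z ≠ 0 →
      z⁻¹ = u * z ^ 3 * (u * z ^ 4)⁻¹ ∧ (u * z ^ 4)⁻¹ = v * z⁻¹ ^ 4 := by
    intro F _ u v z huv hz
    have hu : u ≠ 0 := left_ne_zero_of_mul_eq_one huv
    refine ⟨by field_simp, ?_⟩
    rw [mul_inv, inv_eq_of_mul_eq_one_right huv, inv_pow]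
  have e' : H'.A cb = Algebra.adjoin K' {H'.z, H'.y,
      (algebraMap B H'.F (3 * (1 - l) ^ 2) * H'.z ^ 4)⁻¹} := by
    unfold DblF.A
    rw [AC_cb]
    refine adj _ _ _ _ (algebraMap B K' (3 * (1 - l) ^ 2)) (algebraMap B K' v) ?_ ?_
    · rw [← IsScalarTower.algebraMap_apply B K' H'.F]
      exact (key1 _ _ _ _ v' z').1
    · rw [← IsScalarTower.algebraMap_apply B K' H'.F]
      exact (key1 _ _ _ _ v' z').2
  have e'' : H''.A cb = Algebra.adjoin K'' {H''.z, H''.y,
      (algebraMap B H''.F (3 * (1 - l) ^ 2) * H''.z ^ 4)⁻¹} := by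
    unfold DblF.A
    rw [AC_cb]
    refine adj _ _ _ _ (algebraMap B K'' (3 * (1 - l) ^ 2)) (algebraMap B K'' v) ?_ ?_
    · rw [← IsScalarTower.algebraMap_apply B K'' H''.F]
      exact (key1 _ _ _ _ v'' z'').1
    · rw [← IsScalarTower.algebraMap_apply B K'' H''.F]
      exact (key1 _ _ _ _ v'' z'').2
  have e : AC B (algebraMap B (H'.F × H''.F) l) (H'.z, H''.z) (H'.y, H''.y) cb =
      Algebra.adjoin B {((H'.z, H''.z) : H'.F × H''.F),
        ((H'.y, H''.y) : H'.F × H''.F),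
        (((algebraMap B H'.F (3 * (1 - l) ^ 2) * H'.z ^ 4)⁻¹,
          (algebraMap B H''.F (3 * (1 - l) ^ 2) * H''.z ^ 4)⁻¹) : H'.F × H''.F)} := by
    rw [AC_cb]
    refine adj _ _ _ _ (3 * (1 - l) ^ 2) v ?_ ?_
    · exact Prod.ext (key1 _ _ _ _ v' z').1 (key1 _ _ _ _ v'' z'').1
    · exact Prod.ext (key1 _ _ _ _ v' z').2 (key1 _ _ _ _ v'' z'').2
  rw [e, e', e'']
  exact key

end Pool.CRD
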