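import Pool.Agent.CRD.Crv.Stmts

/-!
# CRD / Crv / GCC: the chart `cab` of the curve is good
-/

open Polynomial TensorProduct

namespace Pool.CRD

namespace GCC_

lemma gen_mem {B F : Type} [CommRing B] [CommRing F] [Inv F] [Algebra B F] (l z y : F)
    (s : Cov Bool) (k : Fin 6) (hk : k ∈ ixC s) : gC l z y k ∈ AC B l z y s :=
  Algebra.subset_adjoin ⟨k, hk, rfl⟩

lemma ix_cb (k : Fin 6) (hk : 3 ≤ k) : k ∈ ixC cb :=
  Or.inr ⟨Finset.mem_singleton_self true, hk⟩

lemma ix_cab (k : Fin 6) : k ∈ ixC cab := by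
  by_cases hk : k < 3
  · exact Or.inl ⟨Finset.mem_univ _, hk⟩
  · exact Or.inr ⟨Finset.mem_univ _, not_lt.1 hk⟩

section
variable {F : Type} [Field F] {l z y : F} (h : BasC F l z y)
include h

lemma w_ne : wC l z ≠ 0 := by
  unfold wC
  exact div_ne_zero (pow_ne_zero 3 h.z0) (mul_ne_zero h.z31 h.z3l)

lemma winv : (wC l z)⁻¹ = (z ^ 3 - 1) * (z ^ 3 - l) * z⁻¹ ^ 3 := by
  unfold wC
  rw [inv_div, inv_pow, div_eq_mul_inv]

lemma w_form : wC l z = (zi z * (zi z + 1)) ^ 3 * (qq l (zi z))⁻¹ := by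
  rw [h.w_eq, div_eq_mul_inv]

lemma i_form : zi z = (z ^ 2 + z + 1) * (z ^ 3 - l) * wC l z * z⁻¹ ^ 3 := by
  have h1 := h.z1
  have h2 := h.z31
  have h3 := h.z3l
  have h4 := h.z0
  unfold wC zi
  field_simp
  ring

lemma q_form : (qq l (zi z))⁻¹ = (z - 1) ^ 6 * wC l z * z⁻¹ ^ 3 := by
  have h1 := h.z1
  have h2 := h.z31
  have h3 := h.z3l
  have h4 := h.z0
  have h5 := h.i0
  have h6 : qq l (zi z) = (z ^ 3 - 1) * (z ^ 3 - l) * zi z ^ 6 := by
    rw [h.qa_eq, h.qb_eq]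
    unfold qq
    field_simp
  rw [h6]
  unfold wC zi
  field_simp

end

lemma par {B K : Type} [CommRing B] [CommRing K] [Algebra B K] {l : B} (h : ParOK l) :
    ParOK (algebraMap B K l) where
  two := by
    have h1 := h.two.map (algebraMap B K)
    rwa [map_ofNat] at h1
  three := by
    have h1 := h.three.map (algebraMap B K)
    rwa [map_ofNat] at h1
  l0 := h.l0.map (algebraMap B K)
  l1 := by simpa using h.l1.map (algebraMap B K)

end GCC_

theorem gcc_proof (hCBA : Stmt_CBA) (hCAB : Stmt_CAB) (hGCB : Stmt_GCB) (hGLO : Stmt_GLO) :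
    Stmt_GCC := by
  intro B K' K'' _ _ _ _ _ l hl hinj H' H'' _ _ _ _
  have b' := hCBA K' (algebraMap B K' l) H'
  have b'' := hCBA K'' (algebraMap B K'' l) H''
  have c' := hCAB K' (algebraMap B K' l) H' (GCC_.par hl)
  have c'' := hCAB K'' (algebraMap B K'' l) H'' (GCC_.par hl)
  rw [← IsScalarTower.algebraMap_apply B K' H'.F] at b' c'
  rw [← IsScalarTower.algebraMap_apply B K'' H''.F] at b'' c''
  have hcb := hGCB B K' K'' l hl hinj H' H''
  set P := H'.F × H''.F with hP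
  set lp : P := algebraMap B P l with hlp
  set zp : P := (H'.z, H''.z) with hzp
  set yp : P := (H'.y, H''.y) with hyp
  have e1 : lp.1 = algebraMap B H'.F l := rfl
  have e2 : lp.2 = algebraMap B H''.F l := rfl
  set w' := wC (algebraMap B H'.F l) H'.z with hw'
  set w'' := wC (algebraMap B H''.F l) H''.z with hw''
  -- the element r
  have hr : ((w'⁻¹, w''⁻¹) : P) ∈ AC B lp zp yp cb := by
    have h1 : ((w'⁻¹, w''⁻¹) : P) = (zp ^ 3 - 1) * (zp ^ 3 - lp) * zp⁻¹ ^ 3 := by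
      apply Prod.ext
      · exact GCC_.winv b'
      · exact GCC_.winv b''
    rw [h1]
    have g3 : zp ∈ AC B lp zp yp cb := GCC_.gen_mem lp zp yp cb 3 (GCC_.ix_cb 3 (by decide))
    have g4 : zp⁻¹ ∈ AC B lp zp yp cb := GCC_.gen_mem lp zp yp cb 4 (GCC_.ix_cb 4 (by decide))
    have gl : lp ∈ AC B lp zp yp cb := Subalgebra.algebraMap_mem _ l
    exact mul_mem (mul_mem (sub_mem (pow_mem g3 3) (one_mem _)) (sub_mem (pow_mem g3 3) gl))
      (pow_mem g4 3)
  have key := hGLO B K' K'' H'.F H''.F (AC B lp zp yp cb) (H'.A cb) (H''.A cb) hinj hcb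
    ((w'⁻¹, w''⁻¹) : P) hr (inv_ne_zero (GCC_.w_ne b')) (inv_ne_zero (GCC_.w_ne b''))
  have f1 : ((w'⁻¹, w''⁻¹) : P)⁻¹ = (w', w'') := Prod.ext (inv_inv w') (inv_inv w'')
  have f2 : ((w'⁻¹, w''⁻¹) : P).1⁻¹ = w' := inv_inv w'
  have f3 : ((w'⁻¹, w''⁻¹) : P).2⁻¹ = w'' := inv_inv w''
  rw [f1, f2, f3, ← c'.2.2.2, ← c''.2.2.2] at key
  have hJ : AC B lp zp yp cb ⊔ Algebra.adjoin B {((w', w'') : P)} = AC B lp zp yp cab := by
    apply le_antisymm
    · refine sup_le (AC_mono B lp zp yp (Finset.subset_univ _)) ?_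
      refine Algebra.adjoin_le ?_
      rintro x (rfl : x = (w', w''))
      have h1 : ((w', w'') : P) = (zi zp * (zi zp + 1)) ^ 3 * (qq lp (zi zp))⁻¹ := by
        apply Prod.ext
        · exact GCC_.w_form b'
        · exact GCC_.w_form b''
      rw [h1]
      have g0 : zi zp ∈ AC B lp zp yp cab := GCC_.gen_mem lp zp yp cab 0 (GCC_.ix_cab 0)
      have g1 : (qq lp (zi zp))⁻¹ ∈ AC B lp zp yp cab :=
        GCC_.gen_mem lp zp yp cab 1 (GCC_.ix_cab 1)
      exact mul_mem (pow_mem (mul_mem g0 (add_mem g0 (one_mem _))) 3) g1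
    · refine Algebra.adjoin_le ?_
      have hle : AC B lp zp yp cb ≤
          AC B lp zp yp cb ⊔ Algebra.adjoin B {((w', w'') : P)} := le_sup_left
      have gw : ((w', w'') : P) ∈ AC B lp zp yp cb ⊔ Algebra.adjoin B {((w', w'') : P)} :=
        (le_sup_right : Algebra.adjoin B {((w', w'') : P)} ≤ _)
          (Algebra.subset_adjoin (Set.mem_singleton _))
      have g3 : zp ∈ AC B lp zp yp cb ⊔ Algebra.adjoin B {((w', w'') : P)} :=
        hle (GCC_.gen_mem lp zp yp cb 3 (GCC_.ix_cb 3 (by decide)))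
      have g4 : zp⁻¹ ∈ AC B lp zp yp cb ⊔ Algebra.adjoin B {((w', w'') : P)} :=
        hle (GCC_.gen_mem lp zp yp cb 4 (GCC_.ix_cb 4 (by decide)))
      have g5 : yp ∈ AC B lp zp yp cb ⊔ Algebra.adjoin B {((w', w'') : P)} :=
        hle (GCC_.gen_mem lp zp yp cb 5 (GCC_.ix_cb 5 (by decide)))
      have gl : lp ∈ AC B lp zp yp cb ⊔ Algebra.adjoin B {((w', w'') : P)} :=
        Subalgebra.algebraMap_mem _ l
      have g0 : zi zp ∈ AC B lp zp yp cb ⊔ Algebra.adjoin B {((w', w'') : P)} := by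
        have h1 : zi zp = (zp ^ 2 + zp + 1) * (zp ^ 3 - lp) * (w', w'') * zp⁻¹ ^ 3 := by
          apply Prod.ext
          · exact GCC_.i_form b'
          · exact GCC_.i_form b''
        rw [h1]
        exact mul_mem (mul_mem (mul_mem (add_mem (add_mem (pow_mem g3 2) g3) (one_mem _))
          (sub_mem (pow_mem g3 3) gl)) gw) (pow_mem g4 3)
      have g1 : (qq lp (zi zp))⁻¹ ∈ AC B lp zp yp cb ⊔ Algebra.adjoin B {((w', w'') : P)} := by
        have h1 : (qq lp (zi zp))⁻¹ = (zp - 1) ^ 6 * (w', w'') * zp⁻¹ ^ 3 := by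
          apply Prod.ext
          · exact GCC_.q_form b'
          · exact GCC_.q_form b''
        rw [h1]
        exact mul_mem (mul_mem (pow_mem (sub_mem g3 (one_mem _)) 6) gw) (pow_mem g4 3)
      have g2 : yi zp yp ∈ AC B lp zp yp cb ⊔ Algebra.adjoin B {((w', w'') : P)} :=
        mul_mem g5 (pow_mem g0 4)
      rintro x ⟨k, -, rfl⟩
      fin_cases k
      · exact g0
      · exact g1
      · exact g2
      · exact g3
      · exact g4
      · exact g5
  rw [hJ] at key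
  exact key

end Pool.CRD
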