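import Pool.Agent.CRD.Crv.Stmts

/-!
# CRD / Crv: common core of GCA and GCB
-/

set_option linter.all false

open Polynomial TensorProduct

namespace Pool.CRD

namespace GCore_

noncomputable section

/-- the map of the quadratic algebra over `B[X]` -/
def Th {B E : Type} [CommRing B] [CommRing E] [Algebra B E] (f : B[X]) (η ζ : E)
    (h : ζ ^ 2 = aeval η f) : QuadraticAlgebra B[X] f 0 →ₐ[B] E where
  toFun x := aeval η x.re + aeval η x.im * ζ
  map_one' := by
    rw [QuadraticAlgebra.re_one, QuadraticAlgebra.im_one]; simp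
  map_mul' x y := by
    rw [QuadraticAlgebra.re_mul, QuadraticAlgebra.im_mul]
    simp only [map_add, map_mul, map_zero, zero_mul]
    linear_combination (-(aeval η x.im * aeval η y.im)) * h
  map_zero' := by simp
  map_add' x y := by
    simp only [QuadraticAlgebra.re_add, QuadraticAlgebra.im_add, map_add]; ring
  commutes' r := by
    have h1 : (algebraMap B (QuadraticAlgebra B[X] f 0) r) = ⟨C r, 0⟩ := rfl
    rw [h1]; simp

lemma Th_apply {B E : Type} [CommRing B] [CommRing E] [Algebra B E] (f : B[X]) (η ζ : E)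
    (h : ζ ^ 2 = aeval η f) (x : QuadraticAlgebra B[X] f 0) :
    Th f η ζ h x = aeval η x.re + aeval η x.im * ζ := rfl

lemma Th_alg {B E : Type} [CommRing B] [CommRing E] [Algebra B E] (f : B[X]) (η ζ : E)
    (h : ζ ^ 2 = aeval η f) (p : B[X]) :
    Th f η ζ h (algebraMap B[X] (QuadraticAlgebra B[X] f 0) p) = aeval η p := by
  rw [Th_apply, QuadraticAlgebra.algebraMap_eq]; simp

lemma Th_om {B E : Type} [CommRing B] [CommRing E] [Algebra B E] (f : B[X]) (η ζ : E)
    (h : ζ ^ 2 = aeval η f) :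
    Th f η ζ h QuadraticAlgebra.omega = ζ := by
  rw [Th_apply, QuadraticAlgebra.omega]; simp

/-- the localised map -/
def ThL {B E : Type} [CommRing B] [Field E] [Algebra B E] (f g : B[X]) (η ζ : E)
    (h : ζ ^ 2 = aeval η f) (hg : aeval η g ≠ 0) :
    Localization.Away (algebraMap B[X] (QuadraticAlgebra B[X] f 0) g) →ₐ[B] E :=
  IsLocalization.liftAlgHom
    (M := Submonoid.powers (algebraMap B[X] (QuadraticAlgebra B[X] f 0) g))
    (f := Th f η ζ h) (by
      rintro ⟨_, n, rfl⟩
      change IsUnit ((Th f η ζ h) _)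
      rw [map_pow, Th_alg]
      exact (IsUnit.mk0 _ hg).pow n)

lemma ThL_alg {B E : Type} [CommRing B] [Field E] [Algebra B E] (f g : B[X]) (η ζ : E)
    (h : ζ ^ 2 = aeval η f) (hg : aeval η g ≠ 0) (x : QuadraticAlgebra B[X] f 0) :
    ThL f g η ζ h hg (algebraMap _ _ x) = Th f η ζ h x := by
  unfold ThL
  rw [IsLocalization.liftAlgHom_apply]
  exact IsLocalization.lift_eq _ _

lemma fr_top (B K : Type) [CommRing B] [Field K] [Algebra B K] :
    Fr B K (Algebra.ofId B K) (⊤ : Subalgebra K K) where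
  inj := by
    have : frMap B K (Algebra.ofId B K) =
        ((Algebra.TensorProduct.rid B K K : K ⊗[B] B ≃ₐ[K] K) : K ⊗[B] B →ₐ[K] K) := by
      refine Algebra.TensorProduct.ext (by ext) (by ext)
    rw [this]
    exact (Algebra.TensorProduct.rid B K K).injective
  rng := by
    rw [eq_top_iff]
    rintro x -
    refine ⟨x ⊗ₜ 1, ?_⟩
    simp [frMap]

lemma fr_one (hFRQ : Stmt_FRQ) (hFRL : Stmt_FRL) (B K : Type) [CommRing B] [Field K] [Algebra B K]
    (E : Type) [Field E] [Algebra K E] [Algebra B E] [IsScalarTower B K E] (f g : B[X]) (η ζ : E)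
    (hD : Dbl K (f.map (algebraMap B K)) E η ζ) (h : ζ ^ 2 = aeval η f) (hg : aeval η g ≠ 0) :
    Fr B K (ThL f g η ζ h hg) (Algebra.adjoin K {η, ζ, (aeval η g)⁻¹}) := by
  have h1 := hFRQ B K B K E (Algebra.ofId B K) ⊤ (fr_top B K) f η ζ hD (Th f η ζ h) (by
      intro r
      rw [Th_alg, aeval_C]
      exact (IsScalarTower.algebraMap_apply B K E r)) (by rw [Th_alg, aeval_X])
      (Th_om f η ζ h)
  have h2 : ((⊤ : Subalgebra K K).map (IsScalarTower.toAlgHom K K E) ⊔
      Algebra.adjoin K {η, ζ}) = Algebra.adjoin K {η, ζ} := by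
    refine sup_eq_right.2 ?_
    rintro _ ⟨c, -, rfl⟩
    exact Subalgebra.algebraMap_mem _ c
  rw [h2] at h1
  have h3 := hFRL B K (QuadraticAlgebra B[X] f 0) E (Th f η ζ h) _ h1
    (algebraMap B[X] (QuadraticAlgebra B[X] f 0) g) (by rw [Th_alg]; exact hg)
    (Localization.Away (algebraMap B[X] (QuadraticAlgebra B[X] f 0) g)) (ThL f g η ζ h hg)
    (ThL_alg f g η ζ h hg)
  rw [Th_alg, ← Algebra.adjoin_union] at h3
  have h4 : ({η, ζ} ∪ {(aeval η g)⁻¹} : Set E) = {η, ζ, (aeval η g)⁻¹} := by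
    rw [Set.insert_union, Set.singleton_union]
  rw [h4] at h3
  exact h3

/-- the common core -/
theorem core (hFRQ : Stmt_FRQ) (hFRL : Stmt_FRL) (hSMQ : Stmt_SMQ) (hMGD : Stmt_MGD)
    (B K' K'' : Type) [CommRing B] [Field K'] [Field K''] [Algebra B K'] [Algebra B K'']
    (E' E'' : Type) [Field E'] [Field E''] [Algebra K' E'] [Algebra K'' E'']
    [Algebra B E'] [Algebra B E''] [IsScalarTower B K' E'] [IsScalarTower B K'' E'']
    (hinj : Function.Injective (algebraMap B K')) (h2 : IsUnit (2 : B)) (f a b g : B[X])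
    (hab : a * f + b * derivative f = g) (η' ζ' : E') (η'' ζ'' : E'')
    (hD' : Dbl K' (f.map (algebraMap B K')) E' η' ζ')
    (hD'' : Dbl K'' (f.map (algebraMap B K'')) E'' η'' ζ'')
    (hg' : aeval η' g ≠ 0) (hg'' : aeval η'' g ≠ 0) :
    Good B K' K'' (Algebra.adjoin B
        {((η', η'') : E' × E''), ((ζ', ζ'') : E' × E''),
          (((aeval η' g)⁻¹, (aeval η'' g)⁻¹) : E' × E'')})
      (Algebra.adjoin K' {η', ζ', (aeval η' g)⁻¹})
      (Algebra.adjoin K'' {η'', ζ'', (aeval η'' g)⁻¹}) := by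
  have h' : ζ' ^ 2 = aeval η' f := by
    rw [hD'.eqn, aeval_map_algebraMap]
  have h'' : ζ'' ^ 2 = aeval η'' f := by
    rw [hD''.eqn, aeval_map_algebraMap]
  have f' := fr_one hFRQ hFRL B K' E' f g η' ζ' hD' h' hg'
  have f'' := fr_one hFRQ hFRL B K'' E'' f g η'' ζ'' hD'' h'' hg''
  have hsm : Algebra.Smooth B
      (Localization.Away (algebraMap B[X] (QuadraticAlgebra B[X] f 0) g)) :=
    hSMQ B f a b g h2 hab _
  have key := hMGD B K' K'' _ E' E'' (ThL f g η' ζ' h' hg') (ThL f g η'' ζ'' h'' hg'') _ _ hsm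
    hinj f' f''
  have hJ : ((ThL f g η' ζ' h' hg').prod (ThL f g η'' ζ'' h'' hg'')).range =
      Algebra.adjoin B {((η', η'') : E' × E''), ((ζ', ζ'') : E' × E''),
          (((aeval η' g)⁻¹, (aeval η'' g)⁻¹) : E' × E'')} := by
    apply le_antisymm
    · rintro _ ⟨x, rfl⟩
      obtain ⟨⟨q, ⟨_, n, rfl⟩⟩, hq⟩ := IsLocalization.surj
        (Submonoid.powers (algebraMap B[X] (QuadraticAlgebra B[X] f 0) g)) x
      set T := Algebra.adjoin B {((η', η'') : E' × E''), ((ζ', ζ'') : E' × E''),
          (((aeval η' g)⁻¹, (aeval η'' g)⁻¹) : E' × E'')} with hT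
      have m1 : ((η', η'') : E' × E'') ∈ T := Algebra.subset_adjoin (by simp)
      have m2 : ((ζ', ζ'') : E' × E'') ∈ T := Algebra.subset_adjoin (by simp)
      have m3 : (((aeval η' g)⁻¹, (aeval η'' g)⁻¹) : E' × E'') ∈ T :=
        Algebra.subset_adjoin (by simp)
      have hpair : ∀ p : B[X], ((aeval η' p, aeval η'' p) : E' × E'') = aeval (η', η'') p := by
        intro p
        apply Prod.ext
        · exact (Polynomial.aeval_algHom_apply (AlgHom.fst B E' E'') (η', η'') p)
        · exact (Polynomial.aeval_algHom_apply (AlgHom.snd B E' E'') (η', η'') p)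
      have mp : ∀ p : B[X], ((aeval η' p, aeval η'' p) : E' × E'') ∈ T := by
        intro p
        rw [hpair]
        exact (Algebra.adjoin_le (Set.singleton_subset_iff.2 m1))
          (Polynomial.aeval_mem_adjoin_singleton B _)
      have e' := congrArg (ThL f g η' ζ' h' hg') hq
      have e'' := congrArg (ThL f g η'' ζ'' h'' hg'') hq
      simp only [map_mul, ThL_alg, map_pow, Th_alg] at e' e''
      have x' : (ThL f g η' ζ' h' hg') x =
          (aeval η' q.re + aeval η' q.im * ζ') * ((aeval η' g)⁻¹) ^ n := by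
        rw [← Th_apply f η' ζ' h', ← e', inv_pow, mul_assoc, mul_inv_cancel₀ (pow_ne_zero n hg'),
          mul_one]
      have x'' : (ThL f g η'' ζ'' h'' hg'') x =
          (aeval η'' q.re + aeval η'' q.im * ζ'') * ((aeval η'' g)⁻¹) ^ n := by
        rw [← Th_apply f η'' ζ'' h'', ← e'', inv_pow, mul_assoc,
          mul_inv_cancel₀ (pow_ne_zero n hg''), mul_one]
      have : ((ThL f g η' ζ' h' hg').prod (ThL f g η'' ζ'' h'' hg'')) x =
          ((aeval η' q.re, aeval η'' q.re) + (aeval η' q.im, aeval η'' q.im) * (ζ', ζ'')) *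
            ((aeval η' g)⁻¹, (aeval η'' g)⁻¹) ^ n := by
        apply Prod.ext
        · exact x'
        · exact x''
      change ((ThL f g η' ζ' h' hg').prod (ThL f g η'' ζ'' h'' hg'')) x ∈ T
      rw [this]
      exact mul_mem (add_mem (mp _) (mul_mem (mp _) m2)) (pow_mem m3 n)
    · refine Algebra.adjoin_le ?_
      rintro x (rfl | rfl | rfl)
      · refine ⟨algebraMap _ _ (algebraMap B[X] (QuadraticAlgebra B[X] f 0) X), ?_⟩
        apply Prod.ext
        · change (ThL f g η' ζ' h' hg') _ = η'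
          rw [ThL_alg, Th_alg, aeval_X]
        · change (ThL f g η'' ζ'' h'' hg'') _ = η''
          rw [ThL_alg, Th_alg, aeval_X]
      · refine ⟨algebraMap _ _ (QuadraticAlgebra.omega : QuadraticAlgebra B[X] f 0), ?_⟩
        apply Prod.ext
        · change (ThL f g η' ζ' h' hg') _ = ζ'
          rw [ThL_alg, Th_om]
        · change (ThL f g η'' ζ'' h'' hg'') _ = ζ''
          rw [ThL_alg, Th_om]
      · obtain ⟨u, hu⟩ := IsLocalization.Away.algebraMap_isUnit
          (S := Localization.Away (algebraMap B[X] (QuadraticAlgebra B[X] f 0) g))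
          (algebraMap B[X] (QuadraticAlgebra B[X] f 0) g)
        refine ⟨((u⁻¹ : (Localization.Away (algebraMap B[X] (QuadraticAlgebra B[X] f 0) g))ˣ) :
          Localization.Away (algebraMap B[X] (QuadraticAlgebra B[X] f 0) g)), ?_⟩
        have hu1 : (u : Localization.Away (algebraMap B[X] (QuadraticAlgebra B[X] f 0) g)) *
          ((u⁻¹ : (Localization.Away (algebraMap B[X] (QuadraticAlgebra B[X] f 0) g))ˣ) :
          Localization.Away (algebraMap B[X] (QuadraticAlgebra B[X] f 0) g)) = 1 := u.mul_inv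
        rw [hu] at hu1
        have e' := congrArg (ThL f g η' ζ' h' hg') hu1
        have e'' := congrArg (ThL f g η'' ζ'' h'' hg'') hu1
        rw [map_mul, ThL_alg, Th_alg, map_one] at e' e''
        apply Prod.ext
        · exact (inv_eq_of_mul_eq_one_right e').symm
        · exact (inv_eq_of_mul_eq_one_right e'').symm
  rw [hJ] at key
  exact key

end

end GCore_

end Pool.CRD
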