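import Pool.Agent.CRD.Crv.Stmts

/-!
# CRD: localisations of good algebras are good
-/

open Polynomial TensorProduct

namespace Pool.CRD

noncomputable section

theorem GLO_proof (hFRL : Stmt_FRL) (hMGD : Stmt_MGD) : Stmt_GLO := by
  intro B K' K'' E' E'' _ _ _ _ _ _ _ _ _ _ _ _ _ J A' A'' hinj hG r hr hr1 hr2
  let rJ : J := ⟨r, hr⟩
  let R := Localization.Away rJ
  let θ₁ : J →ₐ[B] E' := (AlgHom.fst B E' E'').comp J.val
  let θ₂ : J →ₐ[B] E'' := (AlgHom.snd B E' E'').comp J.val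
  have hu₁ : ∀ y : Submonoid.powers rJ, IsUnit (θ₁ y) := by
    rintro ⟨_, n, rfl⟩
    change IsUnit (θ₁ (rJ ^ n))
    rw [map_pow]
    exact IsUnit.pow n (isUnit_iff_ne_zero.mpr hr1)
  have hu₂ : ∀ y : Submonoid.powers rJ, IsUnit (θ₂ y) := by
    rintro ⟨_, n, rfl⟩
    change IsUnit (θ₂ (rJ ^ n))
    rw [map_pow]
    exact IsUnit.pow n (isUnit_iff_ne_zero.mpr hr2)
  let θ' : R →ₐ[B] E' := IsLocalization.liftAlgHom (M := Submonoid.powers rJ) (f := θ₁) hu₁
  let θ'' : R →ₐ[B] E'' := IsLocalization.liftAlgHom (M := Submonoid.powers rJ) (f := θ₂) hu₂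
  have h1 : ∀ x : J, θ' (algebraMap J R x) = θ₁ x := fun x => IsLocalization.lift_eq _ x
  have h2 : ∀ x : J, θ'' (algebraMap J R x) = θ₂ x := fun x => IsLocalization.lift_eq _ x
  have hF1 : Fr B K' θ' (A' ⊔ Algebra.adjoin K' {r.1⁻¹}) :=
    hFRL B K' J E' θ₁ A' hG.fr' rJ hr1 R θ' h1
  have hF2 : Fr B K'' θ'' (A'' ⊔ Algebra.adjoin K'' {r.2⁻¹}) :=
    hFRL B K'' J E'' θ₂ A'' hG.fr'' rJ hr2 R θ'' h2
  have hsm : Algebra.Smooth B R := by
    have := hG.smooth
    have : Algebra.Smooth J R := Algebra.Smooth.of_isLocalization_Away rJ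
    exact Algebra.Smooth.comp B J R
  have hM := hMGD B K' K'' R E' E'' θ' θ'' _ _ hsm hinj hF1 hF2
  have hrr : r * r⁻¹ = 1 := Prod.ext (mul_inv_cancel₀ hr1) (mul_inv_cancel₀ hr2)
  have hval : ∀ x : J, (θ'.prod θ'') (algebraMap J R x) = (x : E' × E'') := fun x =>
    Prod.ext (h1 x) (h2 x)
  have hrange : (θ'.prod θ'').range = J ⊔ Algebra.adjoin B {r⁻¹} := by
    apply le_antisymm
    · rintro _ ⟨x, rfl⟩
      obtain ⟨⟨a, ⟨_, n, rfl⟩⟩, h⟩ := IsLocalization.surj (Submonoid.powers rJ) x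
      have h3 : (θ'.prod θ'') x * r ^ n = a := by
        have h4 := congrArg (θ'.prod θ'') h
        rw [map_mul, hval, hval] at h4
        exact h4
      have h5 : (θ'.prod θ'') x = a * (r⁻¹) ^ n := by
        rw [← h3, mul_assoc, ← mul_pow, hrr, one_pow, mul_one]
      change (θ'.prod θ'') x ∈ _
      rw [h5]
      refine mul_mem ((le_sup_left : J ≤ _) a.2) (pow_mem ?_ n)
      exact (le_sup_right : Algebra.adjoin B {r⁻¹} ≤ _) (Algebra.subset_adjoin rfl)
    · refine sup_le ?_ (Algebra.adjoin_le ?_)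
      · intro p hp
        exact ⟨algebraMap J R ⟨p, hp⟩, hval ⟨p, hp⟩⟩
      · rintro _ rfl
        refine ⟨IsLocalization.Away.invSelf rJ, ?_⟩
        have h3 : algebraMap J R rJ * IsLocalization.Away.invSelf rJ = 1 :=
          IsLocalization.Away.mul_invSelf rJ
        have h4 := congrArg (θ'.prod θ'') h3
        rw [map_mul, hval, map_one] at h4
        change r * _ = 1 at h4
        change (θ'.prod θ'') (IsLocalization.Away.invSelf rJ) = r⁻¹
        calc (θ'.prod θ'') (IsLocalization.Away.invSelf rJ)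
            = r⁻¹ * (r * (θ'.prod θ'') (IsLocalization.Away.invSelf rJ)) := by
              rw [← mul_assoc, mul_comm r⁻¹ r, hrr, one_mul]
          _ = r⁻¹ := by rw [h4, mul_one]
  rw [hrange] at hM
  exact hM

end

end Pool.CRD
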