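import Pool.Agent.CRD.Crv.Stmts

/-!
# CRD: the charts of the surface are good
-/

open Polynomial TensorProduct

namespace Pool.CRD

noncomputable section

namespace GSS_

theorem cov_cases (k : Cov Bool) : k = ca ∨ k = cb ∨ k = cab := by
  by_cases h0 : false ∈ k.s
  · by_cases h1 : true ∈ k.s
    · right; right
      apply Cov.ext'
      ext b
      cases b <;> simp [h0, h1, cab]
    · left
      apply Cov.ext'
      ext b
      cases b <;> simp [h0, h1, ca, Cov.one]
  · by_cases h1 : true ∈ k.s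
    · right; left
      apply Cov.ext'
      ext b
      cases b <;> simp [h0, h1, cb, Cov.one]
    · exfalso
      obtain ⟨b, hb⟩ := k.ne
      cases b
      · exact h0 hb
      · exact h1 hb

theorem mono {B F : Type} [CommRing B] [CommRing F] [Algebra B F]
    (J : Cov Bool → Subalgebra B F) (hJ : J cab = J ca ⊔ J cb) {s t : Cov Bool} (h : t ≤ s) :
    J s ≤ J t := by
  have ha : J ca ≤ J cab := by rw [hJ]; exact le_sup_left
  have hb : J cb ≤ J cab := by rw [hJ]; exact le_sup_right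
  rcases cov_cases s with rfl | rfl | rfl
  · rcases cov_cases t with rfl | rfl | rfl
    · exact le_rfl
    · exfalso
      have h1 : false ∈ cb.s := h (by simp [ca, Cov.one])
      simp [cb, Cov.one] at h1
    · exact ha
  · rcases cov_cases t with rfl | rfl | rfl
    · exfalso
      have h1 : true ∈ ca.s := h (by simp [cb, Cov.one])
      simp [ca, Cov.one] at h1
    · exact le_rfl
    · exact hb
  · have h1 : t = cab := by
      apply Cov.ext'
      have h2 : cab.s ⊆ t.s := h
      ext b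
      refine ⟨fun _ => Finset.mem_univ b, fun hb => h2 hb⟩
    rw [h1]

end GSS_

theorem GSS_proof (hGTN : Stmt_GTN) (_hXCA : Stmt_XCA) : Stmt_GSS := by
  intro B K' K'' _ _ _ _ _ c₁' c₂' c₁'' c₂'' _ _ _ _ _ _ _ _ J₁ J₂ S' S'' _ _ _ _ _ hinj hJ₁ hJ₂
  refine ⟨?_, ?_⟩
  · intro s
    exact hGTN B K' K'' c₁'.F c₂'.F S'.L c₁''.F c₂''.F S''.L (J₁ s.i) (J₂ s.j) (c₁'.A s.i)
      (c₁''.A s.i) (c₂'.A s.j) (c₂''.A s.j) S'.e₁ S'.e₂ S''.e₁ S''.e₂ hinj S'.inj S''.inj
      (hJ₁.good s.i) (hJ₂.good s.j)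
  · intro s t hst
    exact sup_le_sup (Subalgebra.map_mono (GSS_.mono J₁ hJ₁.ab hst.1))
      (Subalgebra.map_mono (GSS_.mono J₂ hJ₂.ab hst.2))

end

end Pool.CRD
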