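import Pool.Agent.CRD.Crv.Stmts

/-!
# CRD / Crv: products of good algebras
-/

open Polynomial TensorProduct

namespace Pool.CRD

theorem gtn_proof (hFRT : Stmt_FRT) (hMGD : Stmt_MGD) : Stmt_GTN := by
  intro B K' K'' _ _ _ _ _ F₁' F₂' L' F₁'' F₂'' L'' _ _ _ _ _ _ _ _ _ _ _ _ _ _ _ _ _ _ _ _ _ _ _ _
    J₁ J₂ A₁' A₁'' A₂' A₂'' e₁' e₂' e₁'' e₂'' hinj h' h'' G₁ G₂
  have := G₁.smooth
  have := G₂.smooth
  have hS : Algebra.Smooth B (J₁ ⊗[B] J₂) := Algebra.Smooth.comp B J₁ (J₁ ⊗[B] J₂)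
  let ψ₁ : F₁' × F₁'' →ₐ[B] L' × L'' :=
    (e₁'.restrictScalars B).prodMap (e₁''.restrictScalars B)
  let ψ₂ : F₂' × F₂'' →ₐ[B] L' × L'' :=
    (e₂'.restrictScalars B).prodMap (e₂''.restrictScalars B)
  let Θ' : J₁ ⊗[B] J₂ →ₐ[B] L' := Algebra.TensorProduct.productMap
    ((e₁'.restrictScalars B).comp ((AlgHom.fst B F₁' F₁'').comp J₁.val))
    ((e₂'.restrictScalars B).comp ((AlgHom.fst B F₂' F₂'').comp J₂.val))
  let Θ'' : J₁ ⊗[B] J₂ →ₐ[B] L'' := Algebra.TensorProduct.productMap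
    ((e₁''.restrictScalars B).comp ((AlgHom.snd B F₁' F₁'').comp J₁.val))
    ((e₂''.restrictScalars B).comp ((AlgHom.snd B F₂' F₂'').comp J₂.val))
  have f' := hFRT B K' J₁ J₂ F₁' F₂' L' _ A₁' _ A₂' G₁.fr' G₂.fr' e₁' e₂' h' Θ' (fun a b => rfl)
  have f'' := hFRT B K'' J₁ J₂ F₁'' F₂'' L'' _ A₁'' _ A₂'' G₁.fr'' G₂.fr'' e₁'' e₂'' h'' Θ''
      (fun a b => rfl)
  have key : (Θ'.prod Θ'').range = J₁.map ψ₁ ⊔ J₂.map ψ₂ := by
    have e : Θ'.prod Θ'' = Algebra.TensorProduct.productMap (ψ₁.comp J₁.val)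
        (ψ₂.comp J₂.val) := by
      ext a <;> (simp [Θ', Θ'', ψ₁, ψ₂]; rfl)
    rw [e, Algebra.TensorProduct.productMap_range, AlgHom.range_comp, AlgHom.range_comp,
      Subalgebra.range_val, Subalgebra.range_val]
  have := hMGD B K' K'' (J₁ ⊗[B] J₂) L' L'' Θ' Θ'' _ _ hS hinj f' f''
  rw [key] at this
  exact this

end Pool.CRD
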