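/-
MP_051437_ag, area CRV, common part of the modules GX0 and GX1 (helper89).
-/
import Pool.Agent.CRD.Crv.Stmts

set_option linter.style.longLine false

open Polynomial TensorProduct

namespace Pool.CRD

noncomputable section

namespace GXL_

section Th

variable {B R E : Type} [CommRing B] [CommRing R] [Algebra B R] [CommRing E] [Algebra B E]

/-- the map `R[X] ⊕ R[X] ω → E` -/
def Th (g : R →ₐ[B] E) (f : R[X]) (η ζ : E) (h : ζ ^ 2 = eval₂ g.toRingHom η f) :
    QuadraticAlgebra R[X] f 0 →ₐ[B] E where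
  toFun t := eval₂ g.toRingHom η t.re + eval₂ g.toRingHom η t.im * ζ
  map_one' := by
    have h1 : (1 : QuadraticAlgebra R[X] f 0).re = 1 := rfl
    have h2 : (1 : QuadraticAlgebra R[X] f 0).im = 0 := rfl
    rw [h1, h2, eval₂_one, eval₂_zero, zero_mul, add_zero]
  map_mul' x y := by
    rw [QuadraticAlgebra.re_mul, QuadraticAlgebra.im_mul, eval₂_add, eval₂_add, eval₂_add,
      eval₂_mul, eval₂_mul, eval₂_mul, eval₂_mul, eval₂_mul, eval₂_mul, eval₂_mul, eval₂_zero,
      ← h]
    ring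
  map_zero' := by
    have h1 : (0 : QuadraticAlgebra R[X] f 0).re = 0 := rfl
    have h2 : (0 : QuadraticAlgebra R[X] f 0).im = 0 := rfl
    rw [h1, h2, eval₂_zero, zero_mul, add_zero]
  map_add' x y := by
    rw [QuadraticAlgebra.re_add, QuadraticAlgebra.im_add, eval₂_add, eval₂_add]
    ring
  commutes' b := by
    have h1 : (algebraMap B (QuadraticAlgebra R[X] f 0) b).re = C (algebraMap B R b) := rfl
    have h2 : (algebraMap B (QuadraticAlgebra R[X] f 0) b).im = 0 := rfl
    rw [h1, h2, eval₂_zero, zero_mul, add_zero, eval₂_C]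
    exact g.commutes b

variable (g : R →ₐ[B] E) (f : R[X]) (η ζ : E) (h : ζ ^ 2 = eval₂ g.toRingHom η f)

theorem Th_apply (t : QuadraticAlgebra R[X] f 0) :
    Th g f η ζ h t = eval₂ g.toRingHom η t.re + eval₂ g.toRingHom η t.im * ζ := rfl

theorem Th_poly (p : R[X]) : Th g f η ζ h (algebraMap R[X] (QuadraticAlgebra R[X] f 0) p) =
    eval₂ g.toRingHom η p := by
  rw [Th_apply]
  have h1 : (algebraMap R[X] (QuadraticAlgebra R[X] f 0) p).re = p := rfl
  have h2 : (algebraMap R[X] (QuadraticAlgebra R[X] f 0) p).im = 0 := rfl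
  rw [h1, h2, eval₂_zero, zero_mul, add_zero]

theorem Th_C (r : R) : Th g f η ζ h (algebraMap R[X] (QuadraticAlgebra R[X] f 0) (C r)) = g r := by
  rw [Th_poly, eval₂_C]
  rfl

theorem Th_X : Th g f η ζ h (algebraMap R[X] (QuadraticAlgebra R[X] f 0) X) = η := by
  rw [Th_poly, eval₂_X]

theorem Th_omega : Th g f η ζ h QuadraticAlgebra.omega = ζ := by
  rw [Th_apply]
  have h1 : (QuadraticAlgebra.omega : QuadraticAlgebra R[X] f 0).re = 0 := rfl
  have h2 : (QuadraticAlgebra.omega : QuadraticAlgebra R[X] f 0).im = 1 := rfl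
  rw [h1, h2, eval₂_zero, eval₂_one, one_mul, zero_add]

end Th

theorem decomp {R : Type} [CommRing R] (f : R) (t : QuadraticAlgebra R f 0) :
    t = algebraMap R (QuadraticAlgebra R f 0) t.re +
      algebraMap R (QuadraticAlgebra R f 0) t.im * QuadraticAlgebra.omega := by
  apply QuadraticAlgebra.ext
  · simp
  · simp

theorem range_eq {B R E : Type} [CommRing B] [CommRing R] [Algebra B R] [CommRing E] [Algebra B E]
    (f : R[X]) (Φ : QuadraticAlgebra R[X] f 0 →ₐ[B] E) (g : R →ₐ[B] E) (e z : E)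
    (hC : ∀ c : R, Φ (algebraMap R[X] (QuadraticAlgebra R[X] f 0) (C c)) = g c)
    (hX : Φ (algebraMap R[X] (QuadraticAlgebra R[X] f 0) X) = e)
    (hO : Φ QuadraticAlgebra.omega = z) : Φ.range = g.range ⊔ Algebra.adjoin B {e, z} := by
  have heS : e ∈ g.range ⊔ Algebra.adjoin B {e, z} :=
    (le_sup_right : _ ≤ g.range ⊔ Algebra.adjoin B {e, z})
      (Algebra.subset_adjoin (Set.mem_insert _ _))
  have hzS : z ∈ g.range ⊔ Algebra.adjoin B {e, z} :=
    (le_sup_right : _ ≤ g.range ⊔ Algebra.adjoin B {e, z})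
      (Algebra.subset_adjoin (Set.mem_insert_of_mem _ rfl))
  apply le_antisymm
  · have hp : ∀ p : R[X], Φ (algebraMap R[X] (QuadraticAlgebra R[X] f 0) p) ∈
        g.range ⊔ Algebra.adjoin B {e, z} := by
      intro p
      induction p using Polynomial.induction_on' with
      | add p q hp hq =>
        rw [map_add, map_add]
        exact add_mem hp hq
      | monomial n c =>
        rw [← C_mul_X_pow_eq_monomial, map_mul, map_mul, map_pow, map_pow, hC, hX]
        refine mul_mem ?_ (pow_mem heS n)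
        exact (le_sup_left : g.range ≤ _) ⟨c, rfl⟩
    rintro _ ⟨t, rfl⟩
    change Φ t ∈ _
    rw [decomp f t, map_add, map_mul, hO]
    exact add_mem (hp _) (mul_mem (hp _) hzS)
  · apply sup_le
    · rintro _ ⟨c, rfl⟩
      exact ⟨algebraMap R[X] (QuadraticAlgebra R[X] f 0) (C c), hC c⟩
    · apply Algebra.adjoin_le
      rintro x (rfl | rfl)
      · exact ⟨_, hX⟩
      · exact ⟨_, hO⟩

/-- smoothness of the double cover -/
theorem smooth (hSMQ : Stmt_SMQ) (B R : Type) [CommRing B] [CommRing R] [Algebra B R]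
    (hB : Algebra.Smooth B R) (h2 : IsUnit (2 : R)) (f a b : R[X])
    (h : a * f + b * derivative f = 1) : Algebra.Smooth B (QuadraticAlgebra R[X] f 0) := by
  have h1 : IsLocalization.Away (algebraMap R[X] (QuadraticAlgebra R[X] f 0) 1)
      (QuadraticAlgebra R[X] f 0) := by
    rw [map_one]
    exact IsLocalization.away_of_isUnit_of_bijective _ isUnit_one Function.bijective_id
  have h3 : Algebra.Smooth R (QuadraticAlgebra R[X] f 0) :=
    hSMQ R f a b 1 h2 h (QuadraticAlgebra R[X] f 0)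
  exact Algebra.Smooth.comp B R (QuadraticAlgebra R[X] f 0)

/-- the conic step for an arbitrary polynomial `f` -/
theorem step (hFRQ : Stmt_FRQ) (hSMQ : Stmt_SMQ) (hMGD : Stmt_MGD)
    (B K' K'' L' L'' E' E'' : Type) [CommRing B] [Field K'] [Field K'']
    [Algebra B K'] [Algebra B K''] [Field L'] [Field L''] [Field E'] [Field E'']
    [Algebra K' L'] [Algebra B L'] [IsScalarTower B K' L']
    [Algebra K'' L''] [Algebra B L''] [IsScalarTower B K'' L'']
    [Algebra L' E'] [Algebra K' E'] [IsScalarTower K' L' E'] [Algebra B E']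
    [IsScalarTower B K' E'] [Algebra L'' E''] [Algebra K'' E''] [IsScalarTower K'' L'' E'']
    [Algebra B E''] [IsScalarTower B K'' E'']
    (J : Subalgebra B (L' × L'')) (A' : Subalgebra K' L') (A'' : Subalgebra K'' L'')
    (ψ : L' × L'' →ₐ[B] E' × E'') (two : IsUnit (2 : B))
    (inj : Function.Injective (algebraMap B K')) (good : Good B K' K'' J A' A'')
    (ψ_eq : ∀ p : L' × L'', ψ p = (algebraMap L' E' p.1, algebraMap L'' E'' p.2))
    (f a b : J[X]) (hab : a * f + b * derivative f = 1) (e z : E' × E'')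
    (d' : Dbl L' (f.map ((AlgHom.fst B L' L'').comp J.val).toRingHom) E' e.1 z.1)
    (d'' : Dbl L'' (f.map ((AlgHom.snd B L' L'').comp J.val).toRingHom) E'' e.2 z.2) :
    Good B K' K'' (J.map ψ ⊔ Algebra.adjoin B {e, z})
      (A'.map (IsScalarTower.toAlgHom K' L' E') ⊔ Algebra.adjoin K' {e.1, z.1})
      (A''.map (IsScalarTower.toAlgHom K'' L'' E'') ⊔ Algebra.adjoin K'' {e.2, z.2}) := by
  let g' : J →ₐ[B] E' := ((IsScalarTower.toAlgHom K' L' E').restrictScalars B).comp
    ((AlgHom.fst B L' L'').comp J.val)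
  let g'' : J →ₐ[B] E'' := ((IsScalarTower.toAlgHom K'' L'' E'').restrictScalars B).comp
    ((AlgHom.snd B L' L'').comp J.val)
  have hz' : z.1 ^ 2 = eval₂ g'.toRingHom e.1 f := by
    rw [d'.eqn, aeval_def, eval₂_map]
    rfl
  have hz'' : z.2 ^ 2 = eval₂ g''.toRingHom e.2 f := by
    rw [d''.eqn, aeval_def, eval₂_map]
    rfl
  have h2 : IsUnit (2 : J) := by
    have h := two.map (algebraMap B J)
    rwa [map_ofNat] at h
  have hs : Algebra.Smooth B (QuadraticAlgebra J[X] f 0) :=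
    smooth hSMQ B J good.smooth h2 f a b hab
  have fr1 := hFRQ B K' J L' E' ((AlgHom.fst B L' L'').comp J.val) A' good.fr' f e.1 z.1 d'
    (Th g' f e.1 z.1 hz') (Th_C g' f e.1 z.1 hz') (Th_X g' f e.1 z.1 hz')
    (Th_omega g' f e.1 z.1 hz')
  have fr2 := hFRQ B K'' J L'' E'' ((AlgHom.snd B L' L'').comp J.val) A'' good.fr'' f e.2 z.2 d''
    (Th g'' f e.2 z.2 hz'') (Th_C g'' f e.2 z.2 hz'') (Th_X g'' f e.2 z.2 hz'')
    (Th_omega g'' f e.2 z.2 hz'')
  have hg := hMGD B K' K'' (QuadraticAlgebra J[X] f 0) E' E'' (Th g' f e.1 z.1 hz')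
    (Th g'' f e.2 z.2 hz'') _ _ hs inj fr1 fr2
  have hr : ((Th g' f e.1 z.1 hz').prod (Th g'' f e.2 z.2 hz'')).range =
      J.map ψ ⊔ Algebra.adjoin B {e, z} := by
    have h1 : J.map ψ = (ψ.comp J.val).range := by
      rw [AlgHom.range_comp, Subalgebra.range_val]
    rw [h1]
    apply range_eq
    · intro c
      change _ = ψ (c : L' × L'')
      rw [ψ_eq]
      exact Prod.ext (Th_C g' f e.1 z.1 hz' c) (Th_C g'' f e.2 z.2 hz'' c)
    · exact Prod.ext (Th_X g' f e.1 z.1 hz') (Th_X g'' f e.2 z.2 hz'')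
    · exact Prod.ext (Th_omega g' f e.1 z.1 hz') (Th_omega g'' f e.2 z.2 hz'')
  rw [hr] at hg
  exact hg

end GXL_

end

end Pool.CRD
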