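/-
MP_051437_ag, area CRV, module GX0 (helper89).
-/
import Pool.Agent.CRD.Crv.GXL

set_option linter.style.longLine false

open Polynomial TensorProduct

namespace Pool.CRD

noncomputable section

namespace GX0_

theorem ident {R : Type} [CommRing R] (u v vi w : R) (hv : v * vi = 1) (hw : 2 * w = 1) :
    C v * (C vi * (1 - C u * X ^ 2)) +
      (-(C (v * w) * X)) * derivative (C vi * (1 - C u * X ^ 2) : R[X]) = 1 := by
  have h1 : derivative (C vi * (1 - C u * X ^ 2) : R[X]) = - (C 2 * C vi * C u * X) := by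
    have h0 : (C (2 : R) : R[X]) = 2 := map_ofNat C 2
    rw [h0]
    simp
    ring
  have h2 : (C v * C vi : R[X]) = 1 := by rw [← C_mul, hv, C_1]
  have h3 : (C 2 * C w : R[X]) = 1 := by rw [← C_mul, hw, C_1]
  rw [h1, C_mul]
  linear_combination (1 - C u * X ^ 2 + C 2 * C w * C u * X ^ 2) * h2 + C u * X ^ 2 * h3

theorem map_f {R L : Type} [CommRing R] [CommRing L] (g : R →+* L) (u vi : R) :
    (C vi * (1 - C u * X ^ 2) : R[X]).map g = C (g vi) * (1 - C (g u) * X ^ 2) := by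
  simp

end GX0_

theorem gx0_proof (hFRQ : Stmt_FRQ) (hSMQ : Stmt_SMQ) (hMGD : Stmt_MGD) : Stmt_GX0 := by
  intro B K' K'' L' L'' E' E'' _ _ _ _ _ _ _ _ _ _ _ _ _ _ _ _ _ _ _ _ _ _ _ _ _ J A' A'' u v e z ψ h
  obtain ⟨w, hw⟩ := h.two.exists_right_inv
  have hv : v * v⁻¹ = 1 := by
    apply Prod.ext
    · exact mul_inv_cancel₀ h.v1
    · exact mul_inv_cancel₀ h.v2
  have hvJ : (⟨v, h.v_mem⟩ : J) * ⟨v⁻¹, h.vinv_mem⟩ = 1 := Subtype.ext hv
  have hwJ : (2 : J) * algebraMap B J w = 1 := by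
    have h1 := congrArg (algebraMap B J) hw
    rwa [map_mul, map_ofNat, map_one] at h1
  refine GXL_.step hFRQ hSMQ hMGD B K' K'' L' L'' E' E'' J A' A'' ψ h.two h.inj h.good h.ψ_eq
    (C ⟨v⁻¹, h.vinv_mem⟩ * (1 - C ⟨u, h.u_mem⟩ * X ^ 2)) _ _ (GX0_.ident _ _ _ _ hvJ hwJ) e z ?_ ?_
  · rw [GX0_.map_f]
    exact h.dbl'
  · rw [GX0_.map_f]
    exact h.dbl''

end

end Pool.CRD
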