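import Pool.Agent.CRD.Crv.Stmts

/-!
# CRD: the charts of the threefold are good
-/

open Polynomial TensorProduct

namespace Pool.CRD

noncomputable section

namespace GXX_

theorem cov_cases (k : Cov Bool) : k = ca ∨ k = cb ∨ k = cab := by
  by_cases h0 : false ∈ k.s
  · by_cases h1 : true ∈ k.s
    · right; right
      apply Cov.ext'
      ext b
      cases b <;> simp [h0, h1, cab]
    · left
      apply Cov.ext'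
      ext b
      cases b <;> simp [h0, h1, ca, Cov.one]
  · by_cases h1 : true ∈ k.s
    · right; left
      apply Cov.ext'
      ext b
      cases b <;> simp [h0, h1, cb, Cov.one]
    · exfalso
      obtain ⟨b, hb⟩ := k.ne
      cases b
      · exact h0 hb
      · exact h1 hb

theorem ixX_ca : ixX ca = {0, 1} := by
  ext n
  fin_cases n <;> simp [ixX, ca, Cov.one]

theorem ixX_cb : ixX cb = {2, 3} := by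
  ext n
  fin_cases n <;> simp [ixX, cb, Cov.one]

theorem ixX_cab : ixX cab = {0, 1} ∪ {2, 3} := by
  ext n
  fin_cases n <;> simp [ixX, cab]

section
variable {B L E : Type} [CommRing B] [CommRing L] [CommRing E] [Inv E] [Algebra B L] [Algebra B E]
    (A : Ch2 → Subalgebra B L) (ψ : L →ₐ[B] E) (h₁ h₂ : Cov Bool → L) (η ζ : E) (i j : Cov Bool)

theorem CA_a : CA A ψ h₁ h₂ η ζ ⟨i, j, ca⟩ =
    (A ⟨i, j⟩).map ψ ⊔ Algebra.adjoin B {ψ (h₁ i) * η, ψ (h₂ j) * ζ} := by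
  unfold CA
  rw [ixX_ca, Set.image_pair]
  rfl

theorem CA_b : CA A ψ h₁ h₂ η ζ ⟨i, j, cb⟩ =
    (A ⟨i, j⟩).map ψ ⊔ Algebra.adjoin B {(ψ (h₁ i) * η)⁻¹,
      (ψ (h₂ j) * ζ) * (ψ (h₁ i) * η)⁻¹} := by
  unfold CA
  rw [ixX_cb, Set.image_pair]
  rfl

theorem CA_ab : CA A ψ h₁ h₂ η ζ ⟨i, j, cab⟩ =
    ((A ⟨i, j⟩).map ψ ⊔ Algebra.adjoin B {ψ (h₁ i) * η, ψ (h₂ j) * ζ}) ⊔
      Algebra.adjoin B {(ψ (h₁ i) * η)⁻¹} := by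
  unfold CA
  rw [ixX_cab, Set.image_union, Set.image_pair, Set.image_pair]
  apply le_antisymm
  · refine sup_le (le_sup_left.trans le_sup_left) (Algebra.adjoin_le ?_)
    have h0 : (ψ (h₁ i) * η) ∈ ((A ⟨i, j⟩).map ψ ⊔ Algebra.adjoin B
        {ψ (h₁ i) * η, ψ (h₂ j) * ζ}) ⊔ Algebra.adjoin B {(ψ (h₁ i) * η)⁻¹} :=
      (le_sup_left : _ ≤ ((A ⟨i, j⟩).map ψ ⊔ Algebra.adjoin B
        {ψ (h₁ i) * η, ψ (h₂ j) * ζ}) ⊔ Algebra.adjoin B {(ψ (h₁ i) * η)⁻¹})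
        ((le_sup_right : Algebra.adjoin B {ψ (h₁ i) * η, ψ (h₂ j) * ζ} ≤ (A ⟨i, j⟩).map ψ ⊔
          Algebra.adjoin B {ψ (h₁ i) * η, ψ (h₂ j) * ζ})
        (Algebra.subset_adjoin (Or.inl rfl)))
    have h1 : (ψ (h₂ j) * ζ) ∈ ((A ⟨i, j⟩).map ψ ⊔ Algebra.adjoin B
        {ψ (h₁ i) * η, ψ (h₂ j) * ζ}) ⊔ Algebra.adjoin B {(ψ (h₁ i) * η)⁻¹} :=
      (le_sup_left : _ ≤ ((A ⟨i, j⟩).map ψ ⊔ Algebra.adjoin B
        {ψ (h₁ i) * η, ψ (h₂ j) * ζ}) ⊔ Algebra.adjoin B {(ψ (h₁ i) * η)⁻¹})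
        ((le_sup_right : Algebra.adjoin B {ψ (h₁ i) * η, ψ (h₂ j) * ζ} ≤ (A ⟨i, j⟩).map ψ ⊔
          Algebra.adjoin B {ψ (h₁ i) * η, ψ (h₂ j) * ζ})
        (Algebra.subset_adjoin (Or.inr rfl)))
    have h2 : (ψ (h₁ i) * η)⁻¹ ∈ ((A ⟨i, j⟩).map ψ ⊔ Algebra.adjoin B
        {ψ (h₁ i) * η, ψ (h₂ j) * ζ}) ⊔ Algebra.adjoin B {(ψ (h₁ i) * η)⁻¹} :=
      (le_sup_right : Algebra.adjoin B {(ψ (h₁ i) * η)⁻¹} ≤ ((A ⟨i, j⟩).map ψ ⊔ Algebra.adjoin B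
        {ψ (h₁ i) * η, ψ (h₂ j) * ζ}) ⊔ Algebra.adjoin B {(ψ (h₁ i) * η)⁻¹})
        (Algebra.subset_adjoin rfl)
    rintro t ((rfl | rfl) | (rfl | rfl))
    · exact h0
    · exact h1
    · exact h2
    · exact mul_mem h1 h2
  · refine sup_le (sup_le le_sup_left (le_sup_of_le_right (Algebra.adjoin_mono ?_)))
      (le_sup_of_le_right (Algebra.adjoin_mono ?_))
    · rintro t (rfl | rfl)
      · exact Or.inl (Or.inl rfl)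
      · exact Or.inl (Or.inr rfl)
    · rintro t rfl
      exact Or.inr (Or.inl rfl)

end

end GXX_

theorem GXX_proof (hGSS : Stmt_GSS) (hGX0 : Stmt_GX0) (hGX1 : Stmt_GX1) (hGLO : Stmt_GLO)
    (hXCA : Stmt_XCA) : Stmt_GXX := by
  intro B K' K'' _ _ _ _ _ c₁' c₂' c₁'' c₂'' _ _ _ _ _ _ _ _ J₁ J₂ S' S'' _ _ _ _ X' X'' _ _ _ _
    _ _ h2 hinj hJ₁ hJ₂ s
  obtain ⟨i, j, k⟩ := s
  obtain ⟨hS, -⟩ := hGSS B K' K'' c₁' c₂' c₁'' c₂'' J₁ J₂ S' S'' h2 hinj hJ₁ hJ₂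
  have hgood := hS ⟨i, j⟩
  obtain ⟨-, hX'A, hD'⟩ := hXCA K' c₁' c₂' S' X'
  obtain ⟨-, hX''A, hD''⟩ := hXCA K'' c₁'' c₂'' S'' X''
  let ψ := ((IsScalarTower.toAlgHom B S'.L X'.E).prodMap (IsScalarTower.toAlgHom B S''.L X''.E))
  -- the functions
  have hle1 : (J₁ i).map ((S'.e₁.restrictScalars B).prodMap (S''.e₁.restrictScalars B)) ≤
      J2 J₁ J₂ S' S'' ⟨i, j⟩ := le_sup_left
  have hle2 : (J₂ j).map ((S'.e₂.restrictScalars B).prodMap (S''.e₂.restrictScalars B)) ≤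
      J2 J₁ J₂ S' S'' ⟨i, j⟩ := le_sup_right
  have hu : ((S'.x₁ / S'.h₁ i ^ 2, S''.x₁ / S''.h₁ i ^ 2) : S'.L × S''.L) ∈
      J2 J₁ J₂ S' S'' ⟨i, j⟩ := by
    refine hle1 ⟨_, hJ₁.u_mem i, ?_⟩
    refine Prod.ext ?_ ?_
    · change S'.e₁ (c₁'.x / c₁'.h i ^ 2) = S'.e₁ c₁'.x / S'.e₁ (c₁'.h i) ^ 2
      rw [map_div₀, map_pow]
    · change S''.e₁ (c₁''.x / c₁''.h i ^ 2) = S''.e₁ c₁''.x / S''.e₁ (c₁''.h i) ^ 2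
      rw [map_div₀, map_pow]
  have hui : ((S'.x₁ / S'.h₁ i ^ 2, S''.x₁ / S''.h₁ i ^ 2) : S'.L × S''.L)⁻¹ ∈
      J2 J₁ J₂ S' S'' ⟨i, j⟩ := by
    refine hle1 ⟨_, hJ₁.uinv_mem i, ?_⟩
    refine Prod.ext ?_ ?_
    · change S'.e₁ ((c₁'.x / c₁'.h i ^ 2)⁻¹) = (S'.e₁ c₁'.x / S'.e₁ (c₁'.h i) ^ 2)⁻¹
      rw [map_inv₀, map_div₀, map_pow]
    · change S''.e₁ ((c₁''.x / c₁''.h i ^ 2)⁻¹) = (S''.e₁ c₁''.x / S''.e₁ (c₁''.h i) ^ 2)⁻¹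
      rw [map_inv₀, map_div₀, map_pow]
  have hv : ((S'.x₂ / S'.h₂ j ^ 2, S''.x₂ / S''.h₂ j ^ 2) : S'.L × S''.L) ∈
      J2 J₁ J₂ S' S'' ⟨i, j⟩ := by
    refine hle2 ⟨_, hJ₂.u_mem j, ?_⟩
    refine Prod.ext ?_ ?_
    · change S'.e₂ (c₂'.x / c₂'.h j ^ 2) = S'.e₂ c₂'.x / S'.e₂ (c₂'.h j) ^ 2
      rw [map_div₀, map_pow]
    · change S''.e₂ (c₂''.x / c₂''.h j ^ 2) = S''.e₂ c₂''.x / S''.e₂ (c₂''.h j) ^ 2
      rw [map_div₀, map_pow]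
  have hvi : ((S'.x₂ / S'.h₂ j ^ 2, S''.x₂ / S''.h₂ j ^ 2) : S'.L × S''.L)⁻¹ ∈
      J2 J₁ J₂ S' S'' ⟨i, j⟩ := by
    refine hle2 ⟨_, hJ₂.uinv_mem j, ?_⟩
    refine Prod.ext ?_ ?_
    · change S'.e₂ ((c₂'.x / c₂'.h j ^ 2)⁻¹) = (S'.e₂ c₂'.x / S'.e₂ (c₂'.h j) ^ 2)⁻¹
      rw [map_inv₀, map_div₀, map_pow]
    · change S''.e₂ ((c₂''.x / c₂''.h j ^ 2)⁻¹) = (S''.e₂ c₂''.x / S''.e₂ (c₂''.h j) ^ 2)⁻¹
      rw [map_inv₀, map_div₀, map_pow]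
  have he₁ : ∀ {K : Type} [Field K] {c₁ c₂ : CurveData K} (S : SurfData c₁ c₂) (t : c₁.F),
      t ≠ 0 → S.e₁ t ≠ 0 := fun S t ht => by
    rw [Ne, map_eq_zero_iff S.e₁ S.e₁.injective]; exact ht
  have he₂ : ∀ {K : Type} [Field K] {c₁ c₂ : CurveData K} (S : SurfData c₁ c₂) (t : c₂.F),
      t ≠ 0 → S.e₂ t ≠ 0 := fun S t ht => by
    rw [Ne, map_eq_zero_iff S.e₂ S.e₂.injective]; exact ht
  have hstep : ConStep B K' K'' S'.L S''.L X'.E X''.E (J2 J₁ J₂ S' S'' ⟨i, j⟩) (S'.A i j)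
      (S''.A i j) (S'.x₁ / S'.h₁ i ^ 2, S''.x₁ / S''.h₁ i ^ 2)
      (S'.x₂ / S'.h₂ j ^ 2, S''.x₂ / S''.h₂ j ^ 2) (X'.eta i, X''.eta i)
      (X'.zeta j, X''.zeta j) ψ :=
    { two := h2
      inj := hinj
      good := hgood
      u_mem := hu
      uinv_mem := hui
      v_mem := hv
      vinv_mem := hvi
      u1 := div_ne_zero (he₁ S' _ c₁'.x_ne) (pow_ne_zero 2 (he₁ S' _ (c₁'.h_ne i)))
      u2 := div_ne_zero (he₁ S'' _ c₁''.x_ne) (pow_ne_zero 2 (he₁ S'' _ (c₁''.h_ne i)))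
      v1 := div_ne_zero (he₂ S' _ c₂'.x_ne) (pow_ne_zero 2 (he₂ S' _ (c₂'.h_ne j)))
      v2 := div_ne_zero (he₂ S'' _ c₂''.x_ne) (pow_ne_zero 2 (he₂ S'' _ (c₂''.h_ne j)))
      ψ_eq := fun p => rfl
      dbl' := hD' i j
      dbl'' := hD'' i j }
  have h0 := hGX0 B K' K'' S'.L S''.L X'.E X''.E _ _ _ _ _ _ _ _ hstep
  have h1 := hGX1 B K' K'' S'.L S''.L X'.E X''.E _ _ _ _ _ _ _ _ hstep
  have hAX' : X'.A i j k = CA (SA c₁'.A c₂'.A S'.e₁ S'.e₂)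
      (IsScalarTower.toAlgHom K' S'.L X'.E) S'.h₁ S'.h₂ X'.η X'.ζ ⟨i, j, k⟩ := hX'A ⟨i, j, k⟩
  have hAX'' : X''.A i j k = CA (SA c₁''.A c₂''.A S''.e₁ S''.e₂)
      (IsScalarTower.toAlgHom K'' S''.L X''.E) S''.h₁ S''.h₂ X''.η X''.ζ ⟨i, j, k⟩ :=
    hX''A ⟨i, j, k⟩
  change Good B K' K'' (J3 J₁ J₂ X' X'' ⟨i, j, k⟩) (X'.A i j k) (X''.A i j k)
  rw [hAX', hAX'']
  unfold J3
  have heta : ∀ {K : Type} [Field K] {c₁ c₂ : CurveData K} {S : SurfData c₁ c₂}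
      (X : ConicData S), X.eta i ≠ 0 := fun {K} _ {c₁ c₂} {S} X => by
    unfold ConicData.eta
    refine mul_ne_zero ?_ ?_
    · rw [Ne, map_eq_zero]
      exact he₁ S _ (c₁.h_ne i)
    · exact fun h => X.tr (by rw [h]; exact isAlgebraic_zero)
  rcases GXX_.cov_cases k with rfl | rfl | rfl
  · rw [GXX_.CA_a, GXX_.CA_a, GXX_.CA_a]
    exact h0
  · rw [GXX_.CA_b, GXX_.CA_b, GXX_.CA_b]
    exact h1
  · rw [GXX_.CA_ab, GXX_.CA_ab, GXX_.CA_ab]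
    refine hGLO B K' K'' X'.E X''.E _ _ _ hinj h0 (X'.eta i, X''.eta i) ?_ (heta X') (heta X'')
    exact (le_sup_right : Algebra.adjoin B _ ≤ _) (Algebra.subset_adjoin (Or.inl rfl))

end

end Pool.CRD
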