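import Pool.Agent.CRD.Crv.Stmts

/-!
# CRD: first projections of the charts of the surface and of the threefold
-/

open Polynomial TensorProduct

namespace Pool.CRD

noncomputable section

theorem JFS_proof : Stmt_JFS := by
  intro B K' K'' _ _ _ _ _ c₁' c₂' c₁'' c₂'' _ _ _ _ _ _ _ _ J₁ J₂ S' S'' _ _ _ _ X' X'' _ _ _ _
    _ _
  have h1 : ∀ s : Ch2, (J2 J₁ J₂ S' S'' s).map (AlgHom.fst B S'.L S''.L) =
    SA (fun i => (J₁ i).map (AlgHom.fst B c₁'.F c₁''.F))
      (fun j => (J₂ j).map (AlgHom.fst B c₂'.F c₂''.F))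
      (S'.e₁.restrictScalars B) (S'.e₂.restrictScalars B) s := by
    intro s
    unfold J2 SA
    rw [Algebra.map_sup, Subalgebra.map_map, Subalgebra.map_map, Subalgebra.map_map,
      Subalgebra.map_map]
    rfl
  refine ⟨h1, ?_⟩
  intro s
  unfold J3 CA
  rw [Algebra.map_sup, Subalgebra.map_map, AlgHom.map_adjoin, ← h1, Subalgebra.map_map]
  have h2 : (AlgHom.fst B X'.E X''.E) '' (gX
      (((IsScalarTower.toAlgHom B S'.L X'.E).prodMap (IsScalarTower.toAlgHom B S''.L X''.E))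
        (S'.h₁ s.i, S''.h₁ s.i))
      (((IsScalarTower.toAlgHom B S'.L X'.E).prodMap (IsScalarTower.toAlgHom B S''.L X''.E))
        (S'.h₂ s.j, S''.h₂ s.j)) (X'.η, X''.η) (X'.ζ, X''.ζ) '' ixX s.k) =
      gX ((IsScalarTower.toAlgHom B S'.L X'.E) (S'.h₁ s.i))
        ((IsScalarTower.toAlgHom B S'.L X'.E) (S'.h₂ s.j)) X'.η X'.ζ '' ixX s.k := by
    rw [Set.image_image]
    apply Set.image_congr
    intro n _
    fin_cases n <;> rfl
  rw [h2]
  rfl

end

end Pool.CRD
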