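import Pool.Agent.CRD.Crv.Stmts

/-!
# CRD: restriction of pairs of functions of the threefold
-/

open Polynomial TensorProduct

namespace Pool.CRD

noncomputable section

namespace JMO_

lemma cov_cases (t : Cov Bool) : t = ca ∨ t = cb ∨ t = cab := by
  have h := t.ne
  by_cases h1 : false ∈ t.s <;> by_cases h2 : true ∈ t.s
  · right; right
    apply Cov.ext'
    ext x
    cases x <;> simp [cab, h1, h2]
  · left
    apply Cov.ext'
    ext x
    cases x <;> simp [ca, Cov.one, h1, h2]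
  · right; left
    apply Cov.ext'
    ext x
    cases x <;> simp [cb, Cov.one, h1, h2]
  · exfalso
    obtain ⟨x, hx⟩ := h
    cases x <;> contradiction

lemma cab_le (s : Cov Bool) : cab ≤ s := fun x _ => Finset.mem_univ x

lemma J_mono {M : Type} [Lattice M] (J : Cov Bool → M) (hJ : J cab = J ca ⊔ J cb)
    {s t : Cov Bool} (h : t ≤ s) : J s ≤ J t := by
  have h1 : J s ≤ J cab := by
    rcases cov_cases s with rfl | rfl | rfl
    · rw [hJ]; exact le_sup_left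
    · rw [hJ]; exact le_sup_right
    · exact le_rfl
  by_cases hst : s = t
  · rw [hst]
  · have ht : t = cab := by
      rcases cov_cases t with ht | ht | ht
      · exfalso
        apply hst
        rw [ht] at h ⊢
        rcases cov_cases s with hs | hs | hs
        · exact hs
        · exfalso
          rw [hs] at h
          have := h (Finset.mem_singleton_self true)
          simp [ca, Cov.one] at this
        · exfalso
          rw [hs] at h
          have := h (Finset.mem_univ true)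
          simp [ca, Cov.one] at this
      · exfalso
        apply hst
        rw [ht] at h ⊢
        rcases cov_cases s with hs | hs | hs
        · exfalso
          rw [hs] at h
          have := h (Finset.mem_singleton_self false)
          simp [cb, Cov.one] at this
        · exact hs
        · exfalso
          rw [hs] at h
          have := h (Finset.mem_univ false)
          simp [cb, Cov.one] at this
      · exact ht
    rw [ht]
    exact h1

end JMO_

open JMO_ in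
theorem jmo_proof : Stmt_JMO := by
  intro B K' K'' _ _ _ _ _ c₁' c₂' c₁'' c₂'' _ _ _ _ _ _ _ _ J₁ J₂ S' S'' _ _ _ _ X' X'' _ _ _ _ _ _
  intro h₁ h₂ s t hts
  have hi : t.i ≤ s.i := hts.1
  have hj : t.j ≤ s.j := hts.2.1
  have hk : t.k ≤ s.k := hts.2.2
  set ψ : S'.L × S''.L →ₐ[B] X'.E × X''.E :=
    (IsScalarTower.toAlgHom B S'.L X'.E).prodMap (IsScalarTower.toAlgHom B S''.L X''.E) with hψ
  have hψe : ∀ a b, ψ (a, b) = (algebraMap S'.L X'.E a, algebraMap S''.L X''.E b) := fun a b => rfl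
  have hS : J2 J₁ J₂ S' S'' ⟨s.i, s.j⟩ ≤ J2 J₁ J₂ S' S'' ⟨t.i, t.j⟩ :=
    sup_le_sup (Subalgebra.map_mono (J_mono J₁ h₁.ab hi)) (Subalgebra.map_mono (J_mono J₂ h₂.ab hj))
  have hmemS : ∀ z ∈ J2 J₁ J₂ S' S'' ⟨t.i, t.j⟩, ψ z ∈ J3 J₁ J₂ X' X'' t := fun z hz =>
    (le_sup_left : _ ≤ J3 J₁ J₂ X' X'' t) ⟨z, hz, rfl⟩
  have hmemG : ∀ n ∈ ixX t.k, gX (ψ (S'.h₁ t.i, S''.h₁ t.i)) (ψ (S'.h₂ t.j, S''.h₂ t.j))
      (X'.η, X''.η) (X'.ζ, X''.ζ) n ∈ J3 J₁ J₂ X' X'' t := fun n hn =>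
    (le_sup_right : _ ≤ J3 J₁ J₂ X' X'' t) (Algebra.subset_adjoin ⟨n, hn, rfl⟩)
  -- the quotients
  have q1 : (algebraMap S'.L X'.E (S'.h₁ s.i) / algebraMap S'.L X'.E (S'.h₁ t.i),
      algebraMap S''.L X''.E (S''.h₁ s.i) / algebraMap S''.L X''.E (S''.h₁ t.i)) ∈
        J3 J₁ J₂ X' X'' t := by
    have h := hmemS _ ((le_sup_left : _ ≤ J2 J₁ J₂ S' S'' ⟨t.i, t.j⟩)
      ⟨_, (h₁.h_div hi).1, rfl⟩)
    change (algebraMap S'.L X'.E (S'.e₁ (c₁'.h s.i / c₁'.h t.i)),
      algebraMap S''.L X''.E (S''.e₁ (c₁''.h s.i / c₁''.h t.i))) ∈ _ at h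
    simpa only [SurfData.h₁, map_div₀] using h
  have q2 : (algebraMap S'.L X'.E (S'.h₁ t.i) / algebraMap S'.L X'.E (S'.h₁ s.i),
      algebraMap S''.L X''.E (S''.h₁ t.i) / algebraMap S''.L X''.E (S''.h₁ s.i)) ∈
        J3 J₁ J₂ X' X'' t := by
    have h := hmemS _ ((le_sup_left : _ ≤ J2 J₁ J₂ S' S'' ⟨t.i, t.j⟩)
      ⟨_, (h₁.h_div hi).2, rfl⟩)
    change (algebraMap S'.L X'.E (S'.e₁ (c₁'.h t.i / c₁'.h s.i)),
      algebraMap S''.L X''.E (S''.e₁ (c₁''.h t.i / c₁''.h s.i))) ∈ _ at h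
    simpa only [SurfData.h₁, map_div₀] using h
  have q3 : (algebraMap S'.L X'.E (S'.h₂ s.j) / algebraMap S'.L X'.E (S'.h₂ t.j),
      algebraMap S''.L X''.E (S''.h₂ s.j) / algebraMap S''.L X''.E (S''.h₂ t.j)) ∈
        J3 J₁ J₂ X' X'' t := by
    have h := hmemS _ ((le_sup_right : _ ≤ J2 J₁ J₂ S' S'' ⟨t.i, t.j⟩)
      ⟨_, (h₂.h_div hj).1, rfl⟩)
    change (algebraMap S'.L X'.E (S'.e₂ (c₂'.h s.j / c₂'.h t.j)),
      algebraMap S''.L X''.E (S''.e₂ (c₂''.h s.j / c₂''.h t.j))) ∈ _ at h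
    simpa only [SurfData.h₂, map_div₀] using h
  have n1 : ∀ i, algebraMap S'.L X'.E (S'.h₁ i) ≠ 0 := fun i => by
    simp [SurfData.h₁, c₁'.h_ne i]
  have n2 : ∀ i, algebraMap S''.L X''.E (S''.h₁ i) ≠ 0 := fun i => by
    simp [SurfData.h₁, c₁''.h_ne i]
  have n3 : ∀ i, algebraMap S'.L X'.E (S'.h₂ i) ≠ 0 := fun i => by
    simp [SurfData.h₂, c₂'.h_ne i]
  have n4 : ∀ i, algebraMap S''.L X''.E (S''.h₂ i) ≠ 0 := fun i => by
    simp [SurfData.h₂, c₂''.h_ne i]
  have a1 := n1 s.i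
  have a2 := n1 t.i
  have a3 := n2 s.i
  have a4 := n2 t.i
  have b1 := n3 s.j
  have b2 := n3 t.j
  have b3 := n4 s.j
  have b4 := n4 t.j
  refine sup_le ?_ (Algebra.adjoin_le ?_)
  · exact le_trans (Subalgebra.map_mono hS) le_sup_left
  · rintro z ⟨n, hn, rfl⟩
    rw [SetLike.mem_coe]
    have hn' : n ∈ ixX t.k := by
      rcases hn with ⟨h1, h2⟩ | ⟨h1, h2⟩
      · exact Or.inl ⟨hk h1, h2⟩
      · exact Or.inr ⟨hk h1, h2⟩
    have hg := hmemG n hn'
    fin_cases n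
    · have h := mul_mem q1 hg
      convert h using 1
      change (algebraMap S'.L X'.E (S'.h₁ s.i) * X'.η, algebraMap S''.L X''.E (S''.h₁ s.i) * X''.η) =
        (_, _) * (algebraMap S'.L X'.E (S'.h₁ t.i) * X'.η,
          algebraMap S''.L X''.E (S''.h₁ t.i) * X''.η)
      rw [Prod.mk_mul_mk]
      congr 1 <;> field_simp
    · have h := mul_mem q3 hg
      convert h using 1
      change (algebraMap S'.L X'.E (S'.h₂ s.j) * X'.ζ, algebraMap S''.L X''.E (S''.h₂ s.j) * X''.ζ) =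
        (_, _) * (algebraMap S'.L X'.E (S'.h₂ t.j) * X'.ζ,
          algebraMap S''.L X''.E (S''.h₂ t.j) * X''.ζ)
      rw [Prod.mk_mul_mk]
      congr 1 <;> field_simp
    · have h := mul_mem q2 hg
      convert h using 1
      change ((algebraMap S'.L X'.E (S'.h₁ s.i) * X'.η)⁻¹,
          (algebraMap S''.L X''.E (S''.h₁ s.i) * X''.η)⁻¹) =
        (_, _) * ((algebraMap S'.L X'.E (S'.h₁ t.i) * X'.η)⁻¹,
          (algebraMap S''.L X''.E (S''.h₁ t.i) * X''.η)⁻¹)
      rw [Prod.mk_mul_mk]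
      congr 1 <;> field_simp
    · have h := mul_mem (mul_mem q3 q2) hg
      convert h using 1
      change ((algebraMap S'.L X'.E (S'.h₂ s.j) * X'.ζ) * (algebraMap S'.L X'.E (S'.h₁ s.i) * X'.η)⁻¹,
          (algebraMap S''.L X''.E (S''.h₂ s.j) * X''.ζ) *
            (algebraMap S''.L X''.E (S''.h₁ s.i) * X''.η)⁻¹) =
        ((_, _) * (_, _)) *
          ((algebraMap S'.L X'.E (S'.h₂ t.j) * X'.ζ) * (algebraMap S'.L X'.E (S'.h₁ t.i) * X'.η)⁻¹,
          (algebraMap S''.L X''.E (S''.h₂ t.j) * X''.ζ) *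
            (algebraMap S''.L X''.E (S''.h₁ t.i) * X''.η)⁻¹)
      rw [Prod.mk_mul_mk, Prod.mk_mul_mk]
      congr 1 <;> field_simp

end

end Pool.CRD
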