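import Pool.Agent.CRD.Crv.Stmts

open Polynomial TensorProduct

set_option autoImplicit false

namespace Pool.CRD

namespace MGD_

lemma frMap_tmul {B K R E : Type} [CommRing B] [Field K] [Algebra B K] [CommRing R] [Algebra B R]
    [CommRing E] [Algebra K E] [Algebra B E] [IsScalarTower B K E] (θ : R →ₐ[B] E) (k : K)
    (r : R) : frMap B K θ (k ⊗ₜ[B] r) = algebraMap K E k * θ r := by
  exact Algebra.TensorProduct.lift_tmul (Algebra.ofId K E) θ (fun _ _ => mul_comm _ _) k r

lemma theta_inj {B K R E : Type} [CommRing B] [Field K] [Algebra B K] [CommRing R] [Algebra B R]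
    [CommRing E] [Algebra K E] [Algebra B E] [IsScalarTower B K E] (θ : R →ₐ[B] E)
    (hflat : Module.Flat B R) (hBK : Function.Injective (algebraMap B K))
    (h : Function.Injective (frMap B K θ)) : Function.Injective θ := by
  have h1 : Function.Injective (Algebra.TensorProduct.includeRight : R →ₐ[B] K ⊗[B] R) :=
    Algebra.TensorProduct.includeRight_injective hBK
  have h2 : ∀ r, θ r = frMap B K θ (Algebra.TensorProduct.includeRight r) := by
    intro r
    rw [Algebra.TensorProduct.includeRight_apply, frMap_tmul, map_one, one_mul]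
  intro a b hab
  rw [h2, h2] at hab
  exact h1 (h hab)

lemma frMap_equiv {B K R R' E : Type} [CommRing B] [Field K] [Algebra B K] [CommRing R]
    [Algebra B R] [CommRing R'] [Algebra B R']
    [CommRing E] [Algebra K E] [Algebra B E] [IsScalarTower B K E] (θ : R →ₐ[B] E)
    (θ' : R' →ₐ[B] E) (e : R ≃ₐ[B] R') (he : ∀ r, θ' (e r) = θ r) :
    (frMap B K θ').comp (Algebra.TensorProduct.congr (AlgEquiv.refl : K ≃ₐ[K] K) e).toAlgHom =
      frMap B K θ := by
  apply Algebra.TensorProduct.ext
  · ext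
  · apply AlgHom.ext
    intro r
    change frMap B K θ' (Algebra.TensorProduct.congr (AlgEquiv.refl : K ≃ₐ[K] K) e (1 ⊗ₜ[B] r)) =
      frMap B K θ (1 ⊗ₜ[B] r)
    rw [Algebra.TensorProduct.congr_apply, Algebra.TensorProduct.map_tmul, frMap_tmul, frMap_tmul]
    simp [he]

lemma fr_equiv {B K R R' E : Type} [CommRing B] [Field K] [Algebra B K] [CommRing R]
    [Algebra B R] [CommRing R'] [Algebra B R']
    [CommRing E] [Algebra K E] [Algebra B E] [IsScalarTower B K E] (θ : R →ₐ[B] E)
    (θ' : R' →ₐ[B] E) (e : R ≃ₐ[B] R') (he : ∀ r, θ' (e r) = θ r) (A : Subalgebra K E)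
    (h : Fr B K θ A) : Fr B K θ' A := by
  have key := frMap_equiv (K := K) θ θ' e he
  set c := Algebra.TensorProduct.congr (AlgEquiv.refl : K ≃ₐ[K] K) e with hc
  have key' : ∀ x, frMap B K θ' x = frMap B K θ (c.symm x) := by
    intro x
    rw [← key]
    change _ = frMap B K θ' (c (c.symm x))
    rw [c.apply_symm_apply]
  refine ⟨?_, ?_⟩
  · intro a b hab
    rw [key', key'] at hab
    exact c.symm.injective (h.inj hab)
  · rw [← h.rng, ← key]
    apply le_antisymm
    · rintro _ ⟨x, rfl⟩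
      refine ⟨c.symm x, ?_⟩
      change frMap B K θ' (c (c.symm x)) = _
      rw [c.apply_symm_apply]
      rfl
    · rintro _ ⟨x, rfl⟩
      exact ⟨c x, rfl⟩

end MGD_

theorem mgd_proof : Stmt_MGD := by
  intro B K' K'' R E' E'' _ _ _ _ _ _ _ _ _ _ _ _ _ _ _ θ' θ'' A' A'' hsm hinj hfr' hfr''
  have := hsm
  have hflat : Module.Flat B R := inferInstance
  have hθ' : Function.Injective θ' := MGD_.theta_inj θ' hflat hinj hfr'.inj
  have hθ : Function.Injective (θ'.prod θ'') := fun a b hab =>
    hθ' (by simpa using congrArg Prod.fst hab)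
  let e : R ≃ₐ[B] (θ'.prod θ'').range := AlgEquiv.ofInjective (θ'.prod θ'') hθ
  refine ⟨Algebra.Smooth.of_equiv e, ?_, ?_, ?_⟩
  · rintro _ ⟨r, rfl⟩ h
    have h1 : θ' r = 0 := h
    have h2 : r = 0 := hθ' (by rw [h1, map_zero])
    rw [h2]
    exact map_zero _
  · exact MGD_.fr_equiv θ' _ e (fun r => rfl) A' hfr'
  · exact MGD_.fr_equiv θ'' _ e (fun r => rfl) A'' hfr''

end Pool.CRD

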