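import Pool.Agent.CRD.Crv.Stmts

/-!
# CRD / Crv / NSO: a polynomial of odd degree is not the square of a rational function
-/

open Polynomial

namespace Pool.CRD

theorem nso_proof : Stmt_NSO := by
  intro k _ f hf r hr
  have hf0 : f ≠ 0 := by
    rintro rfl
    simp at hf
  have hr0 : r ≠ 0 := by
    rintro rfl
    apply hf0
    apply RatFunc.algebraMap_injective k
    rw [map_zero, ← hr]
    ring
  have h1 : RatFunc.intDegree (r ^ 2) = f.natDegree := by
    rw [hr, RatFunc.intDegree_polynomial]
  rw [pow_two, RatFunc.intDegree_mul hr0 hr0] at h1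
  obtain ⟨m, hm⟩ := hf
  omega

end Pool.CRD
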