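import Pool.Agent.CRD.Crv.Stmts

/-!
# CRD / Crv / NSS: a squarefree polynomial of positive degree is not a square of a rational
function
-/

open Polynomial TensorProduct

namespace Pool.CRD

theorem nss_proof : Stmt_NSS := by
  intro k _ f hf hdeg r hr
  have hint : IsIntegral k[X] r := by
    refine ⟨X ^ 2 - C f, monic_X_pow_sub_C f two_ne_zero, ?_⟩
    rw [eval₂_sub, eval₂_X_pow, eval₂_C, hr, sub_self]
  obtain ⟨g, hg⟩ := IsIntegrallyClosed.isIntegral_iff.1 hint
  have h1 : g ^ 2 = f := by
    apply IsFractionRing.injective k[X] (RatFunc k)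
    rw [map_pow, hg, hr]
  have h2 : IsUnit g := by
    apply hf g
    rw [← h1, pow_two]
  have h3 : f.natDegree = 0 := by
    rw [← h1, natDegree_pow, natDegree_eq_zero_of_isUnit h2, mul_zero]
  omega

end Pool.CRD
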