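import Pool.Agent.CRD.Crv.Stmts

/-!
# CRD: existence of the function field of the product of two curves
-/

open Polynomial TensorProduct

namespace Pool.CRD

noncomputable section

namespace SEX_

theorem natDegree_fC {K : Type} [Field K] (l : K) : (fC l).natDegree = 7 := by
  unfold fC
  rw [natDegree_mul X_ne_zero, natDegree_mul, natDegree_X]
  · have h1 : (X ^ 3 - 1 : K[X]).natDegree = 3 := by
      have h := natDegree_X_pow_sub_C (n := 3) (r := (1 : K))
      rwa [map_one] at h
    have h2 : (X ^ 3 - C l : K[X]).natDegree = 3 := natDegree_X_pow_sub_C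
    rw [h1, h2]
  · have h := (monic_X_pow_sub_C (1 : K) (n := 3) (by norm_num)).ne_zero
    rwa [map_one] at h
  · exact (monic_X_pow_sub_C l (n := 3) (by norm_num)).ne_zero
  · apply mul_ne_zero
    · have h := (monic_X_pow_sub_C (1 : K) (n := 3) (by norm_num)).ne_zero
      rwa [map_one] at h
    · exact (monic_X_pow_sub_C l (n := 3) (by norm_num)).ne_zero

end SEX_

theorem SEX_proof (hDEX : Stmt_DEX) (hNSO : Stmt_NSO) (hDMP : Stmt_DMP) (hDTI : Stmt_DTI) :
    Stmt_SEX := by
  intro K _ c₁ l H p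
  let f₁ : c₁.F[X] := (fC l).map (algebraMap K c₁.F)
  have hdeg : Odd f₁.natDegree := by
    rw [natDegree_map, SEX_.natDegree_fC]
    decide
  obtain ⟨D⟩ := hDEX c₁.F f₁ (hNSO c₁.F f₁ hdeg)
  let _ : Algebra K D.F := ((algebraMap c₁.F D.F).comp (algebraMap K c₁.F)).toAlgebra
  have _ : IsScalarTower K c₁.F D.F := IsScalarTower.of_algebraMap_eq (fun _ => rfl)
  have htr : Transcendental K D.z := D.dbl.tr.restrictScalars (algebraMap K c₁.F).injective
  have heqn : D.y ^ 2 = aeval D.z (fC l) := by
    rw [D.dbl.eqn, aeval_map_algebraMap]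
  obtain ⟨φ, hz, hy⟩ := hDMP K (fC l) H.F H.z H.y H.dbl D.F D.z D.y htr heqn
  obtain ⟨hi, hf⟩ := hDTI K (fC l) H.F H.z H.y H.dbl c₁.F D.F D.z D.y D.dbl φ hz hy
  exact ⟨{ L := D.F
           field := D.field
           alg := inferInstance
           e₁ := IsScalarTower.toAlgHom K c₁.F D.F
           e₂ := φ
           inj := hi
           frac := hf }⟩

end

end Pool.CRD
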