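import Pool.Agent.CRD.Crv.Stmts

/-!
# CRD area CRV, SMQ: smoothness of double covers of the line
-/

open Polynomial TensorProduct

namespace Pool.CRD

namespace SMQ_

/-- two ring homomorphisms on a quadratic algebra agree -/
theorem hom_ext {A D : Type*} [CommRing A] [CommRing D] {a b : A}
    (φ ψ : QuadraticAlgebra A a b →+* D)
    (h1 : ∀ x : A, φ (algebraMap A _ x) = ψ (algebraMap A _ x))
    (h2 : φ QuadraticAlgebra.omega = ψ QuadraticAlgebra.omega) : φ = ψ := by
  ext x
  have hx : x = algebraMap A _ x.re + algebraMap A _ x.im * QuadraticAlgebra.omega := by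
    ext <;> simp
  rw [hx, map_add, map_mul, map_add, map_mul, h1, h1, h2]

theorem smooth_lift {R : Type} [CommRing R] (f a b g : R[X]) (h2 : IsUnit (2 : R))
    (hg : a * f + b * derivative f = g) {D : Type} [CommRing D] [Algebra R D] (I : Ideal D)
    (hI : I ^ 2 = ⊥) (x₀ y₀ : D) (hc : y₀ ^ 2 - aeval x₀ f ∈ I) (hG : IsUnit (aeval x₀ g)) :
    ∃ x y : D, x - x₀ ∈ I ∧ y - y₀ ∈ I ∧ y ^ 2 = aeval x f := by
  obtain ⟨G, hG⟩ := hG
  obtain ⟨w, hw⟩ := h2.exists_right_inv
  have hI2 : ∀ s ∈ I, ∀ t ∈ I, s * t = 0 := by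
    intro s hs t ht
    have h3 : s * t ∈ I ^ 2 := by
      rw [sq]
      exact Ideal.mul_mem_mul hs ht
    rw [hI] at h3
    exact h3
  set c := y₀ ^ 2 - aeval x₀ f with hc'
  set Gi : D := ((G⁻¹ : Dˣ) : D) with hGi
  have hGG : Gi * aeval x₀ g = 1 := by rw [hGi, ← hG, Units.inv_mul]
  set w' : D := algebraMap R D w with hw'
  have hww : 2 * w' = 1 := by
    have h3 := congrArg (algebraMap R D) hw
    rw [map_mul, map_ofNat, map_one] at h3
    exact h3
  set δ := aeval x₀ b * c * Gi with hδ
  set ε := -(aeval x₀ a * y₀ * c * Gi * w') with hε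
  have hδI : δ ∈ I := I.mul_mem_right _ (I.mul_mem_left _ hc)
  have hεI : ε ∈ I := by
    apply I.neg_mem
    exact I.mul_mem_right _ (I.mul_mem_right _ (I.mul_mem_left _ hc))
  refine ⟨x₀ + δ, y₀ + ε, by simpa using hδI, by simpa using hεI, ?_⟩
  rw [Polynomial.aeval_add_of_sq_eq_zero _ _ _ (by rw [sq]; exact hI2 _ hδI _ hδI)]
  have he2 : ε * ε = 0 := hI2 _ hεI _ hεI
  have hcc : c * c = 0 := hI2 _ hc _ hc
  have hgg : aeval x₀ a * aeval x₀ f + aeval x₀ b * aeval x₀ (derivative f) = aeval x₀ g := by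
    rw [← hg, map_add, map_mul, map_mul]
  have hyc : y₀ ^ 2 = aeval x₀ f + c := by rw [hc']; ring
  have h5 : (y₀ + ε) ^ 2 - (aeval x₀ f + aeval x₀ (derivative f) * δ) = 0 := by
    have e1 : (y₀ + ε) ^ 2 = y₀ ^ 2 + 2 * y₀ * ε + ε * ε := by ring
    rw [e1, he2, hyc, hδ, hε]
    have e2 : 2 * y₀ * -(aeval x₀ a * y₀ * c * Gi * w') =
        -(aeval x₀ a * y₀ ^ 2 * c * Gi) * (2 * w') := by ring
    rw [e2, hww, hyc]
    linear_combination (-(c) * Gi) * hgg - c * hGG - (aeval x₀ a * Gi) * hcc
  exact sub_eq_zero.mp h5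

end SMQ_

open SMQ_ in
theorem smq_proof : Stmt_SMQ := by
  intro R _ f a b g h2 hg S _ _ _ _ _
  let _ : Algebra R[X] S :=
    ((algebraMap (QuadraticAlgebra R[X] f 0) S).comp (algebraMap R[X] _)).toAlgebra
  have _ : IsScalarTower R[X] (QuadraticAlgebra R[X] f 0) S :=
    IsScalarTower.of_algebraMap_eq' rfl
  have _ : IsScalarTower R R[X] S := by
    refine IsScalarTower.of_algebraMap_eq fun r => ?_
    rw [IsScalarTower.algebraMap_apply R (QuadraticAlgebra R[X] f 0) S,
      IsScalarTower.algebraMap_apply R R[X] (QuadraticAlgebra R[X] f 0)]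
    rfl
  have hfp : Algebra.FinitePresentation R S := by
    have h3 : Module.FinitePresentation R[X] (QuadraticAlgebra R[X] f 0) :=
      Module.finitePresentation_of_projective _ _
    have h4 : Algebra.FinitePresentation R[X] (QuadraticAlgebra R[X] f 0) :=
      Algebra.FinitePresentation.of_finitePresentation _ _
    have h5 : Algebra.FinitePresentation R (QuadraticAlgebra R[X] f 0) :=
      Algebra.FinitePresentation.trans R R[X] _
    have h6 : Algebra.FinitePresentation (QuadraticAlgebra R[X] f 0) S :=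
      IsLocalization.Away.finitePresentation (algebraMap R[X] (QuadraticAlgebra R[X] f 0) g)
    exact Algebra.FinitePresentation.trans R (QuadraticAlgebra R[X] f 0) S
  have hfs : Algebra.FormallySmooth R S := by
    refine Algebra.FormallySmooth.of_comp_surjective fun D _ _ I hI h => ?_
    set ξ : S := algebraMap (QuadraticAlgebra R[X] f 0) S (algebraMap R[X] _ X) with hξ
    set υ : S := algebraMap (QuadraticAlgebra R[X] f 0) S QuadraticAlgebra.omega with hυ
    have hpoly : ∀ p : R[X],
        algebraMap (QuadraticAlgebra R[X] f 0) S (algebraMap R[X] _ p) = aeval ξ p := by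
      intro p
      change algebraMap R[X] S p = _
      have h3 : (IsScalarTower.toAlgHom R R[X] S) = aeval ξ := by
        apply Polynomial.algHom_ext
        rw [aeval_X]
        rfl
      exact DFunLike.congr_fun h3 p
    obtain ⟨x₀, hx₀⟩ := Ideal.Quotient.mk_surjective (h ξ)
    obtain ⟨y₀, hy₀⟩ := Ideal.Quotient.mk_surjective (h υ)
    have hmk : ∀ (t : D) (p : R[X]), Ideal.Quotient.mk I (aeval t p) =
        aeval (Ideal.Quotient.mk I t) p := by
      intro t p
      exact (Polynomial.aeval_algHom_apply (Ideal.Quotient.mkₐ R I) t p).symm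
    have hυ2 : υ ^ 2 = aeval ξ f := by
      rw [← hpoly, hυ, ← map_pow]
      congr 1
      rw [sq, QuadraticAlgebra.omega_mul_omega_eq_mk]
      ext <;> simp
    have hc : y₀ ^ 2 - aeval x₀ f ∈ I := by
      rw [← Ideal.Quotient.eq_zero_iff_mem, map_sub, map_pow, hmk, hx₀, hy₀,
        Polynomial.aeval_algHom_apply, ← map_pow, hυ2, sub_self]
    have hG : IsUnit (aeval x₀ g) := by
      apply (IsNilpotent.isUnit_quotient_mk_iff (I := I) ⟨2, hI⟩).mp
      rw [hmk, hx₀, Polynomial.aeval_algHom_apply, ← hpoly]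
      exact (IsLocalization.Away.algebraMap_isUnit
        (algebraMap R[X] (QuadraticAlgebra R[X] f 0) g)).map h
    obtain ⟨x, y, hx, hy, hxy⟩ := smooth_lift f a b g h2 hg I hI x₀ y₀ hc hG
    -- the map on the quadratic algebra
    let _ : Algebra R[X] D := (aeval x : R[X] →ₐ[R] D).toRingHom.toAlgebra
    have hal : ∀ p : R[X], algebraMap R[X] D p = aeval x p := fun _ => rfl
    have hyy : y * y = f • (1 : D) + (0 : R[X]) • y := by
      rw [Algebra.smul_def, Algebra.smul_def, map_zero, zero_mul, add_zero, mul_one, hal, ← hxy, sq]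
    let φ : QuadraticAlgebra R[X] f 0 →ₐ[R[X]] D := QuadraticAlgebra.lift ⟨y, hyy⟩
    have hφω : φ QuadraticAlgebra.omega = y := by
      simp [φ, QuadraticAlgebra.lift]
    have hφp : ∀ p : R[X], φ (algebraMap R[X] _ p) = aeval x p := by
      intro p
      rw [AlgHom.commutes]
      exact hal p
    have hxI : Ideal.Quotient.mk I x = h ξ := by
      rw [← hx₀, Ideal.Quotient.eq]
      exact hx
    have hyI : Ideal.Quotient.mk I y = h υ := by
      rw [← hy₀, Ideal.Quotient.eq]
      exact hy
    have hgu : IsUnit (φ (algebraMap R[X] (QuadraticAlgebra R[X] f 0) g)) := by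
      rw [hφp]
      apply (IsNilpotent.isUnit_quotient_mk_iff (I := I) ⟨2, hI⟩).mp
      rw [hmk, hxI, Polynomial.aeval_algHom_apply, ← hpoly]
      exact (IsLocalization.Away.algebraMap_isUnit
        (algebraMap R[X] (QuadraticAlgebra R[X] f 0) g)).map h
    let Φ : S →+* D := IsLocalization.Away.lift
      (algebraMap R[X] (QuadraticAlgebra R[X] f 0) g) (g := φ.toRingHom) hgu
    have hΦ : ∀ q, Φ (algebraMap (QuadraticAlgebra R[X] f 0) S q) = φ q := by
      intro q
      exact IsLocalization.Away.lift_eq _ hgu q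
    have hΦR : ∀ r : R, Φ (algebraMap R S r) = algebraMap R D r := by
      intro r
      rw [IsScalarTower.algebraMap_apply R (QuadraticAlgebra R[X] f 0) S, hΦ,
        IsScalarTower.algebraMap_apply R R[X] (QuadraticAlgebra R[X] f 0), hφp]
      exact aeval_C x r
    refine ⟨{ Φ with commutes' := hΦR }, ?_⟩
    apply AlgHom.coe_ringHom_injective
    apply IsLocalization.ringHom_ext
      (Submonoid.powers (algebraMap R[X] (QuadraticAlgebra R[X] f 0) g))
    apply hom_ext
    · intro p
      change Ideal.Quotient.mk I (Φ (algebraMap (QuadraticAlgebra R[X] f 0) S _)) =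
        h (algebraMap (QuadraticAlgebra R[X] f 0) S _)
      rw [hΦ, hφp, hmk, hxI, hpoly, Polynomial.aeval_algHom_apply]
    · change Ideal.Quotient.mk I (Φ (algebraMap (QuadraticAlgebra R[X] f 0) S _)) =
        h (algebraMap (QuadraticAlgebra R[X] f 0) S _)
      rw [hΦ, hφω, hyI]
  exact { formallySmooth := hfs, finitePresentation := hfp }

end Pool.CRD
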