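import Pool.Agent.CRD.Crv.Stmts

/-!
# CRD / Crv: the equations of the explicit curve are squarefree
-/

open Polynomial TensorProduct

namespace Pool.CRD

theorem sqf_proof : Stmt_SQF := by
  intro K _ l hl
  have h3 : (3 : K) ≠ 0 := hl.three.ne_zero
  have hl0 : l ≠ 0 := hl.l0.ne_zero
  have hl1 : l - 1 ≠ 0 := hl.l1.ne_zero
  have k3 : (C (3 : K) : K[X]) = 3 := map_ofNat C 3
  have k2 : (C (2 : K) : K[X]) = 2 := map_ofNat C 2
  have eC3 : (C (3 : K)⁻¹ : K[X]) * 3 = 1 := by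
    rw [← k3, ← C_mul, inv_mul_cancel₀ h3, C_1]
  have eCl : (C (l : K)⁻¹ : K[X]) * C l = 1 := by
    rw [← C_mul, inv_mul_cancel₀ hl0, C_1]
  have eCl1 : (C (l - 1 : K)⁻¹ : K[X]) * (C l - 1) = 1 := by
    rw [← C_1, ← C_sub, ← C_mul, inv_mul_cancel₀ hl1]
  refine ⟨?_, ?_⟩
  · apply Separable.squarefree
    unfold fC
    have s1 : (X ^ 3 - 1 : K[X]).Separable := by
      have := separable_X_pow_sub_C (n := 3) (1 : K) (by exact_mod_cast h3) one_ne_zero
      simpa using this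
    have s2 : (X ^ 3 - C l : K[X]).Separable :=
      separable_X_pow_sub_C (n := 3) l (by exact_mod_cast h3) hl0
    have c1 : IsCoprime (X ^ 3 - 1 : K[X]) (X ^ 3 - C l) :=
      ⟨C (l - 1)⁻¹, - C (l - 1)⁻¹, by linear_combination eCl1⟩
    have c2 : IsCoprime (X : K[X]) ((X ^ 3 - 1) * (X ^ 3 - C l)) :=
      ⟨- C l⁻¹ * (X ^ 5 - (1 + C l) * X ^ 2), C l⁻¹, by linear_combination eCl⟩
    exact separable_X.mul (s1.mul s2 c1) c2
  · apply Separable.squarefree
    unfold fA qq qa qb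
    have s0 : (X : K[X]).Separable := separable_X
    have s1 : (X + 1 : K[X]).Separable := by
      have := separable_X_sub_C (x := (-1 : K))
      simpa using this
    have s2 : (3 * X ^ 2 + 3 * X + 1 : K[X]).Separable := by
      refine ⟨4, -(2 * X + 1), ?_⟩
      simp only [derivative_add, derivative_mul, derivative_X_pow, derivative_X, derivative_one,
        derivative_ofNat, map_ofNat, Nat.cast_ofNat]
      norm_num
      ring
    have s3 : ((1 - C l) * X ^ 3 + 3 * X ^ 2 + 3 * X + 1 : K[X]).Separable := by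
      refine ⟨(1 - 2 * X) + C l⁻¹ * (2 * X + 3),
        - C 3⁻¹ * ((1 - 2 * X) * X + C l⁻¹ * (2 * X + 3) * (1 + X)), ?_⟩
      have hd : derivative ((1 - C l) * X ^ 3 + 3 * X ^ 2 + 3 * X + 1 : K[X]) =
          3 * ((1 - C l) * X ^ 2 + 2 * X + 1) := by
        simp only [derivative_add, derivative_sub, derivative_mul, derivative_X_pow, derivative_X,
          derivative_one, derivative_C, derivative_ofNat, Nat.cast_ofNat]
        norm_num [k3, k2]
        ring
      rw [hd]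
      linear_combination (-((1 - 2 * X) * X + C l⁻¹ * (2 * X + 3) * (1 + X)) *
        ((1 - C l) * X ^ 2 + 2 * X + 1)) * eC3 + ((2 * X + 3) * X ^ 2) * eCl
    have c01 : IsCoprime (X : K[X]) (X + 1) := ⟨-1, 1, by ring⟩
    have c02 : IsCoprime (X : K[X]) (3 * X ^ 2 + 3 * X + 1) := ⟨-(3 * X + 3), 1, by ring⟩
    have c03 : IsCoprime (X : K[X]) ((1 - C l) * X ^ 3 + 3 * X ^ 2 + 3 * X + 1) :=
      ⟨-((1 - C l) * X ^ 2 + 3 * X + 3), 1, by ring⟩
    have c12 : IsCoprime (X + 1 : K[X]) (3 * X ^ 2 + 3 * X + 1) := ⟨-(3 * X), 1, by ring⟩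
    have c13 : IsCoprime (X + 1 : K[X]) ((1 - C l) * X ^ 3 + 3 * X ^ 2 + 3 * X + 1) :=
      ⟨-(C l⁻¹ * ((1 - C l) * X ^ 2 + (2 + C l) * X + (1 - C l))), C l⁻¹, by
        linear_combination eCl⟩
    have c23 : IsCoprime (3 * X ^ 2 + 3 * X + 1 : K[X])
        ((1 - C l) * X ^ 3 + 3 * X ^ 2 + 3 * X + 1) := by
      have h1 : IsCoprime (3 * X ^ 2 + 3 * X + 1 : K[X]) (X ^ 3) := c02.symm.pow_right
      have h2 : IsUnit (1 - C l : K[X]) :=
        IsUnit.of_mul_eq_one (-C (l - 1)⁻¹) (by linear_combination eCl1)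
      have h3 : IsCoprime (3 * X ^ 2 + 3 * X + 1 : K[X]) ((1 - C l) * X ^ 3) :=
        (isCoprime_mul_unit_left_right h2 _ _).2 h1
      have h4 := h3.add_mul_left_right 1
      have e : (1 - C l) * X ^ 3 + (3 * X ^ 2 + 3 * X + 1) * 1 =
          ((1 - C l) * X ^ 3 + 3 * X ^ 2 + 3 * X + 1 : K[X]) := by ring
      rwa [e] at h4
    refine (s0.mul s1 c01).mul (s2.mul s3 c23) ?_
    exact (c02.mul_right c03).mul_left (c12.mul_right c13)

end Pool.CRD
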