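/-
MP_051437_ag, area CRV, module XCA (helper89).
-/
import Pool.Agent.CRD.Crv.Stmts

set_option linter.style.longLine false

open Polynomial TensorProduct

namespace Pool.CRD

noncomputable section

namespace XCA_

theorem gens_eq {K : Type} [Field K] {c₁ c₂ : CurveData K} {S : SurfData c₁ c₂}
    (T : ConicData S) (i j k : Cov Bool) :
    T.gens i j k = gX ((IsScalarTower.toAlgHom K S.L T.E) (S.h₁ i))
      ((IsScalarTower.toAlgHom K S.L T.E) (S.h₂ j)) T.η T.ζ '' ixX k := by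
  have e0 : gX ((IsScalarTower.toAlgHom K S.L T.E) (S.h₁ i))
      ((IsScalarTower.toAlgHom K S.L T.E) (S.h₂ j)) T.η T.ζ 0 = T.eta i := rfl
  have e1 : gX ((IsScalarTower.toAlgHom K S.L T.E) (S.h₁ i))
      ((IsScalarTower.toAlgHom K S.L T.E) (S.h₂ j)) T.η T.ζ 1 = T.zeta j := rfl
  have e2 : gX ((IsScalarTower.toAlgHom K S.L T.E) (S.h₁ i))
      ((IsScalarTower.toAlgHom K S.L T.E) (S.h₂ j)) T.η T.ζ 2 = (T.eta i)⁻¹ := rfl
  have e3 : gX ((IsScalarTower.toAlgHom K S.L T.E) (S.h₁ i))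
      ((IsScalarTower.toAlgHom K S.L T.E) (S.h₂ j)) T.η T.ζ 3 = T.zeta j / T.eta i := by
    rw [div_eq_mul_inv]; rfl
  ext z
  constructor
  · rintro (⟨h, rfl | rfl⟩ | ⟨h, rfl | rfl⟩)
    · exact ⟨0, Or.inl ⟨h, by decide⟩, e0⟩
    · exact ⟨1, Or.inl ⟨h, by decide⟩, e1⟩
    · exact ⟨2, Or.inr ⟨h, by decide⟩, e2⟩
    · exact ⟨3, Or.inr ⟨h, by decide⟩, e3⟩
  · rintro ⟨n, hn, rfl⟩
    rcases hn with ⟨h, hn⟩ | ⟨h, hn⟩
    · have h2 : n = 0 ∨ n = 1 := by
        revert hn; revert n; decide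
      rcases h2 with rfl | rfl
      · exact Or.inl ⟨h, Or.inl e0⟩
      · exact Or.inl ⟨h, Or.inr e1⟩
    · have h2 : n = 2 ∨ n = 3 := by
        revert hn; revert n; decide
      rcases h2 with rfl | rfl
      · exact Or.inr ⟨h, Or.inl e2⟩
      · exact Or.inr ⟨h, Or.inr e3⟩

theorem adjoin_mul {L E : Type} [Field L] [Field E] [Algebra L E] (p : L) (hp : p ≠ 0) (η : E) :
    IntermediateField.adjoin L {algebraMap L E p * η} = IntermediateField.adjoin L {η} := by
  have hp' : algebraMap L E p ≠ 0 := (_root_.map_ne_zero _).2 hp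
  apply le_antisymm
  · rw [IntermediateField.adjoin_simple_le_iff]
    exact mul_mem (IntermediateField.algebraMap_mem _ p) (IntermediateField.mem_adjoin_simple_self L η)
  · rw [IntermediateField.adjoin_simple_le_iff]
    have h1 := mul_mem (IntermediateField.algebraMap_mem
      (IntermediateField.adjoin L {algebraMap L E p * η}) p⁻¹)
      (IntermediateField.mem_adjoin_simple_self L (algebraMap L E p * η))
    have h2 : algebraMap L E p⁻¹ * (algebraMap L E p * η) = η := by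
      rw [map_inv₀, inv_mul_cancel_left₀ hp']
    rwa [h2] at h1

theorem dbl {L E : Type} [Field L] [Field E] [Algebra L E] (x₁ x₂ p q : L) (hx2 : x₂ ≠ 0)
    (hp : p ≠ 0) (hq : q ≠ 0) (η ζ : E) (tr : Transcendental L η)
    (eqn : algebraMap L E x₁ * η ^ 2 + algebraMap L E x₂ * ζ ^ 2 = 1)
    (indep : ∀ a b : IntermediateField.adjoin L {η}, (a : E) + b * ζ = 0 → a = 0 ∧ b = 0)
    (gen : ∀ z : E, ∃ a b : IntermediateField.adjoin L {η}, z = (a : E) + b * ζ) :
    Dbl L (C (x₂ / q ^ 2)⁻¹ * (1 - C (x₁ / p ^ 2) * X ^ 2)) E (algebraMap L E p * η)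
      (algebraMap L E q * ζ) := by
  have hp' : algebraMap L E p ≠ 0 := (_root_.map_ne_zero _).2 hp
  have hq' : algebraMap L E q ≠ 0 := (_root_.map_ne_zero _).2 hq
  have hx' : algebraMap L E x₂ ≠ 0 := (_root_.map_ne_zero _).2 hx2
  have had := adjoin_mul (E := E) p hp η
  refine ⟨?_, ?_, ?_, ?_⟩
  · intro h
    apply tr
    have h2 : algebraMap L E p⁻¹ * (algebraMap L E p * η) = η := by
      rw [map_inv₀, inv_mul_cancel_left₀ hp']
    rw [← h2]
    exact (isAlgebraic_algebraMap _).mul h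
  · simp only [map_mul, map_sub, map_one, aeval_C, aeval_X, map_pow, map_div₀, map_inv₀]
    have h1 : algebraMap L E x₂ * ζ ^ 2 = 1 - algebraMap L E x₁ * η ^ 2 := by
      linear_combination eqn
    have h2 : (1 : E) - algebraMap L E x₁ / algebraMap L E p ^ 2 * (algebraMap L E p * η) ^ 2 =
        algebraMap L E x₂ * ζ ^ 2 := by
      rw [h1]
      field_simp
    rw [h2]
    field_simp
  · intro a ha b hb hab
    rw [had] at ha hb
    have hbq : b * algebraMap L E q ∈ IntermediateField.adjoin L {η} :=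
      mul_mem hb (IntermediateField.algebraMap_mem _ q)
    have h1 := indep ⟨a, ha⟩ ⟨b * algebraMap L E q, hbq⟩ (by
      change a + b * algebraMap L E q * ζ = 0
      rw [← hab]; ring)
    have h2 : a = 0 := congrArg Subtype.val h1.1
    have h3 : b * algebraMap L E q = 0 := congrArg Subtype.val h1.2
    exact ⟨h2, (mul_eq_zero.1 h3).resolve_right hq'⟩
  · intro x
    obtain ⟨a, b, hab⟩ := gen x
    refine ⟨a, by rw [had]; exact a.2, (b : E) * algebraMap L E q⁻¹, ?_, ?_⟩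
    · rw [had]
      exact mul_mem b.2 (IntermediateField.algebraMap_mem _ _)
    · rw [hab, map_inv₀]
      field_simp

end XCA_

theorem xca_proof : Stmt_XCA := by
  intro K _ c₁ c₂ S T
  refine ⟨fun s => rfl, fun s => ?_, fun i j => ?_⟩
  · unfold ConicData.A CA
    rw [XCA_.gens_eq]
    rfl
  · refine XCA_.dbl S.x₁ S.x₂ (S.h₁ i) (S.h₂ j) ?_ ?_ ?_ T.η T.ζ T.tr T.eqn T.indep T.gen
    · exact (_root_.map_ne_zero S.e₂).2 c₂.x_ne
    · exact (_root_.map_ne_zero S.e₁).2 (c₁.h_ne i)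
    · exact (_root_.map_ne_zero S.e₂).2 (c₂.h_ne j)

end

end Pool.CRD
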